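import Pool.Agent.PLY.T2.Defs

/-!
Project PLY (MP_8c6f77_pr, honeycomb lattice, polynomial bound), THE RETURN ESTIMATE (notes 3092, 3094, 3108; architect helper39): DEFINITIONS.

Everything is a statement about a system `S : Sys`; `θ` is the number with `θ ^ 4 = 1 / 2` (`b_N ~ N^(-1/4)`, so at `N = 2 ^ k`: `b ~ θ ^ k`, `U ~ θ ^ (-3k)`,
`Lam ≤ θ ^ (3k)`), `τ` is any number with `θ < τ < 1`. CLASSES of words: `Nat.size (h s) = g` (`h s = 0` for `g = 0`, `2 ^ (g-1) ≤ h s < 2 ^ g` for `g ≥ 1`).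
ZONES: `FP (2 ^ n / 2) l` : `l` is a word up to its first renewal `≥ 2 ^ (n-1)` (the empty word for `n = 0`). So a word of class `g` has a first part in `FP (2 ^ g / 2)`.

* `Rq κ θ`: regularity of order 1/4, dyadic form (comes from `Alph.Quarter`, BEX/Quart).
* `gf σ L l`: the leg `L` is one-sided at every proper renewal of the stopped word `l` (`gp σ L l'` for `l = l' ++ [c']`).
* `sf1 σ i g m`: the strong fold of PLY/Ch/Defs (`sf`), giant leg one-sided (`gf`). `lf σ i m`: the strong fold for ALL the avoiding pairs and all the near parts of height `≤ i`.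
* `Fz K θ τ J`: THE INPUT: the fold estimates at the zones `2 ^ n - 1`, `n ≤ J`, constant `K`.
* `wk σ n g`: mass of the pairs (free leg `l` in `FP (2 ^ n / 2)`, word `s` of class `g`) which avoid each other.
* `ap σ n g c`: the same for the words `s ++ [c]`, `c` fixed (the weight of `c` is not included), giant leg one-sided. `ap ≤ wk`.
* `st σ n g m`: sum over the blocks `c` of height `≥ 2 ^ m` of `wt c * ap σ n g c`. (So `sf1 σ (2 ^ n - 1) g m = st σ (n + 1) g m`.)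
* `ll σ n m`: free leg `l` in `FP (2 ^ n / 2)`, giant leg `s ++ [c]`, `h s < 2 ^ n`, no one-sidedness.
* `on1 σ L v`: the leg `L` is one-sided at every renewal of `v` below the end of `L`.
* `tp σ i j`: THE TRIPLES of scale `2 ^ j`: `v` = first strand read from the upper turning point `a` (`p1.reverse`), `u` = second strand read from `a` (`p2`), `u.reverse` = the same
  strand read from the lower turning point `b`, `t` = beginning of the third strand read from `b` (up to its first renewal `≥ 2 ^ (j-3)`); the heights of `u` and `v`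
  differ by at most `2 ^ i`; `u` is one-sided at both folds. `σ = false`: walk order. `σ = true`: the walk read backwards.

THEOREM A (`TpMain.lean`): `Fz K θ τ (j-3)` gives `tp σ i j ≤ C K² (θ³ τ) ^ (j-i)` for `i + 2 ≤ j`, `3 ≤ j`.
`FromR3.lean`: `R3 σ (2 ^ j) (2 ^ n) ≤ 2 ∑_(m ≥ n) tp σ (j+2) m`. THEOREM B (`RetMain.lean`): `Ret3`.

DECOMPOSITION of `tp` (`N = 2 ^ (j-3)`):
* `trR` : case R, the strand `u` has a renewal in `(N, h u - N)`: `u = l2 ++ R ++ l3.reverse` with `l2, l3` in `FP N`.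
* `trI` : case I, `u = s2 ++ [G] ++ s3.reverse` with `h s2, h s3 < N` (so `ht G ≥ 2 ^ (j-1)`).
* `mq σ j k`: the pieces `l1, s2, G, s3, t` of case I, heights of `l1` and `u` at distance `≤ 2 ^ (k+1)`. Case I is at most `C 2 ^ i ∑_(k = i .. j+1) θ ^ k mq σ j k`.
* `mA`, `mB`: for `k + 4 ≤ j` also `l1 = s1 ++ [G1]` with `ht G1 ≥ 2 ^ (j-1)`; classes `a` of `s1`, `b` of `s2`, `g` of `s3`. `mA` (`s1` not higher than the class `b` of `s2`): `G1` strong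
  at the upper fold (`ll`), `G` strong at the lower fold. `mB` (`b < a`): `G` strong at both folds.
-/

namespace Pool.Agent.HEP

open scoped ENNReal
open Finset

namespace Sys

variable (S : Sys)

/-- Regularity of order 1/4, dyadic form. -/
structure Rq (κ θ : ℝ≥0∞) : Prop where
  th : θ ^ 4 = 2⁻¹
  k1 : 1 ≤ κ
  kt : κ ≠ ⊤
  anti : Antitone S.b
  U_le : ∀ k, S.U (2 ^ k) * θ ^ (3 * k) ≤ κ
  U_ge : ∀ k, 1 ≤ κ * (S.U (2 ^ k) * θ ^ (3 * k))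
  b_le : ∀ k, S.b (2 ^ k) ≤ κ * θ ^ k
  Lam_le : ∀ k, S.Lam (2 ^ k - 1) ≤ κ * θ ^ (3 * k)

/-- The leg `L` is one-sided at every proper renewal of the stopped word `l`. -/
def gf (σ : Bool) (L l : List S.B) : Prop := ∀ l' c', l = l' ++ [c'] → S.gp σ L l'

/-- The strong fold, giant leg one-sided. -/
noncomputable def sf1 (σ : Bool) (i g m : ℕ) : ℝ≥0∞ :=
  ∑' l, ∑' s, ∑' c, ind (S.av σ l (s ++ [c]) ∧ S.gf (!σ) (s ++ [c]) l ∧ Nat.size (S.h s) = g ∧ 2 ^ m ≤ S.ht c) *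
    (S.rg i l * (S.w s * S.wt c))

/-- The strong fold, all the avoiding pairs, near parts of height `≤ i`. -/
noncomputable def lf (σ : Bool) (i m : ℕ) : ℝ≥0∞ :=
  ∑' l, ∑' s, ∑' c, ind (S.av σ l (s ++ [c]) ∧ S.h s ≤ i ∧ 2 ^ m ≤ S.ht c) * (S.rg i l * (S.w s * S.wt c))

/-- The fold estimates at the zones `2 ^ n - 1`, `n ≤ J`. -/
structure Fz (K θ τ : ℝ≥0∞) (J : ℕ) : Prop where
  one : 1 ≤ K
  full : ∀ n ≤ J, S.fa (2 ^ n - 1) ≤ K * θ ^ (3 * n)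
  str : ∀ σ n g m, n ≤ J → g ≤ n → n ≤ m → S.sf1 σ (2 ^ n - 1) g m ≤ K * θ ^ (3 * n) * τ ^ (2 * (m - g))
  lng : ∀ σ n m, n ≤ J → n ≤ m → S.lf σ (2 ^ n - 1) m ≤ K * θ ^ (3 * n) * τ ^ (2 * (m - n))

/-- Free leg against a word of class `g`. -/
noncomputable def wk (σ : Bool) (n g : ℕ) : ℝ≥0∞ :=
  ∑' l, ∑' s, ind (S.av σ l s ∧ S.FP (2 ^ n / 2) l ∧ Nat.size (S.h s) = g) * (S.w l * S.w s)

/-- Free leg against a word of class `g` followed by the block `c`. -/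
noncomputable def ap (σ : Bool) (n g : ℕ) (c : S.B) : ℝ≥0∞ :=
  ∑' l, ∑' s, ind (S.av σ l (s ++ [c]) ∧ S.gf (!σ) (s ++ [c]) l ∧ S.FP (2 ^ n / 2) l ∧ Nat.size (S.h s) = g) *
    (S.w l * S.w s)

/-- The strong fold. -/
noncomputable def st (σ : Bool) (n g m : ℕ) : ℝ≥0∞ :=
  ∑' c, ind (2 ^ m ≤ S.ht c) * (S.wt c * S.ap σ n g c)

/-- The strong fold, all the avoiding pairs, near parts of height `< 2 ^ n`. -/
noncomputable def ll (σ : Bool) (n m : ℕ) : ℝ≥0∞ :=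
  ∑' l, ∑' s, ∑' c, ind (S.av σ l (s ++ [c]) ∧ S.FP (2 ^ n / 2) l ∧ S.h s < 2 ^ n ∧ 2 ^ m ≤ S.ht c) *
    (S.w l * (S.w s * S.wt c))

/-- The leg `L` is one-sided at every renewal of `v` below the end of `L`. -/
def on1 (σ : Bool) (L v : List S.B) : Prop := ∀ v' r, v = v' ++ r → S.h v' + 1 ≤ S.h L → S.os σ 1 L v'

/-- The triples. -/
noncomputable def tp (σ : Bool) (i j : ℕ) : ℝ≥0∞ :=
  ∑' v, ∑' u, ∑' t, ind (S.av σ u v ∧ S.av σ t u.reverse ∧ S.on1 σ u v ∧ S.on1 (!σ) u.reverse t ∧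
    2 ^ j ≤ S.h v ∧ S.h v < 2 ^ (j + 1) ∧ S.h v ≤ S.h u + 2 ^ i ∧ S.h u ≤ S.h v + 2 ^ i ∧ S.FP (2 ^ (j - 3)) t) *
    (S.w v * S.w u * S.w t)

/-- Case R: first renewals `≥ 2 ^ (j-3)` of the four legs, then the two middle words. -/
noncomputable def trR (σ : Bool) (i j : ℕ) : ℝ≥0∞ :=
  ∑' l1, ∑' l2, ∑' l3, ∑' t, ind (S.av σ l2 l1 ∧ S.av σ t l3 ∧ S.FP (2 ^ (j - 3)) l1 ∧ S.FP (2 ^ (j - 3)) l2 ∧
    S.FP (2 ^ (j - 3)) l3 ∧ S.FP (2 ^ (j - 3)) t) * (S.w l1 * S.w l2 * S.w l3 * S.w t) *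
    ∑' R1, ∑' R, ind (S.h l1 + S.h R1 < 2 ^ (j + 1) ∧ S.h l1 + S.h R1 ≤ S.h l2 + S.h R + S.h l3 + 2 ^ i ∧
      S.h l2 + S.h R + S.h l3 ≤ S.h l1 + S.h R1 + 2 ^ i) * (S.w R1 * S.w R)

/-- The conditions of the folds in case I. `s3` is read from the lower turning point. -/
def qI (σ : Bool) (j : ℕ) (l1 s2 : List S.B) (G : S.B) (s3 t : List S.B) : Prop :=
  S.av σ (s2 ++ [G]) l1 ∧ S.gf σ (s2 ++ [G]) l1 ∧ S.av σ t (s3 ++ [G]) ∧ S.gf (!σ) (s3 ++ [G]) t ∧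
    S.FP (2 ^ (j - 3)) l1 ∧ S.FP (2 ^ (j - 3)) t ∧ S.h s2 < 2 ^ (j - 3) ∧ S.h s3 < 2 ^ (j - 3)

/-- Case I. -/
noncomputable def trI (σ : Bool) (i j : ℕ) : ℝ≥0∞ :=
  ∑' l1, ∑' s2, ∑' G, ∑' s3, ∑' t, ∑' R1, ind (S.qI σ j l1 s2 G s3 t ∧ 2 ^ j ≤ S.h l1 + S.h R1 ∧
    S.h l1 + S.h R1 < 2 ^ (j + 1) ∧ S.h l1 + S.h R1 ≤ S.h s2 + S.ht G + S.h s3 + 2 ^ i ∧
    S.h s2 + S.ht G + S.h s3 ≤ S.h l1 + S.h R1 + 2 ^ i) * (S.w l1 * S.w s2 * S.wt G * S.w s3 * S.w t * S.w R1)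

/-- The pieces of case I, the heights of `l1` and of the strand at distance `≤ 2 ^ (k+1)`. -/
noncomputable def mq (σ : Bool) (j k : ℕ) : ℝ≥0∞ :=
  ∑' l1, ∑' s2, ∑' G, ∑' s3, ∑' t, ind (S.qI σ j l1 s2 G s3 t ∧ 3 * 2 ^ (j - 2) ≤ S.h s2 + S.ht G + S.h s3 ∧
    S.h l1 ≤ S.h s2 + S.ht G + S.h s3 + 2 ^ (k + 1) ∧ S.h s2 + S.ht G + S.h s3 ≤ S.h l1 + 2 ^ (k + 1)) *
    (S.w l1 * S.w s2 * S.wt G * S.w s3 * S.w t)

/-- Case I, `l1 = s1 ++ [G1]`, class `b` of `s2`, `h s1 < 2 ^ b`. -/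
noncomputable def mA (σ : Bool) (j k b : ℕ) : ℝ≥0∞ :=
  ∑' s1, ∑' G1, ∑' s2, ∑' G, ∑' s3, ∑' t, ind (S.av σ s2 (s1 ++ [G1]) ∧ S.av σ t (s3 ++ [G]) ∧
    S.gf (!σ) (s3 ++ [G]) t ∧ S.h s1 < 2 ^ b ∧ Nat.size (S.h s2) = b ∧ S.h s3 < 2 ^ (j - 3) ∧ S.FP (2 ^ (j - 3)) t ∧
    2 ^ (j - 1) ≤ S.ht G1 ∧ 2 ^ (j - 1) ≤ S.ht G ∧
    S.h s1 + S.ht G1 ≤ S.h s2 + S.ht G + S.h s3 + 2 ^ (k + 1) ∧ S.h s2 + S.ht G + S.h s3 ≤ S.h s1 + S.ht G1 + 2 ^ (k + 1)) *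
    (S.w s1 * S.wt G1 * S.w s2 * S.wt G * S.w s3 * S.w t)

/-- Case I, `l1 = s1 ++ [G1]`, classes `b < a` of `s2`, `s1`. -/
noncomputable def mB (σ : Bool) (j k a b g : ℕ) : ℝ≥0∞ :=
  ∑' s1, ∑' G1, ∑' s2, ∑' G, ∑' s3, ∑' t, ind (S.gp σ (s2 ++ [G]) s1 ∧ S.av σ t (s3 ++ [G]) ∧
    S.gf (!σ) (s3 ++ [G]) t ∧ Nat.size (S.h s1) = a ∧ Nat.size (S.h s2) = b ∧ Nat.size (S.h s3) = g ∧
    S.FP (2 ^ (j - 3)) t ∧ 2 ^ (j - 1) ≤ S.ht G1 ∧ 2 ^ (j - 1) ≤ S.ht G ∧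
    S.h s1 + S.ht G1 ≤ S.h s2 + S.ht G + S.h s3 + 2 ^ (k + 1) ∧ S.h s2 + S.ht G + S.h s3 ≤ S.h s1 + S.ht G1 + 2 ^ (k + 1)) *
    (S.w s1 * S.wt G1 * S.w s2 * S.wt G * S.w s3 * S.w t)

variable {S}

lemma av_not (σ : Bool) (l s : List S.B) : S.av (!σ) l s ↔ S.av σ s l := by
  cases σ <;> rfl

/-- The short leg may be shortened. -/
lemma gp.pre {σ : Bool} {L s s' : List S.B} (h : S.gp σ L (s ++ s')) : S.gp σ L s := by
  obtain ⟨h1, h2, h3⟩ := h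
  refine ⟨?_, ?_, fun x r e => h3 x (r ++ s') (by rw [e, List.append_assoc])⟩
  · exact S.av_pre (l' := []) (by rwa [List.append_nil])
  · rw [S.h_append] at h2
    omega

lemma Fz.mono {K θ τ : ℝ≥0∞} {J J' : ℕ} (h : S.Fz K θ τ J) (hJ : J' ≤ J) : S.Fz K θ τ J' :=
  ⟨h.one, fun n hn => h.full n (hn.trans hJ), fun σ n g m hn => h.str σ n g m (hn.trans hJ),
    fun σ n m hn => h.lng σ n m (hn.trans hJ)⟩

lemma Rq.th_lt {κ θ : ℝ≥0∞} (h : S.Rq κ θ) : θ < 1 := by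
  by_contra h1
  have h2 : (1 : ℝ≥0∞) ≤ θ ^ 4 := one_le_pow₀ (not_lt.1 h1)
  rw [h.th] at h2
  exact absurd h2 (by norm_num)

lemma Rq.th_ne_zero {κ θ : ℝ≥0∞} (h : S.Rq κ θ) : θ ≠ 0 := by
  rintro rfl
  have h1 := h.th
  rw [zero_pow (by norm_num)] at h1
  exact absurd h1.symm (by norm_num)

lemma Rq.th_ne_top {κ θ : ℝ≥0∞} (h : S.Rq κ θ) : θ ≠ ⊤ := (h.th_lt.trans_le le_top).ne

end Sys

end Pool.Agent.HEP
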