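import Pool.Agent.PLY.R2.Defs
import Pool.Agent.BEX.Quart

/-!
Project PLY, RETURN ESTIMATE, module Quarter: `Rq` from `Alph.Quarter` (BEX/Quart).

PAPER PROOF. `θ = ENNReal.ofReal (2 ^ (-(1/4) : ℝ))`. `Quarter.U_le`, `Quarter.U_ge`, `Quarter.Lam_le` and `Quarter` itself at `N = 2 ^ k` (`2 ^ k ≤ N + 1 ≤ 2 ^ (k+1)`; for `Lam` at `N = 2 ^ k - 1`, `N + 1 = 2 ^ k`):
`(N+1) ^ (3/4) ≤ 2 2 ^ (3k/4)`, `2 ^ (3k/4) θ ^ (3k) = 1` etc. `κ` = maximum of the four constants (and 1).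
-/

namespace Pool.Agent.HEP

open scoped ENNReal
open Finset

namespace Sys

variable {S : Sys}

private lemma rq_pow (k : ℕ) : ((2 : ℝ) ^ (-(1 / 4) : ℝ)) ^ k = ((2 : ℝ) ^ k) ^ (-(1 / 4) : ℝ) := by
  rw [← Real.rpow_natCast, ← Real.rpow_natCast, ← Real.rpow_mul (by norm_num), ← Real.rpow_mul (by norm_num),
    mul_comm]

private lemma rq_pow3 (k : ℕ) : ((2 : ℝ) ^ (-(1 / 4) : ℝ)) ^ (3 * k) = ((2 : ℝ) ^ k) ^ (-(3 / 4) : ℝ) := by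
  rw [← Real.rpow_natCast, ← Real.rpow_natCast, ← Real.rpow_mul (by norm_num), ← Real.rpow_mul (by norm_num)]
  congr 1
  push_cast
  ring

theorem rq_of_quarter (h : S.toAlph.Quarter) (hb : Antitone S.b) :
    ∃ κ : ℝ≥0∞, S.Rq κ (ENNReal.ofReal ((2 : ℝ) ^ (-(1 / 4) : ℝ))) := by
  obtain ⟨c1, hc1, hUge⟩ := h.U_ge hb
  obtain ⟨C2, hC2, hUle⟩ := h.U_le
  obtain ⟨C3, hC3, hLam⟩ := h.Lam_le hb
  obtain ⟨c, C, hc, hC, hbb⟩ := h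
  set K : ℝ := 1 + 1 / c1 + 2 * C2 + C3 + C with hK
  have hc1' : 0 < 1 / c1 := by positivity
  have hK0 : 0 < K := by positivity
  have hθ : (0 : ℝ) ≤ (2 : ℝ) ^ (-(1 / 4) : ℝ) := by positivity
  refine ⟨ENNReal.ofReal K, ?_, ?_, ENNReal.ofReal_ne_top, hb, fun k => ?_, fun k => ?_, fun k => ?_, fun k => ?_⟩
  · rw [← ENNReal.ofReal_pow hθ, rq_pow]
    have h1 : ((2 : ℝ) ^ 4) ^ (-(1 / 4) : ℝ) = 2⁻¹ := by
      rw [← Real.rpow_natCast, ← Real.rpow_mul (by norm_num)]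
      norm_num
    rw [h1, ENNReal.ofReal_inv_of_pos (by norm_num), ENNReal.ofReal_ofNat]
  · rw [← ENNReal.ofReal_one]
    apply ENNReal.ofReal_le_ofReal
    rw [hK]
    linarith
  · -- upper bound of `U`
    have h0 : (0 : ℝ) < (2 : ℝ) ^ k := by positivity
    have h1k : (1 : ℝ) ≤ (2 : ℝ) ^ k := one_le_pow₀ (by norm_num)
    calc S.U (2 ^ k) * (ENNReal.ofReal ((2 : ℝ) ^ (-(1 / 4) : ℝ))) ^ (3 * k)
        ≤ ENNReal.ofReal (C2 * (((2 ^ k : ℕ) : ℝ) + 1) ^ (3 / 4 : ℝ)) *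
            (ENNReal.ofReal ((2 : ℝ) ^ (-(1 / 4) : ℝ))) ^ (3 * k) := by gcongr; exact hUle _
      _ = ENNReal.ofReal (C2 * (((2 ^ k : ℕ) : ℝ) + 1) ^ (3 / 4 : ℝ) * ((2 : ℝ) ^ k) ^ (-(3 / 4) : ℝ)) := by
          rw [← ENNReal.ofReal_pow hθ, rq_pow3, ← ENNReal.ofReal_mul (by positivity)]
      _ ≤ ENNReal.ofReal K := by
          apply ENNReal.ofReal_le_ofReal
          have e1 : (((2 ^ k : ℕ) : ℝ) + 1) ^ (3 / 4 : ℝ) ≤ 2 * ((2 : ℝ) ^ k) ^ (3 / 4 : ℝ) := by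
            push_cast
            calc ((2 : ℝ) ^ k + 1) ^ (3 / 4 : ℝ) ≤ (2 * (2 : ℝ) ^ k) ^ (3 / 4 : ℝ) :=
                  Real.rpow_le_rpow (by positivity) (by linarith) (by norm_num)
              _ = 2 ^ (3 / 4 : ℝ) * ((2 : ℝ) ^ k) ^ (3 / 4 : ℝ) := Real.mul_rpow (by norm_num) h0.le
              _ ≤ 2 * ((2 : ℝ) ^ k) ^ (3 / 4 : ℝ) := by
                  gcongr
                  calc (2 : ℝ) ^ (3 / 4 : ℝ) ≤ 2 ^ (1 : ℝ) :=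
                        Real.rpow_le_rpow_of_exponent_le (by norm_num) (by norm_num)
                    _ = 2 := Real.rpow_one 2
          have e2 : ((2 : ℝ) ^ k) ^ (3 / 4 : ℝ) * ((2 : ℝ) ^ k) ^ (-(3 / 4) : ℝ) = 1 := by
            rw [← Real.rpow_add h0]; norm_num
          calc C2 * (((2 ^ k : ℕ) : ℝ) + 1) ^ (3 / 4 : ℝ) * ((2 : ℝ) ^ k) ^ (-(3 / 4) : ℝ)
              ≤ C2 * (2 * ((2 : ℝ) ^ k) ^ (3 / 4 : ℝ)) * ((2 : ℝ) ^ k) ^ (-(3 / 4) : ℝ) := by gcongr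
            _ = 2 * C2 * (((2 : ℝ) ^ k) ^ (3 / 4 : ℝ) * ((2 : ℝ) ^ k) ^ (-(3 / 4) : ℝ)) := by ring
            _ = 2 * C2 := by rw [e2, mul_one]
            _ ≤ K := by rw [hK]; linarith
  · -- lower bound of `U`
    have h0 : (0 : ℝ) < (2 : ℝ) ^ k := by positivity
    have e2 : ((2 : ℝ) ^ k) ^ (3 / 4 : ℝ) * ((2 : ℝ) ^ k) ^ (-(3 / 4) : ℝ) = 1 := by
      rw [← Real.rpow_add h0]; norm_num
    calc (1 : ℝ≥0∞) = ENNReal.ofReal 1 := ENNReal.ofReal_one.symm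
      _ ≤ ENNReal.ofReal (K * (c1 * (((2 ^ k : ℕ) : ℝ) + 1) ^ (3 / 4 : ℝ) * ((2 : ℝ) ^ k) ^ (-(3 / 4) : ℝ))) := by
          apply ENNReal.ofReal_le_ofReal
          have e3 : ((2 : ℝ) ^ k) ^ (3 / 4 : ℝ) ≤ (((2 ^ k : ℕ) : ℝ) + 1) ^ (3 / 4 : ℝ) := by
            refine Real.rpow_le_rpow (by positivity) ?_ (by norm_num)
            push_cast
            linarith
          calc (1 : ℝ) = 1 / c1 * c1 * 1 := by field_simp
            _ ≤ K * c1 * 1 := by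
                gcongr
                rw [hK]; linarith
            _ = K * c1 * (((2 : ℝ) ^ k) ^ (3 / 4 : ℝ) * ((2 : ℝ) ^ k) ^ (-(3 / 4) : ℝ)) := by rw [e2]
            _ ≤ K * c1 * ((((2 ^ k : ℕ) : ℝ) + 1) ^ (3 / 4 : ℝ) * ((2 : ℝ) ^ k) ^ (-(3 / 4) : ℝ)) := by gcongr
            _ = _ := by ring
      _ = ENNReal.ofReal K * (ENNReal.ofReal (c1 * (((2 ^ k : ℕ) : ℝ) + 1) ^ (3 / 4 : ℝ)) *
            (ENNReal.ofReal ((2 : ℝ) ^ (-(1 / 4) : ℝ))) ^ (3 * k)) := by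
          rw [← ENNReal.ofReal_pow hθ, rq_pow3, ← ENNReal.ofReal_mul (by positivity), ← ENNReal.ofReal_mul hK0.le]
      _ ≤ _ := by gcongr; exact hUge _
  · -- upper bound of `b`
    have h0 : (0 : ℝ) < (2 : ℝ) ^ k := by positivity
    calc S.b (2 ^ k) ≤ ENNReal.ofReal (C * (((2 ^ k : ℕ) : ℝ) + 1) ^ (-(1 / 4) : ℝ)) := (hbb _).2
      _ ≤ ENNReal.ofReal (K * ((2 : ℝ) ^ k) ^ (-(1 / 4) : ℝ)) := by
          apply ENNReal.ofReal_le_ofReal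
          have e3 : (((2 ^ k : ℕ) : ℝ) + 1) ^ (-(1 / 4) : ℝ) ≤ ((2 : ℝ) ^ k) ^ (-(1 / 4) : ℝ) := by
            refine Real.rpow_le_rpow_of_nonpos h0 ?_ (by norm_num)
            push_cast
            linarith
          have e4 : C ≤ K := by rw [hK]; linarith
          gcongr
      _ = _ := by rw [← ENNReal.ofReal_pow hθ, rq_pow, ENNReal.ofReal_mul hK0.le]
  · -- upper bound of `Lam`
    have h0 : (0 : ℝ) < (2 : ℝ) ^ k := by positivity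
    have e0 : (((2 ^ k - 1 : ℕ) : ℝ) + 1) = (2 : ℝ) ^ k := by
      rw [Nat.cast_sub Nat.one_le_two_pow]
      push_cast
      ring
    calc S.Lam (2 ^ k - 1) ≤ ENNReal.ofReal (C3 * (((2 ^ k - 1 : ℕ) : ℝ) + 1) ^ (-(3 / 4) : ℝ)) := hLam _
      _ ≤ ENNReal.ofReal (K * ((2 : ℝ) ^ k) ^ (-(3 / 4) : ℝ)) := by
          apply ENNReal.ofReal_le_ofReal
          rw [e0]
          have e4 : C3 ≤ K := by rw [hK]; linarith
          gcongr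
      _ = _ := by rw [← ENNReal.ofReal_pow hθ, rq_pow3, ENNReal.ofReal_mul hK0.le]

end Sys

end Pool.Agent.HEP
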