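import Pool.Agent.PLY.R2.Defs
import Pool.Agent.PLF.Pre

/-!
Project PLY, RETURN ESTIMATE, module FromR3: the triples of PLY/T2/Defs (`R3`) and the triples `tp` of the dyadic scales.

PAPER PROOF. `on1_a`, `on1_b`: `Gyp.pl1`, `Gyp.pl2` (`p2` is the shorter leg at both folds). E.g. `σ = true`, fold `a`: `Av p2 (v' ++ r)`, `h p2 ≤ h (v' ++ r)`, `h v' + 1 ≤ h p2`: `pl1`. `σ = false`, fold `a`: `Av (v' ++ r) p2`,
`h p2 < h (v' ++ r)`, `h v' ≤ h p2`: `pl2`. Fold `b` with `!σ` (`av_not`), for a first part `t` of `p3 = t ++ r`.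
`R3_le`: in `R3 σ (2 ^ j) (2 ^ n)` let `m = Nat.log 2 (h p1)`, `n ≤ m`, `2 ^ m ≤ h p1 < 2 ^ (m+1)`; put `v = p1.reverse` (`Ch.tsum_reverse`), `u = p2`. `h p1 ≤ h p2 + 2 2 ^ j + 1 ≤ h p2 + 2 ^ (j+2)`, `h p2 ≤ h p1`. For `z = 2 ^ (m-3)`
one has `z ≤ h p2` (`h p2 ≥ 2 ^ m - 2 ^ (m-2)`, as `j + 2 ≤ m - 2`), and the conditions on `p3` (`av σ p3 u.reverse`, `on1 (!σ) u.reverse ..`) are inherited by `pre z p3` (`pre_spec`):
`∑' p3, ind (FP k p3) * (F (pre z p3) * w p3) = ∑' t, ind (FP z t) * (F t * w t)` (`tsum_pre`) for `k = h p2` and `k = h p2 + 1`: factor 2.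
-/

namespace Pool.Agent.HEP

open scoped ENNReal
open Finset

namespace Sys

variable {S : Sys}

theorem on1_a {KG : ℕ} (hG : S.Gyp KG) {σ : Bool} {u v : List S.B} (h1 : S.av σ u v) (h2 : S.h u + d (!σ) ≤ S.h v) :
    S.on1 σ u v := by
  intro v' r e h3
  cases σ
  · have h2' : S.h u + 1 ≤ S.h v := h2
    rw [e] at h1 h2'
    exact hG.pl2 u v' r h1 (by omega) (by omega)
  · have h2' : S.h u + 0 ≤ S.h v := h2
    rw [e] at h1 h2'
    exact hG.pl1 u v' r h1 (by omega) h3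

theorem on1_b {KG : ℕ} (hG : S.Gyp KG) {σ : Bool} {u t r : List S.B} (h1 : S.av σ (t ++ r) u)
    (h2 : S.h u + d σ ≤ S.h (t ++ r)) : S.on1 (!σ) u t := by
  have h3 := S.on1_a hG (σ := !σ) (u := u) (v := t ++ r) (by rw [av_not]; exact h1)
    (by rw [Bool.not_not]; exact h2)
  intro v' r' e h4
  exact h3 v' (r' ++ r) (by rw [e, List.append_assoc]) h4

private theorem FR_rev {β : Type} (G : List β → ℝ≥0∞) : ∑' l, G l = ∑' l : List β, G l.reverse :=
  ((⟨List.reverse, List.reverse, List.reverse_reverse, List.reverse_reverse⟩ :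
    List β ≃ List β).tsum_eq G).symm

/-- The conditions of the triples. -/
private def FR_c (S : Sys) (σ : Bool) (i m : ℕ) (v u t : List S.B) : Prop :=
  S.av σ u v ∧ S.av σ t u.reverse ∧ S.on1 σ u v ∧ S.on1 (!σ) u.reverse t ∧
    2 ^ m ≤ S.h v ∧ S.h v < 2 ^ (m + 1) ∧ S.h v ≤ S.h u + 2 ^ i ∧ S.h u ≤ S.h v + 2 ^ i ∧
    S.FP (2 ^ (m - 3)) t

private theorem FR_pt {KG : ℕ} (hG : S.Gyp KG) (σ : Bool) {j n : ℕ} (hj : j + 4 ≤ n) (v u : List S.B) :
    ∑' p3, ind (S.av σ u v.reverse.reverse ∧ S.av σ p3 u.reverse ∧ 2 ^ n ≤ S.h v.reverse ∧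
      S.h v.reverse ≤ S.h u + 2 * 2 ^ j + 1 ∧ S.h u + d (!σ) ≤ S.h v.reverse ∧ S.h u + d σ ≤ S.h p3 ∧
      (S.FP (S.h u) p3 ∨ S.FP (S.h u + 1) p3)) * (S.w v.reverse * (S.w u * S.w p3)) ≤
    2 * ∑' m, ind (n ≤ m) * ∑' t, ind (FR_c S σ (j + 2) m v u t) * (S.w v * S.w u * S.w t) := by
  rw [List.reverse_reverse, S.h_reverse, S.w_reverse]
  by_cases hA : S.av σ u v ∧ 2 ^ n ≤ S.h v ∧ S.h v ≤ S.h u + 2 * 2 ^ j + 1 ∧ S.h u + d (!σ) ≤ S.h v
  · obtain ⟨a1, a2, a3, a4⟩ := hA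
    have hv0 : S.h v ≠ 0 := by have := Nat.one_le_two_pow (n := n); omega
    set m := Nat.log 2 (S.h v) with hm
    have m1 : 2 ^ m ≤ S.h v := Nat.pow_log_le_self 2 hv0
    have m2 : S.h v < 2 ^ (m + 1) := Nat.lt_pow_succ_log_self (by norm_num) _
    have m3 : n ≤ m := (Nat.le_log_iff_pow_le (by norm_num) hv0).2 a2
    have hz : 2 ^ (m - 3) ≤ S.h u := by
      have e1 : 2 ^ m = 4 * 2 ^ (m - 2) := by
        rw [show m = (m - 2) + 2 by omega, pow_add]; simp; ring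
      have e2 : 2 ^ (m - 2) = 2 * 2 ^ (m - 3) := by
        rw [show m - 2 = (m - 3) + 1 by omega, pow_succ]; ring
      have e3 : 2 ^ (j + 2) ≤ 2 ^ (m - 2) := Nat.pow_le_pow_right (by norm_num) (by omega)
      have e4 : 2 ^ (j + 2) = 4 * 2 ^ j := by ring
      have e5 := Nat.one_le_two_pow (n := j)
      omega
    set z := 2 ^ (m - 3) with hzd
    have hj2 : 2 * 2 ^ j + 1 ≤ 2 ^ (j + 2) := by
      have e4 : 2 ^ (j + 2) = 4 * 2 ^ j := by ring
      have e5 := Nat.one_le_two_pow (n := j)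
      omega
    set F : List S.B → ℝ≥0∞ := fun t => ind (S.av σ t u.reverse ∧ S.on1 (!σ) u.reverse t) with hF
    have hp : ∀ p3, ind (S.av σ u v ∧ S.av σ p3 u.reverse ∧ 2 ^ n ≤ S.h v ∧
        S.h v ≤ S.h u + 2 * 2 ^ j + 1 ∧ S.h u + d (!σ) ≤ S.h v ∧ S.h u + d σ ≤ S.h p3 ∧
        (S.FP (S.h u) p3 ∨ S.FP (S.h u + 1) p3)) * (S.w v * (S.w u * S.w p3)) ≤
        S.w v * S.w u * (ind (S.FP (S.h u) p3) * (F (S.pre z p3) * S.w p3) +
          ind (S.FP (S.h u + 1) p3) * (F (S.pre z p3) * S.w p3)) := by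
      intro p3
      by_cases hc : S.av σ p3 u.reverse ∧ S.h u + d σ ≤ S.h p3 ∧
        (S.FP (S.h u) p3 ∨ S.FP (S.h u + 1) p3)
      · obtain ⟨c1, c2, c3⟩ := hc
        obtain ⟨-, r, hr⟩ := S.pre_spec (k := z) (X := p3) (by omega)
        have hFp : F (S.pre z p3) = 1 := by
          rw [hF]
          refine ind_true ⟨?_, ?_⟩
          · refine S.av_pre (l' := r) (s' := []) ?_
            rw [← hr, List.append_nil]
            exact c1
          · refine S.on1_b hG (r := r) ?_ ?_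
            · rw [← hr]; exact c1
            · rw [← hr, S.h_reverse]; exact c2
        rw [hFp, one_mul, ← add_mul]
        calc _ ≤ (ind (S.FP (S.h u) p3) + ind (S.FP (S.h u + 1) p3)) * (S.w v * (S.w u * S.w p3)) := by
              refine mul_le_mul' ?_ le_rfl
              exact (ind_mono fun h => h.2.2.2.2.2.2).trans (ind_or_le _ _)
          _ = _ := by ring
      · rw [ind_false (fun h => hc ⟨h.2.1, h.2.2.2.2.2.1, h.2.2.2.2.2.2⟩), zero_mul]
        exact zero_le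
    refine (ENNReal.tsum_le_tsum hp).trans ?_
    rw [ENNReal.tsum_mul_left, ENNReal.tsum_add, S.tsum_pre hz F, S.tsum_pre (by omega) F]
    have hlast : ∑' t, ind (S.FP z t) * (F t * S.w t) * (S.w v * S.w u) ≤
        ∑' m', ind (n ≤ m') * ∑' t, ind (FR_c S σ (j + 2) m' v u t) * (S.w v * S.w u * S.w t) := by
      refine le_trans ?_ (ENNReal.le_tsum m)
      rw [ind_true m3, one_mul]
      refine ENNReal.tsum_le_tsum fun t => ?_
      by_cases ht : S.FP z t ∧ S.av σ t u.reverse ∧ S.on1 (!σ) u.reverse t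
      · rw [ind_true (show FR_c S σ (j + 2) m v u t from
          ⟨a1, ht.2.1, S.on1_a hG a1 a4, ht.2.2, m1, m2, by omega, by omega, ht.1⟩), one_mul]
        calc ind (S.FP z t) * (F t * S.w t) * (S.w v * S.w u)
            ≤ 1 * (1 * S.w t) * (S.w v * S.w u) := by
              gcongr
              · exact ind_le_one _
              · exact ind_le_one _
          _ = S.w v * S.w u * S.w t := by ring
      · have : ind (S.FP z t) * (F t * S.w t) = 0 := by
          by_cases h1 : S.FP z t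
          · rw [hF]
            simp only
            rw [ind_false (fun h => ht ⟨h1, h⟩), zero_mul, mul_zero]
          · rw [ind_false h1, zero_mul]
        rw [this, zero_mul]
        exact zero_le
    rw [ENNReal.tsum_mul_right] at hlast
    calc _ = 2 * ((∑' t, ind (S.FP z t) * (F t * S.w t)) * (S.w v * S.w u)) := by ring
      _ ≤ _ := mul_le_mul' le_rfl hlast
  · rw [ENNReal.tsum_eq_zero.2 fun p3 => by
      rw [ind_false (fun h => hA ⟨h.1, h.2.2.1, h.2.2.2.1, h.2.2.2.2.1⟩), zero_mul]]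
    exact zero_le

theorem R3_le {KG : ℕ} (hG : S.Gyp KG) (σ : Bool) {j n : ℕ} (hj : j + 4 ≤ n) :
    S.R3 σ (2 ^ j) (2 ^ n) ≤ 2 * ∑' m, ind (n ≤ m) * S.tp σ (j + 2) m := by
  unfold R3
  rw [FR_rev]
  calc _ ≤ ∑' v, ∑' u, 2 * ∑' m, ind (n ≤ m) * ∑' t, ind (FR_c S σ (j + 2) m v u t) *
        (S.w v * S.w u * S.w t) :=
        ENNReal.tsum_le_tsum fun v => ENNReal.tsum_le_tsum fun u => FR_pt hG σ hj v u
    _ = 2 * ∑' m, ind (n ≤ m) * S.tp σ (j + 2) m := by
        have e1 : ∀ v : List S.B, ∑' u, 2 * ∑' m, ind (n ≤ m) * ∑' t,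
            ind (FR_c S σ (j + 2) m v u t) * (S.w v * S.w u * S.w t) =
            2 * ∑' m, ind (n ≤ m) * ∑' u, ∑' t, ind (FR_c S σ (j + 2) m v u t) *
              (S.w v * S.w u * S.w t) := by
          intro v
          rw [ENNReal.tsum_mul_left, ENNReal.tsum_comm]
          congr 1
          exact tsum_congr fun m => ENNReal.tsum_mul_left
        rw [tsum_congr e1, ENNReal.tsum_mul_left, ENNReal.tsum_comm]
        congr 1
        refine tsum_congr fun m => ?_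
        rw [ENNReal.tsum_mul_left]
        rfl

end Sys

end Pool.Agent.HEP
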