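import Pool.Agent.PLY.R2.TpMain
import Pool.Agent.PLY.R2.FromR3

/-!
Project PLY, RETURN ESTIMATE, module RetMain: THEOREM B, the contract `Ret3` of PLY/T2/Defs.

PAPER PROOF. `R3_le`, `tp_le` (`i = j + 2`, `K = C X t ^ (m-3)`): `R3 σ (2 ^ j) (2 ^ n) ≤ 2 ∑_(m ≥ n) C' (C X t ^ m)² (θ ^ 3 τ) ^ (m-(j+2))`. With `m = n + p`: `t ^ (2m) (θ ^ 3 τ) ^ (m-(j+2)) = t ^ (2n) (θ ^ 3 τ) ^ (n-(j+2)) (t ^ 2 θ ^ 3 τ) ^ p`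
and `t ^ 2 τ ≤ t0 ^ 2 τ ≤ 1`, so the sum is at most `C'' X² t ^ (2n) (θ ^ 3 τ) ^ (n-j)` (`C''` contains `(1 - θ ^ 3)⁻¹` and `(θ ^ 3 τ)⁻¹ ^ 2`). `U (2 ^ n) θ ^ (3(n-j)) ≤ κ² U (2 ^ j)`: `U (2 ^ n) θ ^ (3n) ≤ κ ≤ κ² U (2 ^ j) θ ^ (3j)`
(`Rq.U_le`, `Rq.U_ge`), cancel `θ ^ (3j)`.
-/

namespace Pool.Agent.HEP

open scoped ENNReal
open Finset

namespace Sys

variable {S : Sys}

private theorem retMain_shift (n : ℕ) (f : ℕ → ℝ≥0∞) :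
    ∑' m, ind (n ≤ m) * f m = ∑' p, f (p + n) := by
  rw [← Summable.sum_add_tsum_nat_add' (k := n) ENNReal.summable]
  have h1 : ∑ i ∈ range n, ind (n ≤ i) * f i = 0 := by
    refine sum_eq_zero fun i hi => ?_
    rw [ind_false (by rw [mem_range] at hi; omega), zero_mul]
  rw [h1, zero_add]
  refine tsum_congr fun p => ?_
  rw [ind_true (by omega), one_mul]

private theorem retMain_U {κ θ : ℝ≥0∞} (hq : S.Rq κ θ) {j n : ℕ} (hjn : j ≤ n) :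
    S.U (2 ^ n) * θ ^ (3 * (n - j)) ≤ κ ^ 2 * S.U (2 ^ j) := by
  have h0 : θ ^ (3 * j) ≠ 0 := pow_ne_zero _ hq.th_ne_zero
  have ht : θ ^ (3 * j) ≠ ⊤ := ENNReal.pow_ne_top hq.th_ne_top
  rw [← ENNReal.mul_le_mul_iff_left h0 ht]
  calc S.U (2 ^ n) * θ ^ (3 * (n - j)) * θ ^ (3 * j) = S.U (2 ^ n) * θ ^ (3 * n) := by
        rw [mul_assoc, ← pow_add]
        congr 2
        omega
    _ ≤ κ := hq.U_le n
    _ = κ * 1 := (mul_one _).symm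
    _ ≤ κ * (κ * (S.U (2 ^ j) * θ ^ (3 * j))) := by gcongr; exact hq.U_ge j
    _ = κ ^ 2 * S.U (2 ^ j) * θ ^ (3 * j) := by ring

/-- **THEOREM B.** The return estimate. -/
theorem ret3 {KG : ℕ} (hG : S.Gyp KG) {κ θ τ κ' C t0 : ℝ≥0∞} (hq : S.Rq κ θ) (h1 : θ < τ) (h2 : τ < 1) (hC : C ≠ ⊤)
    (ht : t0 ^ 2 * τ ≤ 1)
    (H : ∀ X t : ℝ≥0∞, 1 ≤ X → X ≠ ⊤ → 1 ≤ t → t ≤ t0 → S.TB κ' X t → ∀ J, S.Fz (C * X * t ^ J) θ τ J) :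
    ∃ K : ℝ≥0∞, K ≠ ⊤ ∧ S.Ret3 K κ' τ t0 := by
  obtain ⟨A, hA, hAle⟩ := tp_le hG hq h1 h2
  have hθ0 := hq.th_ne_zero
  have hθ1 := hq.th_lt
  have hθt := hq.th_ne_top
  have hτ0 : τ ≠ 0 := (lt_of_le_of_lt zero_le h1).ne'
  have hτt : τ ≠ ⊤ := (h2.trans ENNReal.one_lt_top).ne
  have hρ0 : θ ^ 3 * τ ≠ 0 := mul_ne_zero (pow_ne_zero 3 hθ0) hτ0
  have hρt : θ ^ 3 * τ ≠ ⊤ := ENNReal.mul_ne_top (ENNReal.pow_ne_top hθt) hτt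
  have hG1 : θ ^ 3 < 1 := pow_lt_one₀ zero_le hθ1 (by norm_num)
  have hG2 : (1 - θ ^ 3)⁻¹ ≠ ⊤ := ENNReal.inv_ne_top.2 (tsub_pos_of_lt hG1).ne'
  have hρ2 : (θ ^ 3 * τ) ^ 2 ≠ 0 := pow_ne_zero 2 hρ0
  have hρ2t : (θ ^ 3 * τ) ^ 2 ≠ ⊤ := ENNReal.pow_ne_top hρt
  refine ⟨2 * A * C ^ 2 * (1 - θ ^ 3)⁻¹ * ((θ ^ 3 * τ) ^ 2)⁻¹ * κ ^ 2, ?_, ?_⟩
  · exact ENNReal.mul_ne_top (ENNReal.mul_ne_top (ENNReal.mul_ne_top (ENNReal.mul_ne_top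
      (ENNReal.mul_ne_top ENNReal.ofNat_ne_top hA) (ENNReal.pow_ne_top hC)) hG2)
      (ENNReal.inv_ne_top.2 hρ2)) (ENNReal.pow_ne_top hq.kt)
  · intro X t hX hXt ht1 htt hTB σ j n hjn
    have hts : t ^ 2 * (θ ^ 3 * τ) ≤ θ ^ 3 := by
      calc t ^ 2 * (θ ^ 3 * τ) = θ ^ 3 * (t ^ 2 * τ) := by ring
        _ ≤ θ ^ 3 * (t0 ^ 2 * τ) := by gcongr
        _ ≤ θ ^ 3 * 1 := by gcongr
        _ = θ ^ 3 := mul_one _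
    have hterm : ∀ p, S.tp σ (j + 2) (p + n) ≤
        A * (C * X) ^ 2 * t ^ (2 * n) * (θ ^ 3 * τ) ^ (n - (j + 2)) * (θ ^ 3) ^ p := by
      intro p
      have h3 := hAle (C * X * t ^ (p + n - 3)) σ (j + 2) (p + n) (by omega) (by omega)
        (H X t hX hXt ht1 htt hTB _)
      refine h3.trans ?_
      have e : p + n - (j + 2) = (n - (j + 2)) + p := by omega
      calc A * (C * X * t ^ (p + n - 3)) ^ 2 * (θ ^ 3 * τ) ^ (p + n - (j + 2))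
          ≤ A * (C * X * t ^ (p + n)) ^ 2 * (θ ^ 3 * τ) ^ (p + n - (j + 2)) := by
            have := pow_le_pow_right₀ ht1 (show p + n - 3 ≤ p + n by omega)
            gcongr
        _ = A * (C * X) ^ 2 * t ^ (2 * n) * (θ ^ 3 * τ) ^ (n - (j + 2)) *
            (t ^ 2 * (θ ^ 3 * τ)) ^ p := by
            rw [e]
            ring
        _ ≤ _ := by gcongr
    have hR : S.R3 σ (2 ^ j) (2 ^ n) ≤ 2 * (A * (C * X) ^ 2 * t ^ (2 * n) *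
        (θ ^ 3 * τ) ^ (n - (j + 2)) * (1 - θ ^ 3)⁻¹) := by
      refine (R3_le hG σ hjn).trans ?_
      rw [retMain_shift]
      gcongr
      refine (ENNReal.tsum_le_tsum hterm).trans ?_
      rw [ENNReal.tsum_mul_left, ENNReal.tsum_geometric]
    have hρe : (θ ^ 3 * τ) ^ (n - (j + 2)) = ((θ ^ 3 * τ) ^ 2)⁻¹ * (θ ^ 3 * τ) ^ (n - j) := by
      have e : n - j = 2 + (n - (j + 2)) := by omega
      rw [e, pow_add, ← mul_assoc, ENNReal.inv_mul_cancel hρ2 hρ2t, one_mul]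
    calc S.U (2 ^ n) * S.R3 σ (2 ^ j) (2 ^ n)
        ≤ S.U (2 ^ n) * (2 * (A * (C * X) ^ 2 * t ^ (2 * n) *
          (θ ^ 3 * τ) ^ (n - (j + 2)) * (1 - θ ^ 3)⁻¹)) := by gcongr
      _ = 2 * A * C ^ 2 * (1 - θ ^ 3)⁻¹ * ((θ ^ 3 * τ) ^ 2)⁻¹ * X ^ 2 * t ^ (2 * n) *
          τ ^ (n - j) * (S.U (2 ^ n) * θ ^ (3 * (n - j))) := by
          rw [hρe, mul_pow (θ ^ 3) τ (n - j), ← pow_mul]
          ring
      _ ≤ 2 * A * C ^ 2 * (1 - θ ^ 3)⁻¹ * ((θ ^ 3 * τ) ^ 2)⁻¹ * X ^ 2 * t ^ (2 * n) *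
          τ ^ (n - j) * (κ ^ 2 * S.U (2 ^ j)) :=
          mul_le_mul' le_rfl (retMain_U hq (by omega))
      _ = _ := by ring

end Sys

end Pool.Agent.HEP
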