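import Pool.Agent.PLY.R2.Clo3

/-!
Project PLY (MP_8c6f77_pr, honeycomb lattice, polynomial bound), TWO-SIDED PART, ROUTE A: from the bound per class with the (late) rate `ρ` and the
trivial bound with the rate `ρ₂` to the bound of the sum over the classes with the FIXED rate `ρ₂ ^ (3/4)` (interpolation; helper40). So inside the
loop `clo3` the return estimate sees only a rate which does not depend on `ρ`.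
-/

namespace Pool.Agent.HEP

open scoped ENNReal Topology
open Finset Filter


/-- From the classes to their sum, at one pair `(n, m)`. -/
theorem tb_of_mg {ρ ρ₂ K X t u : ℝ≥0∞} {n m : ℕ} {M : ℕ → ℝ≥0∞} (hX : 1 ≤ X) (ht : 1 ≤ t) (hnm : n ≤ m)
    (hρ : ρ < 1) (h0 : ∀ g, g ≤ n → M g ≤ K * ρ₂ ^ (m - n) * u)
    (h1 : ∀ g, g ≤ n → M g ≤ X * t ^ n * ρ ^ (m - g) * u) :
    ∑ g ∈ range (n + 1), M g ≤
      K ^ (3 / 4 : ℝ) * (1 - ρ ^ (1 / 4 : ℝ))⁻¹ * (X * t ^ n * (ρ₂ ^ (3 / 4 : ℝ)) ^ (m - n) * u) := by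
  set r : ℝ≥0∞ := ρ ^ (1 / 4 : ℝ) with hr
  have hr1 : r ≤ 1 := ENNReal.rpow_le_one hρ.le (by norm_num)
  have hterm : ∀ g ∈ range (n + 1), M g ≤
      K ^ (3 / 4 : ℝ) * (X * t ^ n * (ρ₂ ^ (3 / 4 : ℝ)) ^ (m - n) * u) * r ^ (n - g) := by
    intro g hg
    rw [mem_range] at hg
    refine (le_min (h0 g (by omega)) (h1 g (by omega))).trans ((clo_min _ _).trans ?_)
    have e1 : (K * ρ₂ ^ (m - n) * u) ^ (3 / 4 : ℝ) =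
        K ^ (3 / 4 : ℝ) * (ρ₂ ^ (3 / 4 : ℝ)) ^ (m - n) * u ^ (3 / 4 : ℝ) := by
      rw [ENNReal.mul_rpow_of_nonneg _ _ (by norm_num), ENNReal.mul_rpow_of_nonneg _ _ (by norm_num), clo_pow]
    have e2 : (X * t ^ n * ρ ^ (m - g) * u) ^ (1 / 4 : ℝ) =
        (X ^ (1 / 4 : ℝ) * (t ^ n) ^ (1 / 4 : ℝ)) * r ^ (m - g) * u ^ (1 / 4 : ℝ) := by
      rw [ENNReal.mul_rpow_of_nonneg _ _ (by norm_num), ENNReal.mul_rpow_of_nonneg _ _ (by norm_num),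
        ENNReal.mul_rpow_of_nonneg _ _ (by norm_num), clo_pow ρ]
    have e3 : u ^ (3 / 4 : ℝ) * u ^ (1 / 4 : ℝ) = u := by
      rw [← ENNReal.rpow_add_of_nonneg _ _ (by norm_num) (by norm_num)]
      norm_num
    have e4 : X ^ (1 / 4 : ℝ) ≤ X := by
      calc X ^ (1 / 4 : ℝ) ≤ X ^ (1 : ℝ) := ENNReal.rpow_le_rpow_of_exponent_le hX (by norm_num)
        _ = X := ENNReal.rpow_one X
    have e5 : (t ^ n) ^ (1 / 4 : ℝ) ≤ t ^ n := by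
      calc (t ^ n) ^ (1 / 4 : ℝ) ≤ (t ^ n) ^ (1 : ℝ) :=
            ENNReal.rpow_le_rpow_of_exponent_le (one_le_pow_of_one_le' ht n) (by norm_num)
        _ = t ^ n := ENNReal.rpow_one _
    have e6 : r ^ (m - g) ≤ r ^ (n - g) := pow_le_pow_right_of_le_one' hr1 (by omega)
    rw [e1, e2]
    calc K ^ (3 / 4 : ℝ) * (ρ₂ ^ (3 / 4 : ℝ)) ^ (m - n) * u ^ (3 / 4 : ℝ) *
          ((X ^ (1 / 4 : ℝ) * (t ^ n) ^ (1 / 4 : ℝ)) * r ^ (m - g) * u ^ (1 / 4 : ℝ)) =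
          K ^ (3 / 4 : ℝ) * (X ^ (1 / 4 : ℝ) * (t ^ n) ^ (1 / 4 : ℝ) * (ρ₂ ^ (3 / 4 : ℝ)) ^ (m - n) *
            (u ^ (3 / 4 : ℝ) * u ^ (1 / 4 : ℝ))) * r ^ (m - g) := by ring
      _ ≤ K ^ (3 / 4 : ℝ) * (X * t ^ n * (ρ₂ ^ (3 / 4 : ℝ)) ^ (m - n) * u) * r ^ (n - g) := by
          rw [e3]
          exact mul_le_mul' (mul_le_mul' le_rfl (mul_le_mul' (mul_le_mul' (mul_le_mul' e4 e5) le_rfl) le_rfl)) e6
  have hgeo : ∑ g ∈ range (n + 1), r ^ (n - g) ≤ (1 - r)⁻¹ := by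
    rw [← ENNReal.tsum_geometric]
    calc ∑ g ∈ range (n + 1), r ^ (n - g) = ∑ g ∈ range (n + 1), r ^ g := by
          rw [← Finset.sum_range_reflect (fun k => r ^ k) (n + 1)]
          exact Finset.sum_congr rfl fun k _ => by congr 1
      _ ≤ ∑' k, r ^ k := ENNReal.sum_le_tsum _
  calc ∑ g ∈ range (n + 1), M g ≤ ∑ g ∈ range (n + 1),
        K ^ (3 / 4 : ℝ) * (X * t ^ n * (ρ₂ ^ (3 / 4 : ℝ)) ^ (m - n) * u) * r ^ (n - g) := Finset.sum_le_sum hterm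
    _ = K ^ (3 / 4 : ℝ) * (X * t ^ n * (ρ₂ ^ (3 / 4 : ℝ)) ^ (m - n) * u) * ∑ g ∈ range (n + 1), r ^ (n - g) := by
        simp only [← Finset.mul_sum]
    _ ≤ K ^ (3 / 4 : ℝ) * (X * t ^ n * (ρ₂ ^ (3 / 4 : ℝ)) ^ (m - n) * u) * (1 - r)⁻¹ := by gcongr
    _ = K ^ (3 / 4 : ℝ) * (1 - r)⁻¹ * (X * t ^ n * (ρ₂ ^ (3 / 4 : ℝ)) ^ (m - n) * u) := by ring

lemma tb_const {ρ K : ℝ≥0∞} (hρ : ρ < 1) (hK : K ≠ ⊤) : K ^ (3 / 4 : ℝ) * (1 - ρ ^ (1 / 4 : ℝ))⁻¹ ≠ ⊤ :=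
  ENNReal.mul_ne_top (ENNReal.rpow_ne_top_of_nonneg (by norm_num) hK)
    (ENNReal.inv_ne_top.2 (tsub_pos_of_lt (ENNReal.rpow_lt_one hρ (by norm_num))).ne')

/-- THE CLOSING LEMMA, final form: inside the loop the return estimate sees only the sum over the classes, with the fixed rate `ρ₂ ^ (3/4)`. -/
theorem clo4 {ρ₁ ρ₂ θ t₀ : ℝ≥0∞} (h₁ : ρ₁ < 1) (h₂ : ρ₂ < 1) (hθ : θ < 1) (ht₀ : 1 < t₀) (ht₀t : t₀ ≠ ⊤) :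
    ∃ ρ : ℝ≥0∞, ρ < 1 ∧ ρ₂ ≤ ρ ∧ ∀ (K : ℝ≥0∞) (u : ℕ → ℝ≥0∞) (M : ℕ → ℕ → ℕ → ℝ≥0∞) (Y : ℕ → ℕ → ℝ≥0∞),
      K ≠ ⊤ → (∀ n, u n ≠ ⊤) →
      (∀ g n m, g ≤ n → n ≤ m → M g n m ≤ K * ρ₂ ^ (m - n) * u n) →
      (∀ g n m, g ≤ n → n ≤ m → M g n m ≤ K * ∑ j ∈ range (n + 1),
        min (ρ₂ ^ (m - n) * u n) (min (ρ₁ ^ (j - g) * 2 ^ (n - j) * u n) (Y n j))) →
      (∀ X t : ℝ≥0∞, 1 ≤ X → X ≠ ⊤ → 1 ≤ t → t ≤ t₀ →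
        (∀ n m, n ≤ m → ∑ g ∈ range (n + 1), M g n m ≤ X * t ^ n * (ρ₂ ^ (3 / 4 : ℝ)) ^ (m - n) * u n) →
        ∀ n j, j ≤ n → Y n j ≤ K * X ^ 2 * t ^ (2 * n) * θ ^ (n - j) * u n) →
      ∃ C : ℝ≥0∞, C ≠ ⊤ ∧ ∀ g n m, g ≤ n → n ≤ m → M g n m ≤ C * ρ ^ (m - g) * u n := by
  obtain ⟨ρ, hρ, hρ2, H⟩ := clo3 h₁ h₂ hθ ht₀ ht₀t
  refine ⟨ρ, hρ, hρ2, fun K u M Y hK hu H0 H1 H2 => ?_⟩
  set D : ℝ≥0∞ := max 1 (K ^ (3 / 4 : ℝ) * (1 - ρ ^ (1 / 4 : ℝ))⁻¹) with hD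
  have hD1 : 1 ≤ D := le_max_left _ _
  have hDt : D ≠ ⊤ := (max_lt ENNReal.one_lt_top (tb_const hρ hK).lt_top).ne
  have hKK : K ≤ K * D ^ 2 := le_mul_of_one_le_right' (one_le_pow_of_one_le' hD1 2)
  refine H (K * D ^ 2) u M Y (ENNReal.mul_ne_top hK (ENNReal.pow_ne_top hDt)) hu ?_ ?_ ?_
  · intro g n m hgn hnm
    exact (H0 g n m hgn hnm).trans (by gcongr)
  · intro g n m hgn hnm
    exact (H1 g n m hgn hnm).trans (by gcongr)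
  · intro X t hX hXt ht ht' hM n j hj
    have h3 := H2 (D * X) t (by
      calc (1 : ℝ≥0∞) = 1 * 1 := (one_mul 1).symm
        _ ≤ D * X := mul_le_mul' hD1 hX) (ENNReal.mul_ne_top hDt hXt) ht ht' ?_ n j hj
    · refine h3.trans (le_of_eq ?_)
      ring
    · intro n m hnm
      refine (tb_of_mg (M := fun g => M g n m) hX ht hnm hρ (fun g hg => H0 g n m hg hnm)
        (fun g hg => hM g n m hg hnm)).trans ?_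
      calc K ^ (3 / 4 : ℝ) * (1 - ρ ^ (1 / 4 : ℝ))⁻¹ * (X * t ^ n * (ρ₂ ^ (3 / 4 : ℝ)) ^ (m - n) * u n) ≤
            D * (X * t ^ n * (ρ₂ ^ (3 / 4 : ℝ)) ^ (m - n) * u n) := by
            gcongr
            exact le_max_right _ _
        _ = D * X * t ^ n * (ρ₂ ^ (3 / 4 : ℝ)) ^ (m - n) * u n := by ring

end Pool.Agent.HEP
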