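import Pool.Agent.PLY.R2.Defs

/-!
Project PLY, RETURN ESTIMATE, module Num: finite geometric sums in `ℝ≥0∞` (no system).

PAPER PROOFS (natural subtraction everywhere).
* `min_sq`: if `p ≤ q` then `p ^ 2 ≤ p * q`, otherwise `q ^ 2 ≤ p * q`.
* `geo1`: the exponents `j - a`, `a ≤ b`, are different and `≥ j - b`: `∑ τ ^ (j-a) = τ ^ (j-b) ∑ τ ^ (b-a) ≤ τ ^ (j-b) (1-τ)⁻¹` (`ENNReal.tsum_geometric`, `ENNReal.sum_le_tsum`;
  or `Finset.sum_range_reflect`).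
* `geo2`: the terms `b ≤ k`: `geo1` (`θ ^ 0 = 1`; if `n < k` then `τ ^ (j-n) ≤ τ ^ (j-k)`.. careful: for `b ≤ min n k` use `geo1` with `min n k` and `τ ^ (j - min n k) ≤ τ ^ (j-k)`).
  The terms `b > k`: `τ ^ (j-b) θ ^ (b-k) = τ ^ (j-k) (θ τ⁻¹) ^ (b-k)`, geometric.
* `geo3`: `θ ^ k τ ^ (j-k)`, `k = i .. j+1`: for `k ≤ j` it is `θ ^ i τ ^ (j-i) (θ τ⁻¹) ^ (k-i)`; for `k = j + 1`: `θ ^ (j+1) ≤ θ ^ i θ ^ (j-i) ≤ θ ^ i τ ^ (j-i)`.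
-/

namespace Pool.Agent.HEP

open scoped ENNReal
open Finset

namespace R2

theorem min_sq {x A p q : ℝ≥0∞} (h1 : x ≤ A * p ^ 2) (h2 : x ≤ A * q ^ 2) : x ≤ A * (p * q) := by
  rcases le_total p q with h | h
  · refine h1.trans (mul_le_mul_right ?_ A)
    rw [pow_two]
    exact mul_le_mul_right h p
  · refine h2.trans (mul_le_mul_right ?_ A)
    rw [pow_two]
    exact mul_le_mul_left h q

theorem geo1 {τ : ℝ≥0∞} (h : τ < 1) {b j : ℕ} (hb : b ≤ j) :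
    ∑ a ∈ range (b + 1), τ ^ (j - a) ≤ (1 - τ)⁻¹ * τ ^ (j - b) := by
  have e1 : ∑ a ∈ range (b + 1), τ ^ (j - a) = (∑ a ∈ range (b + 1), τ ^ (b + 1 - 1 - a)) * τ ^ (j - b) := by
    rw [Finset.sum_mul]
    refine Finset.sum_congr rfl fun a ha => ?_
    have ha' : a ≤ b := Nat.lt_succ_iff.mp (Finset.mem_range.mp ha)
    rw [← pow_add]
    congr 1
    omega
  rw [e1, Finset.sum_range_reflect (fun a => τ ^ a) (b + 1)]
  refine mul_le_mul_left ?_ _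
  rw [← ENNReal.tsum_geometric]
  exact ENNReal.sum_le_tsum _

theorem ratio_lt {θ τ : ℝ≥0∞} (h1 : θ < τ) (h2 : τ < 1) : θ * τ⁻¹ < 1 := by
  have ht0 : τ ≠ 0 := fun h => by rw [h] at h1; exact ENNReal.not_lt_zero h1
  have htt : τ ≠ ⊤ := (h2.trans ENNReal.one_lt_top).ne
  calc θ * τ⁻¹ < τ * τ⁻¹ :=
        ENNReal.mul_lt_mul_left (ENNReal.inv_ne_zero.mpr htt) (ENNReal.inv_ne_top.mpr ht0) h1
    _ = 1 := ENNReal.mul_inv_cancel ht0 htt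

theorem ratio_pow {θ τ : ℝ≥0∞} (h1 : θ < τ) (h2 : τ < 1) (m : ℕ) : τ ^ m * (θ * τ⁻¹) ^ m = θ ^ m := by
  have ht0 : τ ≠ 0 := fun h => by rw [h] at h1; exact ENNReal.not_lt_zero h1
  have htt : τ ≠ ⊤ := (h2.trans ENNReal.one_lt_top).ne
  rw [← mul_pow]
  congr 1
  rw [mul_comm θ, ← mul_assoc, ENNReal.mul_inv_cancel ht0 htt, one_mul]

theorem sum_Ico_pow_le {r : ℝ≥0∞} (k n : ℕ) :
    ∑ b ∈ Ico k n, r ^ (b - k) ≤ (1 - r)⁻¹ := by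
  rw [Finset.sum_Ico_eq_sum_range]
  have e : ∀ i ∈ range (n - k), r ^ (k + i - k) = r ^ i := by
    intro i _
    rw [Nat.add_sub_cancel_left]
  rw [Finset.sum_congr rfl e, ← ENNReal.tsum_geometric]
  exact ENNReal.sum_le_tsum _

theorem inv_one_sub_ne_top {r : ℝ≥0∞} (h : r < 1) : (1 - r)⁻¹ ≠ ⊤ :=
  ENNReal.inv_ne_top.mpr (tsub_pos_of_lt h).ne'

theorem geo2 {θ τ : ℝ≥0∞} (h0 : θ ≠ 0) (h1 : θ < τ) (h2 : τ < 1) : ∃ C : ℝ≥0∞, C ≠ ⊤ ∧ ∀ j n k : ℕ, n ≤ j → k ≤ j →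
    ∑ b ∈ range (n + 1), τ ^ (j - b) * θ ^ (b - k) ≤ C * τ ^ (j - k) := by
  refine ⟨(1 - τ)⁻¹ + (1 - θ * τ⁻¹)⁻¹, ENNReal.add_ne_top.mpr
    ⟨inv_one_sub_ne_top h2, inv_one_sub_ne_top (ratio_lt h1 h2)⟩, ?_⟩
  intro j n k hn hk
  have hsub : range (n + 1) ⊆ range (j + 1) := Finset.range_subset_range.mpr (by omega)
  refine (Finset.sum_le_sum_of_subset hsub).trans ?_
  have hsplit : ∑ b ∈ range (j + 1), τ ^ (j - b) * θ ^ (b - k)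
      = ∑ b ∈ range (k + 1), τ ^ (j - b) * θ ^ (b - k)
        + ∑ b ∈ Ico (k + 1) (j + 1), τ ^ (j - b) * θ ^ (b - k) :=
    (Finset.sum_range_add_sum_Ico _ (by omega)).symm
  rw [hsplit, add_mul]
  refine add_le_add ?_ ?_
  · have e : ∀ b ∈ range (k + 1), τ ^ (j - b) * θ ^ (b - k) = τ ^ (j - b) := by
      intro b hb
      have hb' : b ≤ k := Nat.lt_succ_iff.mp (Finset.mem_range.mp hb)
      rw [Nat.sub_eq_zero_of_le hb', pow_zero, mul_one]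
    rw [Finset.sum_congr rfl e]
    exact geo1 h2 hk
  · have e : ∀ b ∈ Ico (k + 1) (j + 1), τ ^ (j - b) * θ ^ (b - k)
        = (θ * τ⁻¹) ^ (b - k) * τ ^ (j - k) := by
      intro b hb
      obtain ⟨hb1, hb2⟩ := Finset.mem_Ico.mp hb
      have e2 : j - k = (j - b) + (b - k) := by omega
      rw [e2, pow_add, ← ratio_pow h1 h2 (b - k)]
      ring
    rw [Finset.sum_congr rfl e, ← Finset.sum_mul]
    refine mul_le_mul_left ?_ _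
    have hsub2 : Ico (k + 1) (j + 1) ⊆ Ico k (j + 1) := Finset.Ico_subset_Ico_left (by omega)
    exact (Finset.sum_le_sum_of_subset hsub2).trans (sum_Ico_pow_le k (j + 1))

theorem geo3 {θ τ : ℝ≥0∞} (h0 : θ ≠ 0) (h1 : θ < τ) (h2 : τ < 1) : ∃ C : ℝ≥0∞, C ≠ ⊤ ∧ ∀ i j : ℕ, i ≤ j →
    ∑ k ∈ Ico i (j + 2), θ ^ k * τ ^ (j - k) ≤ C * (θ ^ i * τ ^ (j - i)) := by
  refine ⟨(1 - θ * τ⁻¹)⁻¹ + 1, ENNReal.add_ne_top.mpr
    ⟨inv_one_sub_ne_top (ratio_lt h1 h2), ENNReal.one_ne_top⟩, ?_⟩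
  intro i j hij
  rw [Finset.sum_Ico_succ_top (by omega : i ≤ j + 1), add_mul, one_mul]
  refine add_le_add ?_ ?_
  · have e : ∀ k ∈ Ico i (j + 1), θ ^ k * τ ^ (j - k)
        = (θ * τ⁻¹) ^ (k - i) * (θ ^ i * τ ^ (j - i)) := by
      intro k hk
      obtain ⟨hk1, hk2⟩ := Finset.mem_Ico.mp hk
      have e2 : j - i = (j - k) + (k - i) := by omega
      have e3 : k = i + (k - i) := by omega
      have e4 : θ ^ k = θ ^ i * θ ^ (k - i) := by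
        rw [← pow_add]
        congr 1
      rw [e2, pow_add, e4, ← ratio_pow h1 h2 (k - i)]
      ring
    rw [Finset.sum_congr rfl e, ← Finset.sum_mul]
    exact mul_le_mul_left (sum_Ico_pow_le i (j + 1)) _
  · have hθ1 : θ ≤ 1 := (h1.trans h2).le
    rw [Nat.sub_eq_zero_of_le (Nat.le_succ j), pow_zero, mul_one]
    have e4 : θ ^ j = θ ^ i * θ ^ (j - i) := by
      rw [← pow_add]
      congr 1
      omega
    calc θ ^ (j + 1) ≤ θ ^ j := pow_le_pow_right_of_le_one' hθ1 (Nat.le_succ j)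
      _ = θ ^ i * θ ^ (j - i) := e4
      _ ≤ θ ^ i * τ ^ (j - i) := mul_le_mul_right (pow_le_pow_left' h1.le _) _

end R2

end Pool.Agent.HEP
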