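import Pool.Agent.PLY.R2.Fold
import Pool.Agent.PLY.R2.Num

/-!
Project PLY, RETURN ESTIMATE, module All: the pieces of case I without the condition on the height of `l1`.

PAPER PROOF. In `mq σ j k` drop the last two conditions. `ht G ≥ 3 2 ^ (j-2) - 2 2 ^ (j-3) = 2 ^ (j-1)`. `h s2 < 2 ^ (j-3)`: the class `g = size (h s2)` is `≤ j - 3` (`Nat.size_le`); same for `g'`, `s3`. So
`mq σ j k ≤ ∑ g ∈ range (j-2), ∑ g' ∈ range (j-2), ∑' G, ind (2 ^ (j-1) ≤ ht G) * (wt G * (ap (!σ) (j-2) g G * ap σ (j-2) g' G))` (`av_not`, `Bool.not_not`; `2 ^ (j-2) / 2 = 2 ^ (j-3)`; `qI` contains the conditions of both `ap`).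
By `dbl_le` (`J = j - 3`, `n = n' = j - 2`, `m = j - 1`) every term is at most `C K² θ ^ (3(j-2)) (τ ^ (j-1-g)) ^ 2` and `C K² θ ^ (3(j-2)) (τ ^ (j-1-g')) ^ 2`, so by `min_sq` at most
`C K² θ ^ (3(j-2)) τ ^ (j-1-g) τ ^ (j-1-g')`; `∑_g τ ^ (j-1-g) ≤ (1-τ)⁻¹` (`geo1`, `τ ^ .. ≤ 1`). `θ ^ (3(j-2)) = θ ^ (3j) θ⁻¹ ^ 6`.
-/

namespace Pool.Agent.HEP

open scoped ENNReal
open Finset

namespace Sys

variable {S : Sys}

/-- Free leg and near part at one fold of the block `G`. -/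
private noncomputable def nA (S : Sys) (σ : Bool) (N : ℕ) (G : S.B) : ℝ≥0∞ :=
  ∑' l, ∑' s, ind (S.av σ l (s ++ [G]) ∧ S.gf (!σ) (s ++ [G]) l ∧ S.FP N l ∧ S.h s < N) *
    (S.w l * S.w s)

private theorem nA_le (σ : Bool) (J : ℕ) (G : S.B) :
    nA S σ (2 ^ J) G ≤ ∑ g ∈ range (J + 1), S.ap σ (J + 1) g G := by
  have hJ : 2 ^ (J + 1) / 2 = 2 ^ J := by
    rw [pow_succ]
    exact Nat.mul_div_cancel _ (by norm_num)
  unfold nA ap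
  rw [← Summable.tsum_finsetSum (fun _ _ => ENNReal.summable)]
  refine ENNReal.tsum_le_tsum fun l => ?_
  rw [← Summable.tsum_finsetSum (fun _ _ => ENNReal.summable)]
  refine ENNReal.tsum_le_tsum fun s => ?_
  rw [← Finset.sum_mul]
  refine mul_le_mul_left ?_ _
  by_cases hc : S.av σ l (s ++ [G]) ∧ S.gf (!σ) (s ++ [G]) l ∧ S.FP (2 ^ J) l ∧ S.h s < 2 ^ J
  · have hg : Nat.size (S.h s) ∈ range (J + 1) := by
      rw [Finset.mem_range]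
      have := Nat.size_le.2 hc.2.2.2
      omega
    refine le_trans ?_ (Finset.single_le_sum
      (f := fun g => ind (S.av σ l (s ++ [G]) ∧ S.gf (!σ) (s ++ [G]) l ∧
        S.FP (2 ^ (J + 1) / 2) l ∧ Nat.size (S.h s) = g)) (fun _ _ => zero_le) hg)
    refine ind_mono fun _ => ?_
    rw [hJ]
    exact ⟨hc.1, hc.2.1, hc.2.2.1, rfl⟩
  · rw [ind_false hc]
    exact zero_le

private theorem mq_le_nA (σ : Bool) (J k : ℕ) :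
    S.mq σ (J + 3) k ≤ ∑' G, ind (2 ^ (J + 2) ≤ S.ht G) *
      (S.wt G * (nA S (!σ) (2 ^ J) G * nA S σ (2 ^ J) G)) := by
  have key : S.mq σ (J + 3) k ≤ ∑' l1, ∑' s2, ∑' G,
      (ind (2 ^ (J + 2) ≤ S.ht G) * (S.wt G * nA S σ (2 ^ J) G)) *
        (ind (S.av (!σ) l1 (s2 ++ [G]) ∧ S.gf (!!σ) (s2 ++ [G]) l1 ∧ S.FP (2 ^ J) l1 ∧
          S.h s2 < 2 ^ J) * (S.w l1 * S.w s2)) := by
    unfold mq
    refine ENNReal.tsum_le_tsum fun l1 => ENNReal.tsum_le_tsum fun s2 =>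
      ENNReal.tsum_le_tsum fun G => ?_
    have e1 : (ind (2 ^ (J + 2) ≤ S.ht G) * (S.wt G * nA S σ (2 ^ J) G)) *
        (ind (S.av (!σ) l1 (s2 ++ [G]) ∧ S.gf (!!σ) (s2 ++ [G]) l1 ∧ S.FP (2 ^ J) l1 ∧
          S.h s2 < 2 ^ J) * (S.w l1 * S.w s2)) =
        ∑' s3, ∑' t, (ind (2 ^ (J + 2) ≤ S.ht G) * S.wt G *
        (ind (S.av (!σ) l1 (s2 ++ [G]) ∧ S.gf (!!σ) (s2 ++ [G]) l1 ∧ S.FP (2 ^ J) l1 ∧
          S.h s2 < 2 ^ J) * (S.w l1 * S.w s2))) *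
        (ind (S.av σ t (s3 ++ [G]) ∧ S.gf (!σ) (s3 ++ [G]) t ∧ S.FP (2 ^ J) t ∧ S.h s3 < 2 ^ J) *
          (S.w t * S.w s3)) := by
      unfold nA
      rw [ENNReal.tsum_comm (f := fun s3 t => (ind (2 ^ (J + 2) ≤ S.ht G) * S.wt G *
        (ind (S.av (!σ) l1 (s2 ++ [G]) ∧ S.gf (!!σ) (s2 ++ [G]) l1 ∧ S.FP (2 ^ J) l1 ∧
          S.h s2 < 2 ^ J) * (S.w l1 * S.w s2))) *
        (ind (S.av σ t (s3 ++ [G]) ∧ S.gf (!σ) (s3 ++ [G]) t ∧ S.FP (2 ^ J) t ∧ S.h s3 < 2 ^ J) *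
          (S.w t * S.w s3)))]
      simp_rw [ENNReal.tsum_mul_left]
      ring
    rw [e1]
    refine ENNReal.tsum_le_tsum fun s3 => ENNReal.tsum_le_tsum fun t => ?_
    have e2 : (ind (2 ^ (J + 2) ≤ S.ht G) * S.wt G *
        (ind (S.av (!σ) l1 (s2 ++ [G]) ∧ S.gf (!!σ) (s2 ++ [G]) l1 ∧ S.FP (2 ^ J) l1 ∧
          S.h s2 < 2 ^ J) * (S.w l1 * S.w s2))) *
        (ind (S.av σ t (s3 ++ [G]) ∧ S.gf (!σ) (s3 ++ [G]) t ∧ S.FP (2 ^ J) t ∧ S.h s3 < 2 ^ J) *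
          (S.w t * S.w s3)) =
        ind (2 ^ (J + 2) ≤ S.ht G ∧ (S.av (!σ) l1 (s2 ++ [G]) ∧ S.gf (!!σ) (s2 ++ [G]) l1 ∧
          S.FP (2 ^ J) l1 ∧ S.h s2 < 2 ^ J) ∧ (S.av σ t (s3 ++ [G]) ∧ S.gf (!σ) (s3 ++ [G]) t ∧
          S.FP (2 ^ J) t ∧ S.h s3 < 2 ^ J)) *
          (S.w l1 * S.w s2 * S.wt G * S.w s3 * S.w t) := by
      rw [ind_and (2 ^ (J + 2) ≤ S.ht G), ind_and (S.av (!σ) l1 (s2 ++ [G]) ∧ _)]
      ring
    rw [e2]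
    refine mul_le_mul_left (ind_mono ?_) _
    rintro ⟨⟨h1, h2, h3, h4, h5, h6, h7, h8⟩, h9, -, -⟩
    have hJ3 : J + 3 - 3 = J := by omega
    have hJ2 : J + 3 - 2 = J + 1 := by omega
    rw [hJ3] at h5 h6 h7 h8
    rw [hJ2] at h9
    refine ⟨?_, ⟨(S.av_not σ l1 (s2 ++ [G])).2 h1, ?_, h5, h7⟩, h3, h4, h6, h8⟩
    · have e3 : 2 ^ (J + 2) = 4 * 2 ^ J := by ring
      have e4 : 2 ^ (J + 1) = 2 * 2 ^ J := by ring
      rw [e3]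
      rw [e4] at h9
      omega
    · rw [Bool.not_not]
      exact h2
  refine key.trans (le_of_eq ?_)
  calc ∑' l1, ∑' s2, ∑' G,
      (ind (2 ^ (J + 2) ≤ S.ht G) * (S.wt G * nA S σ (2 ^ J) G)) *
        (ind (S.av (!σ) l1 (s2 ++ [G]) ∧ S.gf (!!σ) (s2 ++ [G]) l1 ∧ S.FP (2 ^ J) l1 ∧
          S.h s2 < 2 ^ J) * (S.w l1 * S.w s2))
      = ∑' l1, ∑' G, ∑' s2,
      (ind (2 ^ (J + 2) ≤ S.ht G) * (S.wt G * nA S σ (2 ^ J) G)) *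
        (ind (S.av (!σ) l1 (s2 ++ [G]) ∧ S.gf (!!σ) (s2 ++ [G]) l1 ∧ S.FP (2 ^ J) l1 ∧
          S.h s2 < 2 ^ J) * (S.w l1 * S.w s2)) := by
        refine tsum_congr fun l1 => ?_
        rw [ENNReal.tsum_comm]
    _ = ∑' G, ∑' l1, ∑' s2,
      (ind (2 ^ (J + 2) ≤ S.ht G) * (S.wt G * nA S σ (2 ^ J) G)) *
        (ind (S.av (!σ) l1 (s2 ++ [G]) ∧ S.gf (!!σ) (s2 ++ [G]) l1 ∧ S.FP (2 ^ J) l1 ∧
          S.h s2 < 2 ^ J) * (S.w l1 * S.w s2)) := by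
        rw [ENNReal.tsum_comm]
    _ = ∑' G, (ind (2 ^ (J + 2) ≤ S.ht G) * (S.wt G * nA S σ (2 ^ J) G)) *
        nA S (!σ) (2 ^ J) G := by
        refine tsum_congr fun G => ?_
        simp_rw [ENNReal.tsum_mul_left]
        rfl
    _ = _ := by
        refine tsum_congr fun G => ?_
        ring

theorem mq_le_all {κ θ τ : ℝ≥0∞} (hq : S.Rq κ θ) (h1 : θ < τ) (h2 : τ < 1) : ∃ C : ℝ≥0∞, C ≠ ⊤ ∧
    ∀ (K : ℝ≥0∞) (σ : Bool) (j k : ℕ), 3 ≤ j → S.Fz K θ τ (j - 3) → S.mq σ j k ≤ C * K ^ 2 * θ ^ (3 * j) := by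
  obtain ⟨C, hC, hdbl⟩ := dbl_le hq
  have h0 := hq.th_ne_zero
  have ht := hq.th_ne_top
  have hτ : (1 - τ)⁻¹ ≠ ⊤ := ENNReal.inv_ne_top.2 (tsub_pos_of_lt h2).ne'
  refine ⟨C * ((1 - τ)⁻¹ * (1 - τ)⁻¹) * θ⁻¹ ^ 6, ENNReal.mul_ne_top (ENNReal.mul_ne_top hC
    (ENNReal.mul_ne_top hτ hτ)) (ENNReal.pow_ne_top (ENNReal.inv_ne_top.2 h0)), ?_⟩
  intro K σ j k hj hF
  obtain ⟨J, rfl⟩ : ∃ J, j = J + 3 := ⟨j - 3, by omega⟩
  rw [Nat.add_sub_cancel] at hF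
  have hgeo : ∑ g ∈ range (J + 1), τ ^ (J + 2 - g) ≤ (1 - τ)⁻¹ := by
    refine (R2.geo1 h2 (b := J) (j := J + 2) (by omega)).trans ?_
    calc (1 - τ)⁻¹ * τ ^ (J + 2 - J) ≤ (1 - τ)⁻¹ * 1 :=
          mul_le_mul_right (pow_le_one₀ (zero_le) h2.le) _
      _ = (1 - τ)⁻¹ := mul_one _
  have hterm : ∀ g ∈ range (J + 1), ∀ g' ∈ range (J + 1),
      ∑' c, ind (2 ^ (J + 2) ≤ S.ht c) * (S.wt c * (S.ap (!σ) (J + 1) g c * S.ap σ (J + 1) g' c)) ≤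
        (C * K ^ 2 * θ ^ (3 * (J + 1))) * (τ ^ (J + 2 - g) * τ ^ (J + 2 - g')) := by
    intro g hg g' hg'
    rw [Finset.mem_range] at hg hg'
    obtain ⟨d1, d2⟩ := hdbl K τ J h1 hF (!σ) σ (J + 1) g (J + 1) g' (J + 2) (by omega) le_rfl
      (by omega) (by omega) le_rfl (by omega)
    refine R2.min_sq ?_ ?_
    · refine d1.trans (le_of_eq ?_)
      rw [← pow_mul, Nat.mul_comm (J + 2 - g) 2]
      ring
    · refine d2.trans (le_of_eq ?_)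
      rw [← pow_mul, Nat.mul_comm (J + 2 - g') 2]
      ring
  calc S.mq σ (J + 3) k ≤ ∑' G, ind (2 ^ (J + 2) ≤ S.ht G) *
      (S.wt G * (nA S (!σ) (2 ^ J) G * nA S σ (2 ^ J) G)) := mq_le_nA σ J k
    _ ≤ ∑' G, ind (2 ^ (J + 2) ≤ S.ht G) *
      (S.wt G * ((∑ g ∈ range (J + 1), S.ap (!σ) (J + 1) g G) *
        ∑ g' ∈ range (J + 1), S.ap σ (J + 1) g' G)) := by
        refine ENNReal.tsum_le_tsum fun G => mul_le_mul_right (mul_le_mul_right ?_ _) _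
        exact mul_le_mul' (nA_le (!σ) J G) (nA_le σ J G)
    _ = ∑ g ∈ range (J + 1), ∑ g' ∈ range (J + 1), ∑' G, ind (2 ^ (J + 2) ≤ S.ht G) *
        (S.wt G * (S.ap (!σ) (J + 1) g G * S.ap σ (J + 1) g' G)) := by
        simp_rw [← Summable.tsum_finsetSum (fun _ _ => ENNReal.summable)]
        refine tsum_congr fun G => ?_
        rw [Finset.sum_mul_sum, Finset.mul_sum, Finset.mul_sum]
        refine Finset.sum_congr rfl fun g _ => ?_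
        rw [Finset.mul_sum, Finset.mul_sum]
    _ ≤ ∑ g ∈ range (J + 1), ∑ g' ∈ range (J + 1),
        (C * K ^ 2 * θ ^ (3 * (J + 1))) * (τ ^ (J + 2 - g) * τ ^ (J + 2 - g')) :=
        Finset.sum_le_sum fun g hg => Finset.sum_le_sum fun g' hg' => hterm g hg g' hg'
    _ = (C * K ^ 2 * θ ^ (3 * (J + 1))) * ((∑ g ∈ range (J + 1), τ ^ (J + 2 - g)) *
        ∑ g' ∈ range (J + 1), τ ^ (J + 2 - g')) := by
        rw [Finset.sum_mul_sum, Finset.mul_sum]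
        refine Finset.sum_congr rfl fun g _ => ?_
        rw [Finset.mul_sum]
    _ ≤ (C * K ^ 2 * θ ^ (3 * (J + 1))) * ((1 - τ)⁻¹ * (1 - τ)⁻¹) :=
        mul_le_mul_right (mul_le_mul' hgeo hgeo) _
    _ = C * ((1 - τ)⁻¹ * (1 - τ)⁻¹) * θ⁻¹ ^ 6 * K ^ 2 * θ ^ (3 * (J + 3)) := by
        have e : θ ^ (3 * (J + 3)) = θ ^ (3 * (J + 1)) * θ ^ 6 := by
          rw [← pow_add, show 3 * (J + 3) = 3 * (J + 1) + 6 by omega]
        have e2 : θ⁻¹ ^ 6 * θ ^ 6 = 1 := by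
          rw [← mul_pow, ENNReal.inv_mul_cancel h0 ht, one_pow]
        rw [e]
        calc (C * K ^ 2 * θ ^ (3 * (J + 1))) * ((1 - τ)⁻¹ * (1 - τ)⁻¹)
            = C * ((1 - τ)⁻¹ * (1 - τ)⁻¹) * K ^ 2 * θ ^ (3 * (J + 1)) * 1 := by ring
          _ = C * ((1 - τ)⁻¹ * (1 - τ)⁻¹) * K ^ 2 * θ ^ (3 * (J + 1)) * (θ⁻¹ ^ 6 * θ ^ 6) := by
              rw [e2]
          _ = _ := by ring

end Sys

end Pool.Agent.HEP
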