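import Pool.Agent.PLY.R2.Fold
import Pool.Agent.PLY.R2.Num

/-!
Project PLY, RETURN ESTIMATE, module CA: case I, near part of `l1` not higher than the class `b` of `s2`: `G1` is the strong giant at the upper fold (all the avoiding
pairs, `ll`), `G` is strong at the lower fold.

PAPER PROOF. `2 ^ b / 2 ≤ h s2` (`size_zone`): `tsum_split (2 ^ b / 2)`: `s2 = s' ++ r`, `av σ s2 (s1 ++ [G1])` implies `av σ s' (s1 ++ [G1])`. Everything else fixed,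
`∑' r, ind (h s' + h r < 2 ^ b ∧ |h s1 + ht G1 - (h s' + h r + ht G + h s3)| ≤ 2 ^ (k+1)) * w r ≤ U (2 ^ min b (k+2))` (`small_le`, `win2_le` with `L = 2 ^ (k+1)`; `min` is one of the two).
The rest is a product: `ll σ b (j-1)` times `∑_(g ≤ j-3) st σ (j-2) g (j-1)` (`2 ^ (j-2) / 2 = 2 ^ (j-3)`, classes `g ≤ j - 3` of `s3`). By `ll_le`, `st_le` (`J = j-3`):
`mA ≤ U (2 ^ min b (k+2)) * C K θ ^ (3b) τ ^ (2(j-1-b)) * C K θ ^ (3(j-2)) ∑_g τ ^ (2(j-1-g))`, and `θ ^ (3b) U (2 ^ min b (k+2)) ≤ κ θ ^ (3(b-(k+2)))` (`U_min`), `∑_g .. ≤ ∑_g τ ^ (j-1-g) ≤ (1-τ)⁻¹` (`geo1`).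
-/

namespace Pool.Agent.HEP

open scoped ENNReal
open Finset

namespace Sys

variable {S : Sys}

/-- Word of class `b` in a window: its prefix in first passage over `2 ^ b / 2`, and the window for the rest. -/
lemma ca_win (hb : Antitone S.b) (σ : Bool) (L : List S.B) (b k A B : ℕ) :
    ∑' s, ind (S.av σ s L ∧ Nat.size (S.h s) = b ∧ A ≤ S.h s + B + 2 ^ (k + 1) ∧ S.h s + B ≤ A + 2 ^ (k + 1)) * S.w s ≤
      S.U (2 ^ min b (k + 2)) * ∑' l, ind (S.av σ l L ∧ S.FP (2 ^ b / 2) l) * S.w l := by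
  have h1 : ∀ s, ind (S.av σ s L ∧ Nat.size (S.h s) = b ∧ A ≤ S.h s + B + 2 ^ (k + 1) ∧
      S.h s + B ≤ A + 2 ^ (k + 1)) * S.w s ≤ ind (2 ^ b / 2 ≤ S.h s) * (ind (S.av σ s L ∧ S.h s < 2 ^ b ∧
        A ≤ S.h s + B + 2 ^ (k + 1) ∧ S.h s + B ≤ A + 2 ^ (k + 1)) * S.w s) := by
    intro s
    rw [← mul_assoc, ← ind_and]
    refine mul_le_mul_left (ind_mono fun h => ⟨size_zone h.2.1, h.1, size_lt h.2.1, h.2.2⟩) _
  refine (ENNReal.tsum_le_tsum h1).trans ?_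
  rw [S.tsum_split (2 ^ b / 2), ← ENNReal.tsum_mul_left]
  refine ENNReal.tsum_le_tsum fun l => ?_
  by_cases hl : S.FP (2 ^ b / 2) l
  swap
  · rw [ind_false hl, zero_mul]; exact zero_le
  rw [ind_true hl, one_mul]
  by_cases hav : S.av σ l L
  swap
  · have h2 : ∀ r, ind (S.av σ (l ++ r) L ∧ S.h (l ++ r) < 2 ^ b ∧ A ≤ S.h (l ++ r) + B + 2 ^ (k + 1) ∧
        S.h (l ++ r) + B ≤ A + 2 ^ (k + 1)) * S.w (l ++ r) = 0 := by
      intro r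
      rw [ind_false, zero_mul]
      rintro ⟨h, -⟩
      exact hav (S.av_pre (l' := r) (s' := []) (by rwa [List.append_nil]))
    rw [ENNReal.tsum_eq_zero.2 h2]
    exact zero_le
  rw [ind_true ⟨hav, hl⟩, one_mul]
  have h3 : ∀ r, ind (S.av σ (l ++ r) L ∧ S.h (l ++ r) < 2 ^ b ∧ A ≤ S.h (l ++ r) + B + 2 ^ (k + 1) ∧
      S.h (l ++ r) + B ≤ A + 2 ^ (k + 1)) * S.w (l ++ r) ≤
      S.w l * (ind (S.h l + S.h r < 2 ^ b ∧ A ≤ (S.h l + B) + S.h r + 2 ^ (k + 1) ∧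
        (S.h l + B) + S.h r ≤ A + 2 ^ (k + 1)) * S.w r) := by
    intro r
    rw [S.w_append, mul_left_comm]
    refine mul_le_mul_right (mul_le_mul_left (ind_mono fun h => ?_) _) _
    rw [S.h_append] at h
    exact ⟨h.2.1, by omega, by omega⟩
  refine (ENNReal.tsum_le_tsum h3).trans ?_
  rw [ENNReal.tsum_mul_left, mul_comm]
  refine mul_le_mul_left ?_ _
  have h4 : ∑' r, ind (S.h l + S.h r < 2 ^ b ∧ A ≤ (S.h l + B) + S.h r + 2 ^ (k + 1) ∧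
      (S.h l + B) + S.h r ≤ A + 2 ^ (k + 1)) * S.w r ≤ S.U (2 ^ b) := by
    refine (ENNReal.tsum_le_tsum fun r => ?_).trans (small_le (2 ^ b) (2 ^ b) le_rfl)
    exact mul_le_mul_left (ind_mono fun h => by omega) _
  have h5 : ∑' r, ind (S.h l + S.h r < 2 ^ b ∧ A ≤ (S.h l + B) + S.h r + 2 ^ (k + 1) ∧
      (S.h l + B) + S.h r ≤ A + 2 ^ (k + 1)) * S.w r ≤ S.U (2 ^ (k + 2)) := by
    have h6 := win2_le hb A (S.h l + B) (2 ^ (k + 1))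
    have h7 : 2 * 2 ^ (k + 1) = 2 ^ (k + 2) := by rw [pow_succ 2 (k + 1)]; ring
    rw [h7] at h6
    refine (ENNReal.tsum_le_tsum fun r => ?_).trans h6
    exact mul_le_mul_left (ind_mono fun h => h.2) _
  rcases le_total b (k + 2) with h8 | h8
  · rw [min_eq_left h8]; exact h4
  · rw [min_eq_right h8]; exact h5

/-- `mA` is at most a window factor times the strong fold of `G1` times the strong fold of `G`. -/
lemma mA_le_D (hb : Antitone S.b) (σ : Bool) (j k b : ℕ) (hj : 3 ≤ j) :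
    S.mA σ j k b ≤ S.U (2 ^ min b (k + 2)) * (S.ll σ b (j - 1) * ∑ g ∈ range (j - 2), S.st σ (j - 2) g (j - 1)) := by
  set u : ℝ≥0∞ := S.U (2 ^ min b (k + 2)) with hu
  set V : List S.B → S.B → ℝ≥0∞ := fun s1 G1 =>
    (ind (S.h s1 < 2 ^ b) * S.w s1) * (ind (2 ^ (j - 1) ≤ S.ht G1) * S.wt G1) with hV
  set R : List S.B → S.B → ℝ≥0∞ := fun s1 G1 =>
    V s1 G1 * ∑' l, ind (S.av σ l (s1 ++ [G1]) ∧ S.FP (2 ^ b / 2) l) * S.w l with hR
  set Q : S.B → List S.B → List S.B → ℝ≥0∞ := fun G s3 t =>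
    ind (S.av σ t (s3 ++ [G]) ∧ S.gf (!σ) (s3 ++ [G]) t ∧ S.FP (2 ^ (j - 3)) t ∧ S.h s3 < 2 ^ (j - 3)) *
      (S.w t * S.w s3) with hQ
  set W : S.B → ℝ≥0∞ := fun G => ind (2 ^ (j - 1) ≤ S.ht G) * S.wt G with hW
  -- the sum over `s2` innermost
  have e1 : S.mA σ j k b = ∑' s1, ∑' G1, ∑' G, ∑' s3, ∑' t, ∑' s2, ind (S.av σ s2 (s1 ++ [G1]) ∧
      S.av σ t (s3 ++ [G]) ∧ S.gf (!σ) (s3 ++ [G]) t ∧ S.h s1 < 2 ^ b ∧ Nat.size (S.h s2) = b ∧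
      S.h s3 < 2 ^ (j - 3) ∧ S.FP (2 ^ (j - 3)) t ∧ 2 ^ (j - 1) ≤ S.ht G1 ∧ 2 ^ (j - 1) ≤ S.ht G ∧
      S.h s1 + S.ht G1 ≤ S.h s2 + S.ht G + S.h s3 + 2 ^ (k + 1) ∧
      S.h s2 + S.ht G + S.h s3 ≤ S.h s1 + S.ht G1 + 2 ^ (k + 1)) *
      (S.w s1 * S.wt G1 * S.w s2 * S.wt G * S.w s3 * S.w t) := by
    unfold mA
    refine tsum_congr fun s1 => tsum_congr fun G1 => ?_
    rw [ENNReal.tsum_comm]
    refine tsum_congr fun G => ?_
    rw [ENNReal.tsum_comm]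
    refine tsum_congr fun s3 => ?_
    rw [ENNReal.tsum_comm]
  have e2 : S.mA σ j k b ≤ ∑' s1, ∑' G1, ∑' G, ∑' s3, ∑' t, (u * R s1 G1) * (W G * Q G s3 t) := by
    rw [e1]
    refine ENNReal.tsum_le_tsum fun s1 => ENNReal.tsum_le_tsum fun G1 => ENNReal.tsum_le_tsum fun G =>
      ENNReal.tsum_le_tsum fun s3 => ENNReal.tsum_le_tsum fun t => ?_
    have h3 := ca_win hb σ (s1 ++ [G1]) b k (S.h s1 + S.ht G1) (S.ht G + S.h s3)
    calc ∑' s2, ind (S.av σ s2 (s1 ++ [G1]) ∧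
          S.av σ t (s3 ++ [G]) ∧ S.gf (!σ) (s3 ++ [G]) t ∧ S.h s1 < 2 ^ b ∧ Nat.size (S.h s2) = b ∧
          S.h s3 < 2 ^ (j - 3) ∧ S.FP (2 ^ (j - 3)) t ∧ 2 ^ (j - 1) ≤ S.ht G1 ∧ 2 ^ (j - 1) ≤ S.ht G ∧
          S.h s1 + S.ht G1 ≤ S.h s2 + S.ht G + S.h s3 + 2 ^ (k + 1) ∧
          S.h s2 + S.ht G + S.h s3 ≤ S.h s1 + S.ht G1 + 2 ^ (k + 1)) *
          (S.w s1 * S.wt G1 * S.w s2 * S.wt G * S.w s3 * S.w t)
        ≤ ∑' s2, (V s1 G1 * (W G * Q G s3 t)) *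
            (ind (S.av σ s2 (s1 ++ [G1]) ∧ Nat.size (S.h s2) = b ∧
              S.h s1 + S.ht G1 ≤ S.h s2 + (S.ht G + S.h s3) + 2 ^ (k + 1) ∧
              S.h s2 + (S.ht G + S.h s3) ≤ S.h s1 + S.ht G1 + 2 ^ (k + 1)) * S.w s2) := by
          refine ENNReal.tsum_le_tsum fun s2 => ?_
          have h4 : (V s1 G1 * (W G * Q G s3 t)) *
              (ind (S.av σ s2 (s1 ++ [G1]) ∧ Nat.size (S.h s2) = b ∧
                S.h s1 + S.ht G1 ≤ S.h s2 + (S.ht G + S.h s3) + 2 ^ (k + 1) ∧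
                S.h s2 + (S.ht G + S.h s3) ≤ S.h s1 + S.ht G1 + 2 ^ (k + 1)) * S.w s2) =
              (ind (S.h s1 < 2 ^ b) * ind (2 ^ (j - 1) ≤ S.ht G1) * ind (2 ^ (j - 1) ≤ S.ht G) *
                ind (S.av σ t (s3 ++ [G]) ∧ S.gf (!σ) (s3 ++ [G]) t ∧ S.FP (2 ^ (j - 3)) t ∧ S.h s3 < 2 ^ (j - 3)) *
                ind (S.av σ s2 (s1 ++ [G1]) ∧ Nat.size (S.h s2) = b ∧
                  S.h s1 + S.ht G1 ≤ S.h s2 + (S.ht G + S.h s3) + 2 ^ (k + 1) ∧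
                  S.h s2 + (S.ht G + S.h s3) ≤ S.h s1 + S.ht G1 + 2 ^ (k + 1))) *
              (S.w s1 * S.wt G1 * S.w s2 * S.wt G * S.w s3 * S.w t) := by
            simp only [hV, hW, hQ]; ring
          rw [h4, ← ind_and, ← ind_and, ← ind_and, ← ind_and]
          refine mul_le_mul_left (ind_mono fun h => ?_) _
          obtain ⟨g1, g2, g0, g3, g4, g5, g6, g7, g8, g9, g10⟩ := h
          exact ⟨⟨⟨⟨g3, g7⟩, g8⟩, g2, g0, g6, g5⟩, g1, g4, by omega, by omega⟩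
      _ = (V s1 G1 * (W G * Q G s3 t)) *
            ∑' s2, (ind (S.av σ s2 (s1 ++ [G1]) ∧ Nat.size (S.h s2) = b ∧
              S.h s1 + S.ht G1 ≤ S.h s2 + (S.ht G + S.h s3) + 2 ^ (k + 1) ∧
              S.h s2 + (S.ht G + S.h s3) ≤ S.h s1 + S.ht G1 + 2 ^ (k + 1)) * S.w s2) := ENNReal.tsum_mul_left
      _ ≤ (V s1 G1 * (W G * Q G s3 t)) *
            (u * ∑' l, ind (S.av σ l (s1 ++ [G1]) ∧ S.FP (2 ^ b / 2) l) * S.w l) := mul_le_mul_right h3 _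
      _ = (u * R s1 G1) * (W G * Q G s3 t) := by simp only [hR]; ring
  refine e2.trans ?_
  -- factorization
  have e3 : ∑' s1, ∑' G1, R s1 G1 = S.ll σ b (j - 1) := by
    have h5 : S.ll σ b (j - 1) = ∑' s1, ∑' G1, ∑' l, ind (S.av σ l (s1 ++ [G1]) ∧ S.FP (2 ^ b / 2) l ∧
        S.h s1 < 2 ^ b ∧ 2 ^ (j - 1) ≤ S.ht G1) * (S.w l * (S.w s1 * S.wt G1)) := by
      unfold ll
      rw [ENNReal.tsum_comm]
      refine tsum_congr fun s1 => ?_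
      rw [ENNReal.tsum_comm]
    rw [h5]
    refine tsum_congr fun s1 => tsum_congr fun G1 => ?_
    simp only [hR]
    rw [← ENNReal.tsum_mul_left]
    refine tsum_congr fun l => ?_
    have h6 : V s1 G1 * (ind (S.av σ l (s1 ++ [G1]) ∧ S.FP (2 ^ b / 2) l) * S.w l) =
        (ind (S.av σ l (s1 ++ [G1]) ∧ S.FP (2 ^ b / 2) l) * (ind (S.h s1 < 2 ^ b) * ind (2 ^ (j - 1) ≤ S.ht G1))) *
          (S.w l * (S.w s1 * S.wt G1)) := by
      simp only [hV]; ring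
    rw [h6, ← ind_and, ← ind_and]
    congr 1
    exact ind_congr (by rw [and_assoc])
  have h2j : 2 ^ (j - 2) / 2 = 2 ^ (j - 3) := by
    have : j - 2 = (j - 3) + 1 := by omega
    rw [this, pow_succ, Nat.mul_div_cancel _ (by norm_num)]
  have e5 : ∀ G, ∑' s3, ∑' t, Q G s3 t ≤ ∑ g ∈ range (j - 2), S.ap σ (j - 2) g G := by
    intro G
    have h7 : ∀ s3 t, Q G s3 t ≤ ∑ g ∈ range (j - 2), ind (S.av σ t (s3 ++ [G]) ∧ S.gf (!σ) (s3 ++ [G]) t ∧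
        S.FP (2 ^ (j - 3)) t ∧ Nat.size (S.h s3) = g) * (S.w t * S.w s3) := by
      intro s3 t
      simp only [hQ]
      by_cases h8 : S.av σ t (s3 ++ [G]) ∧ S.gf (!σ) (s3 ++ [G]) t ∧ S.FP (2 ^ (j - 3)) t ∧ S.h s3 < 2 ^ (j - 3)
      · have h9 : Nat.size (S.h s3) ∈ range (j - 2) := by
          rw [mem_range]
          have := Nat.size_le.2 h8.2.2.2
          omega
        refine le_trans ?_ (Finset.single_le_sum (f := fun g => ind (S.av σ t (s3 ++ [G]) ∧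
          S.gf (!σ) (s3 ++ [G]) t ∧ S.FP (2 ^ (j - 3)) t ∧ Nat.size (S.h s3) = g) * (S.w t * S.w s3))
          (fun _ _ => zero_le) h9)
        exact mul_le_mul_left (ind_mono fun h => ⟨h.1, h.2.1, h.2.2.1, rfl⟩) _
      · rw [ind_false h8, zero_mul]; exact zero_le
    calc ∑' s3, ∑' t, Q G s3 t ≤ ∑' s3, ∑' t, ∑ g ∈ range (j - 2), ind (S.av σ t (s3 ++ [G]) ∧
          S.gf (!σ) (s3 ++ [G]) t ∧ S.FP (2 ^ (j - 3)) t ∧ Nat.size (S.h s3) = g) * (S.w t * S.w s3) :=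
          ENNReal.tsum_le_tsum fun s3 => ENNReal.tsum_le_tsum fun t => h7 s3 t
      _ = ∑ g ∈ range (j - 2), ∑' s3, ∑' t, ind (S.av σ t (s3 ++ [G]) ∧
          S.gf (!σ) (s3 ++ [G]) t ∧ S.FP (2 ^ (j - 3)) t ∧ Nat.size (S.h s3) = g) * (S.w t * S.w s3) := by
          rw [← Summable.tsum_finsetSum fun _ _ => ENNReal.summable]
          refine tsum_congr fun s3 => ?_
          rw [← Summable.tsum_finsetSum fun _ _ => ENNReal.summable]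
      _ = _ := by
          refine Finset.sum_congr rfl fun g _ => ?_
          unfold ap
          rw [ENNReal.tsum_comm, h2j]
  have e6 : ∑' G, ∑' s3, ∑' t, W G * Q G s3 t ≤ ∑ g ∈ range (j - 2), S.st σ (j - 2) g (j - 1) := by
    calc ∑' G, ∑' s3, ∑' t, W G * Q G s3 t = ∑' G, W G * ∑' s3, ∑' t, Q G s3 t := by
          refine tsum_congr fun G => ?_
          rw [← ENNReal.tsum_mul_left]
          exact tsum_congr fun s3 => ENNReal.tsum_mul_left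
      _ ≤ ∑' G, W G * ∑ g ∈ range (j - 2), S.ap σ (j - 2) g G :=
          ENNReal.tsum_le_tsum fun G => mul_le_mul_right (e5 G) _
      _ = ∑' G, ∑ g ∈ range (j - 2), ind (2 ^ (j - 1) ≤ S.ht G) * (S.wt G * S.ap σ (j - 2) g G) := by
          refine tsum_congr fun G => ?_
          rw [Finset.mul_sum]
          refine Finset.sum_congr rfl fun g _ => ?_
          simp only [hW]; ring
      _ = _ := by
          rw [Summable.tsum_finsetSum fun _ _ => ENNReal.summable]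
          rfl
  calc ∑' s1, ∑' G1, ∑' G, ∑' s3, ∑' t, (u * R s1 G1) * (W G * Q G s3 t)
      = ∑' s1, ∑' G1, (u * R s1 G1) * ∑' G, ∑' s3, ∑' t, W G * Q G s3 t := by
        refine tsum_congr fun s1 => tsum_congr fun G1 => ?_
        rw [← ENNReal.tsum_mul_left]
        refine tsum_congr fun G => ?_
        rw [← ENNReal.tsum_mul_left]
        refine tsum_congr fun s3 => ?_
        rw [← ENNReal.tsum_mul_left]
    _ = (u * ∑' s1, ∑' G1, R s1 G1) * ∑' G, ∑' s3, ∑' t, W G * Q G s3 t := by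
        generalize ∑' G, ∑' s3, ∑' t, W G * Q G s3 t = X
        rw [← ENNReal.tsum_mul_left, ← ENNReal.tsum_mul_right]
        refine tsum_congr fun s1 => ?_
        rw [← ENNReal.tsum_mul_left, ← ENNReal.tsum_mul_right]
    _ ≤ (u * S.ll σ b (j - 1)) * ∑ g ∈ range (j - 2), S.st σ (j - 2) g (j - 1) := by
        rw [e3]
        exact mul_le_mul_right e6 _
    _ = _ := mul_assoc _ _ _

theorem mA_le {κ θ τ : ℝ≥0∞} (hq : S.Rq κ θ) (h1 : θ < τ) (h2 : τ < 1) : ∃ C : ℝ≥0∞, C ≠ ⊤ ∧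
    ∀ (K : ℝ≥0∞) (σ : Bool) (j k b : ℕ), 3 ≤ j → b ≤ j - 3 → S.Fz K θ τ (j - 3) →
      S.mA σ j k b ≤ C * K ^ 2 * θ ^ (3 * j) * (τ ^ (2 * (j - 1 - b)) * θ ^ (3 * (b - (k + 2)))) := by
  obtain ⟨Cl, hCl, hl⟩ := ll_le hq
  obtain ⟨Cs, hCs, hs⟩ := st_le hq
  refine ⟨κ * Cl * Cs * (1 - τ)⁻¹ * θ⁻¹ ^ 6, ?_, ?_⟩
  · exact ENNReal.mul_ne_top (ENNReal.mul_ne_top (ENNReal.mul_ne_top (ENNReal.mul_ne_top hq.kt hCl) hCs)
      (R2.inv_one_sub_ne_top h2)) (ENNReal.pow_ne_top (ENNReal.inv_ne_top.2 hq.th_ne_zero))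
  intro K σ j k b hj hbj hF
  have hm := mA_le_D hq.anti σ j k b hj
  have hL := hl K τ (j - 3) h1 hF σ b (j - 1) (by omega) (by omega)
  have hUb := hq.U_min b (k + 2)
  -- `θ ^ (3 j) θ⁻¹ ^ 6 = θ ^ (3 (j - 2))`
  have hth : θ ^ (3 * j) * θ⁻¹ ^ 6 = θ ^ (3 * (j - 2)) := by
    have : 3 * j = 3 * (j - 2) + 6 := by omega
    rw [this, pow_add, mul_assoc, ← mul_pow, ENNReal.mul_inv_cancel hq.th_ne_zero hq.th_ne_top, one_pow, mul_one]
  have hS : ∑ g ∈ range (j - 2), S.st σ (j - 2) g (j - 1) ≤ Cs * K * θ ^ (3 * (j - 2)) * (1 - τ)⁻¹ := by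
    have h3 : ∀ g ∈ range (j - 2), S.st σ (j - 2) g (j - 1) ≤ (Cs * K * θ ^ (3 * (j - 2))) * τ ^ (j - 1 - g) := by
      intro g hg
      rw [mem_range] at hg
      calc S.st σ (j - 2) g (j - 1) ≤ Cs * K * (θ ^ (3 * (j - 2)) * τ ^ (2 * (j - 1 - g))) :=
            hs K τ (j - 3) h1 hF σ (j - 2) g (j - 1) (by omega) (by omega) (by omega)
        _ ≤ Cs * K * (θ ^ (3 * (j - 2)) * τ ^ (j - 1 - g)) :=
            mul_le_mul_right (mul_le_mul_right (pow_le_pow_right_of_le_one' h2.le (by omega)) _) _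
        _ = _ := by ring
    refine (Finset.sum_le_sum h3).trans ?_
    rw [← Finset.mul_sum]
    refine mul_le_mul_right ?_ _
    have h4 := R2.geo1 h2 (show j - 3 ≤ j - 1 by omega)
    rw [show j - 3 + 1 = j - 2 by omega] at h4
    refine h4.trans ?_
    calc (1 - τ)⁻¹ * τ ^ (j - 1 - (j - 3)) ≤ (1 - τ)⁻¹ * 1 := mul_le_mul_right (pow_le_one' h2.le _) _
      _ = _ := mul_one _
  calc S.mA σ j k b ≤ S.U (2 ^ min b (k + 2)) * (S.ll σ b (j - 1) * ∑ g ∈ range (j - 2), S.st σ (j - 2) g (j - 1)) := hm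
    _ ≤ S.U (2 ^ min b (k + 2)) * ((Cl * K * (θ ^ (3 * b) * τ ^ (2 * (j - 1 - b)))) *
          (Cs * K * θ ^ (3 * (j - 2)) * (1 - τ)⁻¹)) := mul_le_mul_right (mul_le_mul' hL hS) _
    _ = (θ ^ (3 * b) * S.U (2 ^ min b (k + 2))) *
          (Cl * Cs * (1 - τ)⁻¹ * K ^ 2 * θ ^ (3 * (j - 2)) * τ ^ (2 * (j - 1 - b))) := by ring
    _ ≤ (κ * θ ^ (3 * (b - (k + 2)))) *
          (Cl * Cs * (1 - τ)⁻¹ * K ^ 2 * θ ^ (3 * (j - 2)) * τ ^ (2 * (j - 1 - b))) := mul_le_mul_left hUb _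
    _ = _ := by rw [← hth]; ring

end Sys

end Pool.Agent.HEP
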