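import Pool.Agent.PLY.R2.Fold
import Pool.Agent.PLY.R2.Num

/-!
Project PLY, RETURN ESTIMATE, module CB: case I, classes `b < a`: `G` is the strong giant at both folds, `G1` is only used through its mass.

PAPER PROOF. `2 ^ a / 2 ≤ h s1` (`size_zone`): `tsum_split (2 ^ a / 2)`: `s1 = s' ++ r`, `gp σ (s2 ++ [G]) s1` implies `gp σ (s2 ++ [G]) s'` (`gp.pre`), so `av (!σ) s' (s2 ++ [G])` (`av_not`) and
`gf σ (s2 ++ [G]) s'` (`gp.pre` again; `!(!σ) = σ`). Everything else fixed,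
`∑' r, ind (h s' + h r < 2 ^ a ∧ |h s' + h r + ht G1 - (h s2 + ht G + h s3)| ≤ 2 ^ (k+1)) * w r ≤ U (2 ^ min a (k+2))` (`small_le`, `win2_le`). Then `∑' G1` : `Lam (2 ^ (j-1) - 1) ≤ κ θ ^ (3(j-1))` (`Lam_pow`). The rest is
`D = ∑' G, ind (2 ^ (j-1) ≤ ht G) * (wt G * (ap (!σ) a b G * ap σ (j-2) g G))`. By `dbl_le` (`J = j-3`): `D ≤ C K² θ ^ (3a) τ ^ (2(j-1-b))` and `D ≤ C K² θ ^ (3(j-2)) τ ^ (2(j-1-g))`.
`θ ^ (3a) U (2 ^ min a (k+2)) ≤ κ θ ^ (3(a-(k+2))) ≤ κ θ ^ (2(a-(k+2)))`; `θ ^ (3(j-2)) U (2 ^ min a (k+2)) ≤ κ` (`a ≤ j - 2`: `U_min` and `θ ^ (3(j-2)) ≤ θ ^ (3a)`, `θ ≤ 1`). So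
`mB ≤ κ² C K² θ ^ (3(j-1)) p ^ 2` and `≤ κ² C K² θ ^ (3(j-1)) q ^ 2` with `p = θ ^ (a-(k+2)) τ ^ (j-1-b)`, `q = τ ^ (j-1-g)`; `min_sq`.
-/

namespace Pool.Agent.HEP

open scoped ENNReal
open Finset

namespace Sys

variable {S : Sys}

/-- Word of class `a` in a window: its prefix in first passage over `2 ^ a / 2`, and the window for the rest. -/
lemma cb_win (hb : Antitone S.b) (σ : Bool) (X : List S.B) (a k A B : ℕ) :
    ∑' s, ind (S.gp σ X s ∧ Nat.size (S.h s) = a ∧ A ≤ S.h s + B + 2 ^ (k + 1) ∧ S.h s + B ≤ A + 2 ^ (k + 1)) * S.w s ≤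
      S.U (2 ^ min a (k + 2)) *
        ∑' l, ind (S.av (!σ) l X ∧ S.gf (!(!σ)) X l ∧ S.FP (2 ^ a / 2) l) * S.w l := by
  have h1 : ∀ s, ind (S.gp σ X s ∧ Nat.size (S.h s) = a ∧ A ≤ S.h s + B + 2 ^ (k + 1) ∧
      S.h s + B ≤ A + 2 ^ (k + 1)) * S.w s ≤ ind (2 ^ a / 2 ≤ S.h s) * (ind (S.gp σ X s ∧ S.h s < 2 ^ a ∧
        A ≤ S.h s + B + 2 ^ (k + 1) ∧ S.h s + B ≤ A + 2 ^ (k + 1)) * S.w s) := by
    intro s
    rw [← mul_assoc, ← ind_and]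
    refine mul_le_mul_left (ind_mono fun h => ⟨size_zone h.2.1, h.1, size_lt h.2.1, h.2.2⟩) _
  refine (ENNReal.tsum_le_tsum h1).trans ?_
  rw [S.tsum_split (2 ^ a / 2), ← ENNReal.tsum_mul_left]
  refine ENNReal.tsum_le_tsum fun l => ?_
  by_cases hl : S.FP (2 ^ a / 2) l
  swap
  · rw [ind_false hl, zero_mul]; exact zero_le
  rw [ind_true hl, one_mul]
  by_cases hav : S.gp σ X l
  swap
  · have h2 : ∀ r, ind (S.gp σ X (l ++ r) ∧ S.h (l ++ r) < 2 ^ a ∧ A ≤ S.h (l ++ r) + B + 2 ^ (k + 1) ∧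
        S.h (l ++ r) + B ≤ A + 2 ^ (k + 1)) * S.w (l ++ r) = 0 := by
      intro r
      rw [ind_false, zero_mul]
      rintro ⟨h, -⟩
      exact hav h.pre
    rw [ENNReal.tsum_eq_zero.2 h2]
    exact zero_le
  have hgf : S.gf (!(!σ)) X l := by
    intro l' c' e
    rw [Bool.not_not]
    rw [e] at hav
    exact hav.pre
  rw [ind_true ⟨(av_not σ l X).2 hav.1, hgf, hl⟩, one_mul]
  have h3 : ∀ r, ind (S.gp σ X (l ++ r) ∧ S.h (l ++ r) < 2 ^ a ∧ A ≤ S.h (l ++ r) + B + 2 ^ (k + 1) ∧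
      S.h (l ++ r) + B ≤ A + 2 ^ (k + 1)) * S.w (l ++ r) ≤
      S.w l * (ind (S.h l + S.h r < 2 ^ a ∧ A ≤ (S.h l + B) + S.h r + 2 ^ (k + 1) ∧
        (S.h l + B) + S.h r ≤ A + 2 ^ (k + 1)) * S.w r) := by
    intro r
    rw [S.w_append, mul_left_comm]
    refine mul_le_mul_right (mul_le_mul_left (ind_mono fun h => ?_) _) _
    rw [S.h_append] at h
    exact ⟨h.2.1, by omega, by omega⟩
  refine (ENNReal.tsum_le_tsum h3).trans ?_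
  rw [ENNReal.tsum_mul_left, mul_comm]
  refine mul_le_mul_left ?_ _
  have h4 : ∑' r, ind (S.h l + S.h r < 2 ^ a ∧ A ≤ (S.h l + B) + S.h r + 2 ^ (k + 1) ∧
      (S.h l + B) + S.h r ≤ A + 2 ^ (k + 1)) * S.w r ≤ S.U (2 ^ a) := by
    refine (ENNReal.tsum_le_tsum fun r => ?_).trans (small_le (2 ^ a) (2 ^ a) le_rfl)
    exact mul_le_mul_left (ind_mono fun h => by omega) _
  have h5 : ∑' r, ind (S.h l + S.h r < 2 ^ a ∧ A ≤ (S.h l + B) + S.h r + 2 ^ (k + 1) ∧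
      (S.h l + B) + S.h r ≤ A + 2 ^ (k + 1)) * S.w r ≤ S.U (2 ^ (k + 2)) := by
    have h6 := win2_le hb A (S.h l + B) (2 ^ (k + 1))
    have h7 : 2 * 2 ^ (k + 1) = 2 ^ (k + 2) := by rw [pow_succ 2 (k + 1)]; ring
    rw [h7] at h6
    refine (ENNReal.tsum_le_tsum fun r => ?_).trans h6
    exact mul_le_mul_left (ind_mono fun h => h.2) _
  rcases le_total a (k + 2) with h8 | h8
  · rw [min_eq_left h8]; exact h4
  · rw [min_eq_right h8]; exact h5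

/-- `mB` is at most a window factor times the mass of the giant `G1` times the double fold of `G`. -/
lemma mB_le_D (hb : Antitone S.b) (σ : Bool) (j k a b g : ℕ) (hj : 3 ≤ j) :
    S.mB σ j k a b g ≤ S.U (2 ^ min a (k + 2)) * (S.Lam (2 ^ (j - 1) - 1) *
      ∑' c, ind (2 ^ (j - 1) ≤ S.ht c) * (S.wt c * (S.ap (!σ) a b c * S.ap σ (j - 2) g c))) := by
  set u : ℝ≥0∞ := S.U (2 ^ min a (k + 2)) with hu
  set P : S.B → ℝ≥0∞ := fun G1 => ind (2 ^ (j - 1) ≤ S.ht G1) * S.wt G1 with hP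
  set R : List S.B → S.B → ℝ≥0∞ := fun s2 G =>
    ind (Nat.size (S.h s2) = b) * S.w s2 *
      ∑' l, ind (S.av (!σ) l (s2 ++ [G]) ∧ S.gf (!(!σ)) (s2 ++ [G]) l ∧ S.FP (2 ^ a / 2) l) * S.w l with hR
  set Q : S.B → List S.B → List S.B → ℝ≥0∞ := fun G s3 t =>
    ind (S.av σ t (s3 ++ [G]) ∧ S.gf (!σ) (s3 ++ [G]) t ∧ S.FP (2 ^ (j - 3)) t ∧ Nat.size (S.h s3) = g) *
      (S.w t * S.w s3) with hQ
  set W : S.B → ℝ≥0∞ := fun G => ind (2 ^ (j - 1) ≤ S.ht G) * S.wt G with hW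
  -- the sum over `s1` innermost
  have e1 : S.mB σ j k a b g = ∑' G1, ∑' s2, ∑' G, ∑' s3, ∑' t, ∑' s1, ind (S.gp σ (s2 ++ [G]) s1 ∧
      S.av σ t (s3 ++ [G]) ∧ S.gf (!σ) (s3 ++ [G]) t ∧ Nat.size (S.h s1) = a ∧ Nat.size (S.h s2) = b ∧ Nat.size (S.h s3) = g ∧
      S.FP (2 ^ (j - 3)) t ∧ 2 ^ (j - 1) ≤ S.ht G1 ∧ 2 ^ (j - 1) ≤ S.ht G ∧
      S.h s1 + S.ht G1 ≤ S.h s2 + S.ht G + S.h s3 + 2 ^ (k + 1) ∧
      S.h s2 + S.ht G + S.h s3 ≤ S.h s1 + S.ht G1 + 2 ^ (k + 1)) *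
      (S.w s1 * S.wt G1 * S.w s2 * S.wt G * S.w s3 * S.w t) := by
    unfold mB
    rw [ENNReal.tsum_comm]
    refine tsum_congr fun G1 => ?_
    rw [ENNReal.tsum_comm]
    refine tsum_congr fun s2 => ?_
    rw [ENNReal.tsum_comm]
    refine tsum_congr fun G => ?_
    rw [ENNReal.tsum_comm]
    refine tsum_congr fun s3 => ?_
    rw [ENNReal.tsum_comm]
  have e2 : S.mB σ j k a b g ≤ ∑' G1, ∑' s2, ∑' G, ∑' s3, ∑' t, (u * P G1) * ((W G * R s2 G) * Q G s3 t) := by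
    rw [e1]
    refine ENNReal.tsum_le_tsum fun G1 => ENNReal.tsum_le_tsum fun s2 => ENNReal.tsum_le_tsum fun G =>
      ENNReal.tsum_le_tsum fun s3 => ENNReal.tsum_le_tsum fun t => ?_
    have h3 := cb_win hb σ (s2 ++ [G]) a k (S.h s2 + S.ht G + S.h s3) (S.ht G1)
    calc ∑' s1, ind (S.gp σ (s2 ++ [G]) s1 ∧
          S.av σ t (s3 ++ [G]) ∧ S.gf (!σ) (s3 ++ [G]) t ∧ Nat.size (S.h s1) = a ∧ Nat.size (S.h s2) = b ∧ Nat.size (S.h s3) = g ∧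
          S.FP (2 ^ (j - 3)) t ∧ 2 ^ (j - 1) ≤ S.ht G1 ∧ 2 ^ (j - 1) ≤ S.ht G ∧
          S.h s1 + S.ht G1 ≤ S.h s2 + S.ht G + S.h s3 + 2 ^ (k + 1) ∧
          S.h s2 + S.ht G + S.h s3 ≤ S.h s1 + S.ht G1 + 2 ^ (k + 1)) *
          (S.w s1 * S.wt G1 * S.w s2 * S.wt G * S.w s3 * S.w t)
        ≤ ∑' s1, (P G1 * (W G * (ind (Nat.size (S.h s2) = b) * S.w s2)) * Q G s3 t) *
            (ind (S.gp σ (s2 ++ [G]) s1 ∧ Nat.size (S.h s1) = a ∧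
              S.h s2 + S.ht G + S.h s3 ≤ S.h s1 + S.ht G1 + 2 ^ (k + 1) ∧
              S.h s1 + S.ht G1 ≤ S.h s2 + S.ht G + S.h s3 + 2 ^ (k + 1)) * S.w s1) := by
          refine ENNReal.tsum_le_tsum fun s1 => ?_
          have h4 : (P G1 * (W G * (ind (Nat.size (S.h s2) = b) * S.w s2)) * Q G s3 t) *
              (ind (S.gp σ (s2 ++ [G]) s1 ∧ Nat.size (S.h s1) = a ∧
                S.h s2 + S.ht G + S.h s3 ≤ S.h s1 + S.ht G1 + 2 ^ (k + 1) ∧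
                S.h s1 + S.ht G1 ≤ S.h s2 + S.ht G + S.h s3 + 2 ^ (k + 1)) * S.w s1) =
              (ind (2 ^ (j - 1) ≤ S.ht G1) * ind (2 ^ (j - 1) ≤ S.ht G) * ind (Nat.size (S.h s2) = b) *
                ind (S.av σ t (s3 ++ [G]) ∧ S.gf (!σ) (s3 ++ [G]) t ∧ S.FP (2 ^ (j - 3)) t ∧ Nat.size (S.h s3) = g) *
                ind (S.gp σ (s2 ++ [G]) s1 ∧ Nat.size (S.h s1) = a ∧
                  S.h s2 + S.ht G + S.h s3 ≤ S.h s1 + S.ht G1 + 2 ^ (k + 1) ∧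
                  S.h s1 + S.ht G1 ≤ S.h s2 + S.ht G + S.h s3 + 2 ^ (k + 1))) *
              (S.w s1 * S.wt G1 * S.w s2 * S.wt G * S.w s3 * S.w t) := by
            simp only [hP, hW, hQ]; ring
          rw [h4, ← ind_and, ← ind_and, ← ind_and, ← ind_and]
          refine mul_le_mul_left (ind_mono fun h => ?_) _
          obtain ⟨g1, g2, g0, g3, g4, g5, g6, g7, g8, g9, g10⟩ := h
          exact ⟨⟨⟨⟨g7, g8⟩, g4⟩, g2, g0, g6, g5⟩, g1, g3, g10, g9⟩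
      _ = (P G1 * (W G * (ind (Nat.size (S.h s2) = b) * S.w s2)) * Q G s3 t) *
            ∑' s1, (ind (S.gp σ (s2 ++ [G]) s1 ∧ Nat.size (S.h s1) = a ∧
              S.h s2 + S.ht G + S.h s3 ≤ S.h s1 + S.ht G1 + 2 ^ (k + 1) ∧
              S.h s1 + S.ht G1 ≤ S.h s2 + S.ht G + S.h s3 + 2 ^ (k + 1)) * S.w s1) := ENNReal.tsum_mul_left
      _ ≤ (P G1 * (W G * (ind (Nat.size (S.h s2) = b) * S.w s2)) * Q G s3 t) *
            (u * ∑' l, ind (S.av (!σ) l (s2 ++ [G]) ∧ S.gf (!(!σ)) (s2 ++ [G]) l ∧ S.FP (2 ^ a / 2) l) * S.w l) :=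
          mul_le_mul_right h3 _
      _ = (u * P G1) * ((W G * R s2 G) * Q G s3 t) := by simp only [hR]; ring
  refine e2.trans (le_of_eq ?_)
  -- factorization
  have e3 : ∑' s2, ∑' G, ∑' s3, ∑' t, (W G * R s2 G) * Q G s3 t =
      ∑' c, ind (2 ^ (j - 1) ≤ S.ht c) * (S.wt c * (S.ap (!σ) a b c * S.ap σ (j - 2) g c)) := by
    rw [ENNReal.tsum_comm]
    refine tsum_congr fun G => ?_
    have e4 : ∑' s2, R s2 G = S.ap (!σ) a b G := by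
      unfold ap
      rw [ENNReal.tsum_comm]
      refine tsum_congr fun s2 => ?_
      simp only [hR]
      rw [← ENNReal.tsum_mul_left]
      refine tsum_congr fun l => ?_
      have h5 : ind (Nat.size (S.h s2) = b) * S.w s2 *
            (ind (S.av (!σ) l (s2 ++ [G]) ∧ S.gf (!(!σ)) (s2 ++ [G]) l ∧ S.FP (2 ^ a / 2) l) * S.w l) =
          (ind (S.av (!σ) l (s2 ++ [G]) ∧ S.gf (!(!σ)) (s2 ++ [G]) l ∧ S.FP (2 ^ a / 2) l) *
            ind (Nat.size (S.h s2) = b)) * (S.w l * S.w s2) := by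
        ring
      rw [h5, ← ind_and]
      congr 1
      exact ind_congr (by rw [and_assoc, and_assoc])
    have h2j : 2 ^ (j - 2) / 2 = 2 ^ (j - 3) := by
      have : j - 2 = (j - 3) + 1 := by omega
      rw [this, pow_succ, Nat.mul_div_cancel _ (by norm_num)]
    have e5 : ∑' s3, ∑' t, Q G s3 t = S.ap σ (j - 2) g G := by
      unfold ap
      rw [ENNReal.tsum_comm, h2j]
    calc ∑' s2, ∑' s3, ∑' t, (W G * R s2 G) * Q G s3 t = ∑' s2, (W G * R s2 G) * ∑' s3, ∑' t, Q G s3 t := by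
          refine tsum_congr fun s2 => ?_
          rw [← ENNReal.tsum_mul_left]
          exact tsum_congr fun s3 => ENNReal.tsum_mul_left
      _ = (∑' s2, W G * R s2 G) * S.ap σ (j - 2) g G := by rw [e5, ENNReal.tsum_mul_right]
      _ = W G * (S.ap (!σ) a b G * S.ap σ (j - 2) g G) := by rw [ENNReal.tsum_mul_left, e4, mul_assoc]
      _ = _ := by simp only [hW]; rw [mul_assoc]
  calc ∑' G1, ∑' s2, ∑' G, ∑' s3, ∑' t, (u * P G1) * ((W G * R s2 G) * Q G s3 t)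
      = ∑' G1, (u * P G1) * ∑' s2, ∑' G, ∑' s3, ∑' t, (W G * R s2 G) * Q G s3 t := by
        refine tsum_congr fun G1 => ?_
        rw [← ENNReal.tsum_mul_left]
        refine tsum_congr fun s2 => ?_
        rw [← ENNReal.tsum_mul_left]
        refine tsum_congr fun G => ?_
        rw [← ENNReal.tsum_mul_left]
        refine tsum_congr fun s3 => ?_
        rw [← ENNReal.tsum_mul_left]
    _ = (∑' G1, u * P G1) * ∑' s2, ∑' G, ∑' s3, ∑' t, (W G * R s2 G) * Q G s3 t := ENNReal.tsum_mul_right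
    _ = _ := by rw [ENNReal.tsum_mul_left, e3, mul_assoc, ← Lam_pow]

theorem mB_le {κ θ τ : ℝ≥0∞} (hq : S.Rq κ θ) (h1 : θ < τ) (h2 : τ < 1) : ∃ C : ℝ≥0∞, C ≠ ⊤ ∧
    ∀ (K : ℝ≥0∞) (σ : Bool) (j k a b g : ℕ), 3 ≤ j → b < a → a ≤ j - 3 → g ≤ j - 3 → S.Fz K θ τ (j - 3) →
      S.mB σ j k a b g ≤ C * K ^ 2 * θ ^ (3 * j) * (θ ^ (a - (k + 2)) * τ ^ (j - 1 - b) * τ ^ (j - 1 - g)) := by
  obtain ⟨C, hC, hdbl⟩ := dbl_le hq
  refine ⟨κ * κ * C * θ⁻¹ ^ 3, ?_, ?_⟩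
  · exact ENNReal.mul_ne_top (ENNReal.mul_ne_top (ENNReal.mul_ne_top hq.kt hq.kt) hC)
      (ENNReal.pow_ne_top (ENNReal.inv_ne_top.2 hq.th_ne_zero))
  intro K σ j k a b g hj hba haj hgj hF
  have hD := hdbl K τ (j - 3) h1 hF (!σ) σ a b (j - 2) g (j - 1) (by omega) (by omega) (by omega) (by omega)
    (by omega) (by omega)
  set D : ℝ≥0∞ := ∑' c, ind (2 ^ (j - 1) ≤ S.ht c) * (S.wt c * (S.ap (!σ) a b c * S.ap σ (j - 2) g c)) with hDdef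
  have hθ1 : θ ≤ 1 := hq.th_lt.le
  -- `θ ^ (3 j) θ⁻¹ ^ 3 = θ ^ (3 (j - 1))`
  have hth : θ ^ (3 * j) * θ⁻¹ ^ 3 = θ ^ (3 * (j - 1)) := by
    have : 3 * j = 3 * (j - 1) + 3 := by omega
    rw [this, pow_add, mul_assoc, ← mul_pow, ENNReal.mul_inv_cancel hq.th_ne_zero hq.th_ne_top, one_pow, mul_one]
  have hLam : S.Lam (2 ^ (j - 1) - 1) ≤ κ * θ ^ (3 * (j - 1)) := hq.Lam_le (j - 1)
  have hm := mB_le_D hq.anti σ j k a b g hj
  rw [← hDdef] at hm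
  have hUa := hq.U_min a (k + 2)
  -- first bound
  have b1 : S.mB σ j k a b g ≤ (κ * κ * C * K ^ 2 * θ ^ (3 * (j - 1))) * (θ ^ (a - (k + 2)) * τ ^ (j - 1 - b)) ^ 2 := by
    have h3 : θ ^ (3 * (a - (k + 2))) ≤ θ ^ (2 * (a - (k + 2))) := pow_le_pow_right_of_le_one' hθ1 (by omega)
    calc S.mB σ j k a b g ≤ S.U (2 ^ min a (k + 2)) * (S.Lam (2 ^ (j - 1) - 1) * D) := hm
      _ ≤ S.U (2 ^ min a (k + 2)) * ((κ * θ ^ (3 * (j - 1))) * (C * K ^ 2 * (θ ^ (3 * a) * τ ^ (2 * (j - 1 - b))))) :=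
          mul_le_mul_right (mul_le_mul' hLam hD.1) _
      _ = (θ ^ (3 * a) * S.U (2 ^ min a (k + 2))) * (κ * C * K ^ 2 * θ ^ (3 * (j - 1)) * τ ^ (2 * (j - 1 - b))) := by
          ring
      _ ≤ (κ * θ ^ (2 * (a - (k + 2)))) * (κ * C * K ^ 2 * θ ^ (3 * (j - 1)) * τ ^ (2 * (j - 1 - b))) :=
          mul_le_mul_left (hUa.trans (mul_le_mul_right h3 _)) _
      _ = _ := by rw [mul_comm 2 (a - (k + 2)), mul_comm 2 (j - 1 - b), pow_mul, pow_mul]; ring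
  have b2 : S.mB σ j k a b g ≤ (κ * κ * C * K ^ 2 * θ ^ (3 * (j - 1))) * (τ ^ (j - 1 - g)) ^ 2 := by
    have h3 : θ ^ (3 * (j - 2)) * S.U (2 ^ min a (k + 2)) ≤ κ := by
      have h4 : θ ^ (3 * (j - 2)) ≤ θ ^ (3 * a) := pow_le_pow_right_of_le_one' hθ1 (by omega)
      refine (mul_le_mul_left h4 _).trans (hUa.trans ?_)
      calc κ * θ ^ (3 * (a - (k + 2))) ≤ κ * 1 := mul_le_mul_right (pow_le_one' hθ1 _) _
        _ = κ := mul_one _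
    calc S.mB σ j k a b g ≤ S.U (2 ^ min a (k + 2)) * (S.Lam (2 ^ (j - 1) - 1) * D) := hm
      _ ≤ S.U (2 ^ min a (k + 2)) * ((κ * θ ^ (3 * (j - 1))) * (C * K ^ 2 * (θ ^ (3 * (j - 2)) * τ ^ (2 * (j - 1 - g))))) :=
          mul_le_mul_right (mul_le_mul' hLam hD.2) _
      _ = (θ ^ (3 * (j - 2)) * S.U (2 ^ min a (k + 2))) * (κ * C * K ^ 2 * θ ^ (3 * (j - 1)) * τ ^ (2 * (j - 1 - g))) := by
          ring
      _ ≤ κ * (κ * C * K ^ 2 * θ ^ (3 * (j - 1)) * τ ^ (2 * (j - 1 - g))) := mul_le_mul_left h3 _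
      _ = _ := by rw [mul_comm 2 (j - 1 - g), pow_mul]; ring
  refine (R2.min_sq b1 b2).trans (le_of_eq ?_)
  rw [← hth]
  ring

end Sys

end Pool.Agent.HEP
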