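import Pool.Agent.PLY.R2.Fold

/-!
Project PLY, RETURN ESTIMATE, module CaseR: case R (the strand between the two turning points has a renewal outside the two zones).

PAPER PROOF. In `trR` bound the inner sum by `Rq.pair_le` with `A = h l1`, `B = h l2 + h l3`: `(inner) θ ^ (2j) ≤ C 2 ^ i`. The outer sum factorizes:
`(∑ ind (av σ l2 l1, FP, FP) w l1 w l2) (∑ ind (av σ t l3, FP, FP) w l3 w t) = fa (2 ^ (j-3) - 1) ^ 2 ≤ (K θ ^ (3 (j-3))) ^ 2` (`fa_av`, `Fz.full (j-3)`). So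
`trR θ ^ (2j) ≤ C 2 ^ i K² θ ^ (6j) θ⁻¹ ^ 18`, hence `trR ≤ C' 2 ^ i K² θ ^ (4j) = C' K² θ ^ (4 (j-i))` (`two_pow_th`: `2 ^ i θ ^ (4 i) = 1`; cancel `θ ^ (2j) ≠ 0, ⊤`).
-/

namespace Pool.Agent.HEP

open scoped ENNReal
open Finset

namespace Sys

variable {S : Sys}

theorem trR_le {κ θ : ℝ≥0∞} (hq : S.Rq κ θ) : ∃ C : ℝ≥0∞, C ≠ ⊤ ∧ ∀ (K τ : ℝ≥0∞) (σ : Bool) (i j : ℕ), i ≤ j → 3 ≤ j →
    S.Fz K θ τ (j - 3) → S.trR σ i j ≤ C * K ^ 2 * θ ^ (4 * (j - i)) := by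
  obtain ⟨C, hC, hp⟩ := hq.pair_le
  have ht0 := hq.th_ne_zero
  have ht1 := hq.th_ne_top
  refine ⟨C * θ⁻¹ ^ 18, ENNReal.mul_ne_top hC (ENNReal.pow_ne_top (ENNReal.inv_ne_top.2 ht0)), ?_⟩
  intro K τ σ i j hij hj hF
  have hfull := hF.full (j - 3) le_rfl
  -- the two folds
  have hf1 := S.fa_av σ (j - 3)
  -- the inner sum
  have hin : ∀ l1 l2 l3 : List S.B, (∑' R1, ∑' R, ind (S.h l1 + S.h R1 < 2 ^ (j + 1) ∧
      S.h l1 + S.h R1 ≤ S.h l2 + S.h R + S.h l3 + 2 ^ i ∧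
      S.h l2 + S.h R + S.h l3 ≤ S.h l1 + S.h R1 + 2 ^ i) * (S.w R1 * S.w R)) * θ ^ (2 * j) ≤ C * 2 ^ i := by
    intro l1 l2 l3
    have h := hp (S.h l1) (S.h l2 + S.h l3) i j hij
    have e : ∀ R : List S.B, S.h l2 + S.h R + S.h l3 = S.h l2 + S.h l3 + S.h R := fun R => by ring
    simp only [e]
    exact h
  have hmain : S.trR σ i j * θ ^ (2 * j) ≤ C * 2 ^ i * (S.fa (2 ^ (j - 3) - 1) * S.fa (2 ^ (j - 3) - 1)) := by
    have e2 : S.fa (2 ^ (j - 3) - 1) * S.fa (2 ^ (j - 3) - 1) =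
        ∑' l1, ∑' l2, ∑' l3, ∑' t, (ind (S.av σ l2 l1 ∧ S.FP (2 ^ (j - 3)) l2 ∧ S.FP (2 ^ (j - 3)) l1) * (S.w l2 * S.w l1)) *
          (ind (S.av σ t l3 ∧ S.FP (2 ^ (j - 3)) t ∧ S.FP (2 ^ (j - 3)) l3) * (S.w t * S.w l3)) := by
      rw [hf1]
      conv_lhs => 
        enter [1]
        rw [ENNReal.tsum_comm]
      conv_lhs => 
        enter [2]
        rw [ENNReal.tsum_comm]
      rw [← ENNReal.tsum_mul_right]
      refine tsum_congr fun l1 => ?_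
      rw [← ENNReal.tsum_mul_right]
      refine tsum_congr fun l2 => ?_
      rw [← ENNReal.tsum_mul_left]
      refine tsum_congr fun l3 => ?_
      rw [← ENNReal.tsum_mul_left]
    rw [e2, trR, ← ENNReal.tsum_mul_right, ← ENNReal.tsum_mul_left]
    refine ENNReal.tsum_le_tsum fun l1 => ?_
    rw [← ENNReal.tsum_mul_right, ← ENNReal.tsum_mul_left]
    refine ENNReal.tsum_le_tsum fun l2 => ?_
    rw [← ENNReal.tsum_mul_right, ← ENNReal.tsum_mul_left]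
    refine ENNReal.tsum_le_tsum fun l3 => ?_
    rw [← ENNReal.tsum_mul_right, ← ENNReal.tsum_mul_left]
    refine ENNReal.tsum_le_tsum fun t => ?_
    have h := hin l1 l2 l3
    set I := ∑' R1, ∑' R, ind (S.h l1 + S.h R1 < 2 ^ (j + 1) ∧
      S.h l1 + S.h R1 ≤ S.h l2 + S.h R + S.h l3 + 2 ^ i ∧
      S.h l2 + S.h R + S.h l3 ≤ S.h l1 + S.h R1 + 2 ^ i) * (S.w R1 * S.w R) with hI
    have hind : ind (S.av σ l2 l1 ∧ S.av σ t l3 ∧ S.FP (2 ^ (j - 3)) l1 ∧ S.FP (2 ^ (j - 3)) l2 ∧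
        S.FP (2 ^ (j - 3)) l3 ∧ S.FP (2 ^ (j - 3)) t) =
        ind (S.av σ l2 l1 ∧ S.FP (2 ^ (j - 3)) l2 ∧ S.FP (2 ^ (j - 3)) l1) *
          ind (S.av σ t l3 ∧ S.FP (2 ^ (j - 3)) t ∧ S.FP (2 ^ (j - 3)) l3) := by
      rw [← ind_and]
      exact ind_congr (by tauto)
    rw [hind]
    set X := ind (S.av σ l2 l1 ∧ S.FP (2 ^ (j - 3)) l2 ∧ S.FP (2 ^ (j - 3)) l1)
    set Y := ind (S.av σ t l3 ∧ S.FP (2 ^ (j - 3)) t ∧ S.FP (2 ^ (j - 3)) l3)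
    calc X * Y * (S.w l1 * S.w l2 * S.w l3 * S.w t) * I * θ ^ (2 * j)
        = (I * θ ^ (2 * j)) * ((X * (S.w l2 * S.w l1)) * (Y * (S.w t * S.w l3))) := by ring
      _ ≤ _ := by gcongr
  have h18 : θ ^ 18 * θ⁻¹ ^ 18 = 1 := by
    rw [← mul_pow, ENNReal.mul_inv_cancel ht0 ht1, one_pow]
  have hfin : S.trR σ i j * θ ^ (2 * j) ≤ C * θ⁻¹ ^ 18 * K ^ 2 * θ ^ (4 * (j - i)) * θ ^ (2 * j) := by
    calc S.trR σ i j * θ ^ (2 * j)
        ≤ C * 2 ^ i * ((K * θ ^ (3 * (j - 3))) * (K * θ ^ (3 * (j - 3)))) := by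
          refine hmain.trans ?_
          gcongr
      _ = C * K ^ 2 * (2 ^ i * (θ ^ (3 * (j - 3)) * θ ^ (3 * (j - 3)))) := by ring
      _ = C * K ^ 2 * (2 ^ i * (θ ^ (3 * (j - 3)) * θ ^ (3 * (j - 3))) * (θ ^ 18 * θ⁻¹ ^ 18)) := by
          rw [h18, mul_one]
      _ = C * θ⁻¹ ^ 18 * K ^ 2 * (2 ^ i * θ ^ (6 * j)) := by
          have e : 6 * j = 3 * (j - 3) + 3 * (j - 3) + 18 := by omega
          rw [e, pow_add, pow_add]
          ring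
      _ = C * θ⁻¹ ^ 18 * K ^ 2 * ((2 ^ i * θ ^ (4 * i)) * (θ ^ (4 * (j - i)) * θ ^ (2 * j))) := by
          have e : 6 * j = 4 * i + 4 * (j - i) + 2 * j := by omega
          rw [e, pow_add, pow_add]
          ring
      _ = C * θ⁻¹ ^ 18 * K ^ 2 * θ ^ (4 * (j - i)) * θ ^ (2 * j) := by
          rw [hq.two_pow_th, one_mul]
          ring
  exact (ENNReal.mul_le_mul_iff_left (pow_ne_zero _ ht0) (ENNReal.pow_ne_top ht1)).1 hfin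

end Sys

end Pool.Agent.HEP
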