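import Mathlib

/-!
Project PLY (MP_8c6f77_pr, honeycomb lattice, polynomial bound), TWO-SIDED PART, ROUTE A (notes 3092, 3094, 3095): THE CLOSING LEMMA, pure analysis.

`m`, `j`, `y`, `r` are dyadic exponents. `L j = Lam (2 ^ j)` (up to constants), `T m j` = mass of (mirror pair, block of height `≥ 2 ^ j`,
fresh continuation which avoids the block up to the level `2 ^ m`), `Y m j y` = mass of the blocks of height `≥ 2 ^ j` which come back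
below `2 ^ y` after they have reached `2 ^ m`, `ρ` = decay of Lemma G per scale, `s ≥ 1` = growth factor of Lemma G in the height of the block,
`θ` = decay of `Y`, `s ^ 3 * θ < 1`. `t` = weight (note 3095): it replaces an a priori bound for the supremum of `T m j / L j`
(only `K (m + 1)` is known a priori), the constants do not depend on `t`.
-/

namespace Pool.Agent.HEP

open scoped ENNReal Topology
open Finset Filter

/-- Interpolation. -/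
lemma clo_min (a b : ℝ≥0∞) : min a b ≤ a ^ (3 / 4 : ℝ) * b ^ (1 / 4 : ℝ) := by
  have h : min a b = (min a b) ^ (3 / 4 : ℝ) * (min a b) ^ (1 / 4 : ℝ) := by
    rw [← ENNReal.rpow_add_of_nonneg _ _ (by norm_num) (by norm_num)]
    norm_num
  rw [h]
  exact mul_le_mul' (ENNReal.rpow_le_rpow (min_le_left _ _) (by norm_num))
    (ENNReal.rpow_le_rpow (min_le_right _ _) (by norm_num))

lemma clo_pow (x : ℝ≥0∞) (n : ℕ) (e : ℝ) : (x ^ n) ^ e = (x ^ e) ^ n := by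
  rw [← ENNReal.rpow_natCast, ← ENNReal.rpow_natCast, ← ENNReal.rpow_mul, ← ENNReal.rpow_mul, mul_comm]

/-- The double sum. -/
lemma clo_sum {ρ β : ℝ≥0∞} (hρ : ρ < 1) (hβ : β < 1) : ∃ C : ℝ≥0∞, C ≠ ⊤ ∧
    ∀ m : ℕ, ∑ y ∈ range (m + 1), ∑ r ∈ range (m + 1), ρ ^ (y - r) * β ^ (m - y) ≤ C := by
  set γ : ℝ≥0∞ := max ρ β with hγ
  have hγ1 : γ < 1 := max_lt hρ hβ
  set δ : ℝ≥0∞ := γ ^ (1 / 2 : ℝ) with hδ
  have hδ2 : δ ^ 2 = γ := by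
    rw [hδ, ← ENNReal.rpow_natCast, ← ENNReal.rpow_mul]
    norm_num
  have hδ1 : δ < 1 := ENNReal.rpow_lt_one hγ1 (by norm_num)
  refine ⟨(1 - δ)⁻¹ * (1 - δ)⁻¹, ?_, ?_⟩
  · have : (1 - δ)⁻¹ ≠ ⊤ := ENNReal.inv_ne_top.2 (tsub_pos_of_lt hδ1).ne'
    exact ENNReal.mul_ne_top this this
  intro m
  have h1 : ∀ y ∈ range (m + 1), ∀ r ∈ range (m + 1), ρ ^ (y - r) * β ^ (m - y) ≤ δ ^ (m - r) * δ ^ (m - y) := by
    intro y hy r hr
    rw [mem_range] at hy hr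
    calc ρ ^ (y - r) * β ^ (m - y) ≤ γ ^ (y - r) * γ ^ (m - y) :=
          mul_le_mul' (pow_le_pow_left' (le_max_left _ _) _) (pow_le_pow_left' (le_max_right _ _) _)
      _ = δ ^ (2 * ((y - r) + (m - y))) := by rw [← pow_add, ← hδ2, ← pow_mul]
      _ ≤ δ ^ ((m - r) + (m - y)) := pow_le_pow_right_of_le_one' hδ1.le (by omega)
      _ = δ ^ (m - r) * δ ^ (m - y) := pow_add _ _ _
  have h2 : ∑ k ∈ range (m + 1), δ ^ (m - k) ≤ (1 - δ)⁻¹ := by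
    rw [← ENNReal.tsum_geometric]
    calc ∑ k ∈ range (m + 1), δ ^ (m - k) = ∑ k ∈ range (m + 1), δ ^ k := by
          rw [← Finset.sum_range_reflect (fun k => δ ^ k) (m + 1)]
          exact Finset.sum_congr rfl fun k _ => by congr 1
      _ ≤ ∑' k, δ ^ k := ENNReal.sum_le_tsum _
  calc ∑ y ∈ range (m + 1), ∑ r ∈ range (m + 1), ρ ^ (y - r) * β ^ (m - y) ≤
        ∑ y ∈ range (m + 1), ∑ r ∈ range (m + 1), δ ^ (m - r) * δ ^ (m - y) :=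
        Finset.sum_le_sum fun y hy => Finset.sum_le_sum fun r hr => h1 y hy r hr
    _ = (∑ r ∈ range (m + 1), δ ^ (m - r)) * ∑ y ∈ range (m + 1), δ ^ (m - y) := by
        rw [Finset.sum_comm, Finset.sum_mul_sum]
    _ ≤ (1 - δ)⁻¹ * (1 - δ)⁻¹ := mul_le_mul' h2 h2

/-- A priori: `m + 1 ≤ Z t ^ m`. -/
lemma clo_ap {t : ℝ≥0∞} (ht : 1 < t) : ∃ Z : ℝ≥0∞, 1 ≤ Z ∧ Z ≠ ⊤ ∧ ∀ m : ℕ, (m : ℝ≥0∞) + 1 ≤ Z * t ^ m := by
  obtain ⟨a, ha0, ha1, hat⟩ : ∃ a : ℝ≥0∞, a ≠ 0 ∧ a ≠ ⊤ ∧ 1 + a ≤ t := by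
    refine ⟨min 1 (t - 1), ?_, ?_, ?_⟩
    · exact (lt_min one_pos (tsub_pos_of_lt ht)).ne'
    · exact ne_top_of_le_ne_top ENNReal.one_ne_top (min_le_left _ _)
    · calc 1 + min 1 (t - 1) ≤ 1 + (t - 1) := by gcongr; exact min_le_right _ _
        _ = t := add_tsub_cancel_of_le ht.le
  have hb : ∀ m : ℕ, 1 + (m : ℝ≥0∞) * a ≤ (1 + a) ^ m := by
    intro m
    induction m with
    | zero => simp
    | succ m ih =>
      rw [pow_succ]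
      calc 1 + ((m + 1 : ℕ) : ℝ≥0∞) * a = (1 + (m : ℝ≥0∞) * a) * 1 + 1 * a := by push_cast; ring
        _ ≤ (1 + (m : ℝ≥0∞) * a) * 1 + (1 + (m : ℝ≥0∞) * a) * a := by gcongr; exact le_self_add
        _ = (1 + (m : ℝ≥0∞) * a) * (1 + a) := by rw [mul_add]
        _ ≤ (1 + a) ^ m * (1 + a) := by gcongr
  refine ⟨1 + a⁻¹, le_self_add, ?_, fun m => ?_⟩
  · exact ENNReal.add_ne_top.2 ⟨ENNReal.one_ne_top, ENNReal.inv_ne_top.2 ha0⟩
  calc (m : ℝ≥0∞) + 1 = a⁻¹ * ((m : ℝ≥0∞) * a) + 1 := by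
        rw [mul_comm (m : ℝ≥0∞) a, ← mul_assoc, ENNReal.inv_mul_cancel ha0 ha1, one_mul]
    _ ≤ a⁻¹ * (1 + (m : ℝ≥0∞) * a) + 1 * (1 + (m : ℝ≥0∞) * a) := by
        rw [one_mul]
        exact add_le_add (mul_le_mul' le_rfl le_add_self) le_self_add
    _ = (1 + a⁻¹) * (1 + (m : ℝ≥0∞) * a) := by rw [← add_mul, add_comm a⁻¹]
    _ ≤ (1 + a⁻¹) * t ^ m := mul_le_mul' le_rfl ((hb m).trans (pow_le_pow_left' hat m))

lemma clo_lim {Z : ℝ≥0∞} (hZ1 : 1 ≤ Z) (hZt : Z ≠ ⊤) :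
    Tendsto (fun n : ℕ => Z ^ ((1 / 2 : ℝ) ^ n)) atTop (𝓝 1) := by
  have h6 : Tendsto (fun n : ℕ => (1 / 2 : ℝ) ^ n) atTop (𝓝 0) :=
    tendsto_pow_atTop_nhds_zero_of_lt_one (by norm_num) (by norm_num)
  lift Z to NNReal using hZt
  have h7 : (Z : NNReal) ≠ 0 := by
    rintro h
    rw [h] at hZ1
    simp at hZ1
  have h8 : Tendsto (fun n : ℕ => Z ^ ((1 / 2 : ℝ) ^ n)) atTop (𝓝 (Z ^ (0 : ℝ))) := by
    have := (NNReal.continuousAt_rpow (x := Z) (y := 0) (Or.inl h7)).tendsto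
    exact this.comp (tendsto_const_nhds.prodMk_nhds h6)
  rw [NNReal.rpow_zero] at h8
  have h9 := ENNReal.tendsto_coe.2 h8
  refine Tendsto.congr (fun n => ?_) h9
  rw [ENNReal.coe_rpow_of_nonneg _ (by positivity)]

lemma clo_tm (m : ℕ) : Tendsto (fun n : ℕ => (1 + ((n : ℝ≥0∞))⁻¹) ^ m) atTop (𝓝 1) := by
  have h1 : Tendsto (fun n : ℕ => (1 : ℝ≥0∞) + ((n : ℝ≥0∞))⁻¹) atTop (𝓝 (1 + 0)) :=
    tendsto_const_nhds.add ENNReal.tendsto_inv_nat_nhds_zero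
  rw [add_zero] at h1
  have h2 := ENNReal.Tendsto.pow (n := m) h1
  rwa [one_pow] at h2

/-- THE CLOSING LEMMA. -/
theorem clo {T : ℕ → ℕ → ℝ≥0∞} {Y : ℕ → ℕ → ℕ → ℝ≥0∞} {L : ℕ → ℝ≥0∞} {K ρ s θ t₀ : ℝ≥0∞}
    (hK : K ≠ ⊤) (hL : ∀ j, L j ≠ ⊤) (hρ : ρ < 1) (hs : s ≠ ⊤) (hsθ : s ^ 3 * θ < 1) (ht₀ : 1 < t₀)
    (h0 : ∀ m j, m ≤ j → T m j ≤ K * ((m : ℝ≥0∞) + 1) * s ^ (j - m) * L j)
    (h1 : ∀ m j, m ≤ j → T m j ≤
      K * ∑ y ∈ range (m + 1), ∑ r ∈ range (m + 1), min (K * ρ ^ (y - r) * s ^ (j - y) * L j) (Y m j y))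
    (h2 : ∀ X t : ℝ≥0∞, 1 ≤ X → X ≠ ⊤ → 1 < t → t ≤ t₀ →
      (∀ m j, m ≤ j → T m j ≤ X * t ^ m * s ^ (j - m) * L j) →
      ∀ m j y, y ≤ m → m ≤ j → Y m j y ≤ K * X ^ 2 * t ^ (2 * m) * θ ^ (m - y) * s ^ (j - m) * L j) :
    ∃ C : ℝ≥0∞, C ≠ ⊤ ∧ ∀ m j, m ≤ j → T m j ≤ C * s ^ (j - m) * L j := by
  set ρ' : ℝ≥0∞ := ρ ^ (3 / 4 : ℝ) with hρ'
  set β : ℝ≥0∞ := s ^ (3 / 4 : ℝ) * θ ^ (1 / 4 : ℝ) with hβ
  have hρ1 : ρ' < 1 := ENNReal.rpow_lt_one hρ (by norm_num)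
  have hβ1 : β < 1 := by
    have : β = (s ^ 3 * θ) ^ (1 / 4 : ℝ) := by
      rw [hβ, ENNReal.mul_rpow_of_nonneg _ _ (by norm_num), ← ENNReal.rpow_natCast, ← ENNReal.rpow_mul]
      norm_num
    rw [this]
    exact ENNReal.rpow_lt_one hsθ (by norm_num)
  obtain ⟨C1, hC1, hsum⟩ := clo_sum hρ1 hβ1
  set C2 : ℝ≥0∞ := max 1 (K * K * C1) with hC2
  have hC2t : C2 ≠ ⊤ := by
    rw [hC2]
    exact (max_lt ENNReal.one_lt_top (ENNReal.mul_lt_top (ENNReal.mul_lt_top hK.lt_top hK.lt_top) hC1.lt_top)).ne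
  have hC21 : 1 ≤ C2 := le_max_left _ _
  -- one step
  have step : ∀ X t : ℝ≥0∞, 1 ≤ X → X ≠ ⊤ → 1 < t → t ≤ t₀ →
      (∀ m j, m ≤ j → T m j ≤ X * t ^ m * s ^ (j - m) * L j) →
      ∀ m j, m ≤ j → T m j ≤ C2 * X ^ (1 / 2 : ℝ) * t ^ m * s ^ (j - m) * L j := by
    intro X t hX hXt ht ht' hT m j hmj
    have hY := h2 X t hX hXt ht ht' hT
    set W : ℝ≥0∞ := s ^ (j - m) * L j with hW
    have hterm : ∀ y ∈ range (m + 1), ∀ r ∈ range (m + 1),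
        min (K * ρ ^ (y - r) * s ^ (j - y) * L j) (Y m j y) ≤
          K * W * (X ^ (1 / 2 : ℝ) * t ^ m) * (ρ' ^ (y - r) * β ^ (m - y)) := by
      intro y hy r hr
      rw [mem_range] at hy hr
      have e1 : K * ρ ^ (y - r) * s ^ (j - y) * L j = K * W * (ρ ^ (y - r) * s ^ (m - y)) := by
        rw [hW, show j - y = (j - m) + (m - y) by omega, pow_add]; ring
      have e2 : Y m j y ≤ K * W * (X ^ 2 * t ^ (2 * m) * θ ^ (m - y)) := by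
        refine (hY m j y (by omega) hmj).trans (le_of_eq ?_)
        rw [hW]; ring
      rw [e1]
      refine (min_le_min le_rfl e2).trans ?_
      refine (clo_min _ _).trans ?_
      rw [ENNReal.mul_rpow_of_nonneg (K * W) (ρ ^ (y - r) * s ^ (m - y)) (by norm_num : (0 : ℝ) ≤ 3 / 4),
        ENNReal.mul_rpow_of_nonneg (K * W) _ (by norm_num : (0 : ℝ) ≤ 1 / 4)]
      have e3 : (K * W) ^ (3 / 4 : ℝ) * (K * W) ^ (1 / 4 : ℝ) = K * W := by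
        rw [← ENNReal.rpow_add_of_nonneg _ _ (by norm_num) (by norm_num)]
        norm_num
      have e4 : (ρ ^ (y - r) * s ^ (m - y)) ^ (3 / 4 : ℝ) = ρ' ^ (y - r) * (s ^ (3 / 4 : ℝ)) ^ (m - y) := by
        rw [ENNReal.mul_rpow_of_nonneg _ _ (by norm_num), clo_pow, clo_pow]
      have e5 : (X ^ 2 * t ^ (2 * m) * θ ^ (m - y)) ^ (1 / 4 : ℝ) =
          X ^ (1 / 2 : ℝ) * (t ^ (1 / 2 : ℝ)) ^ m * (θ ^ (1 / 4 : ℝ)) ^ (m - y) := by
        rw [ENNReal.mul_rpow_of_nonneg _ _ (by norm_num), ENNReal.mul_rpow_of_nonneg _ _ (by norm_num), clo_pow θ]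
        congr 2
        · rw [← ENNReal.rpow_natCast, ← ENNReal.rpow_mul]
          norm_num
        · rw [pow_mul, clo_pow]
          congr 1
          rw [← ENNReal.rpow_natCast, ← ENNReal.rpow_mul]
          norm_num
      have e6 : (t ^ (1 / 2 : ℝ)) ^ m ≤ t ^ m := by
        refine pow_le_pow_left' ?_ m
        calc t ^ (1 / 2 : ℝ) ≤ t ^ (1 : ℝ) := ENNReal.rpow_le_rpow_of_exponent_le ht.le (by norm_num)
          _ = t := ENNReal.rpow_one t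
      rw [e4, e5]
      calc (K * W) ^ (3 / 4 : ℝ) * (ρ' ^ (y - r) * (s ^ (3 / 4 : ℝ)) ^ (m - y)) *
            ((K * W) ^ (1 / 4 : ℝ) * (X ^ (1 / 2 : ℝ) * (t ^ (1 / 2 : ℝ)) ^ m * (θ ^ (1 / 4 : ℝ)) ^ (m - y))) =
            ((K * W) ^ (3 / 4 : ℝ) * (K * W) ^ (1 / 4 : ℝ)) * (X ^ (1 / 2 : ℝ) * (t ^ (1 / 2 : ℝ)) ^ m) *
              (ρ' ^ (y - r) * ((s ^ (3 / 4 : ℝ)) ^ (m - y) * (θ ^ (1 / 4 : ℝ)) ^ (m - y))) := by ring
        _ = K * W * (X ^ (1 / 2 : ℝ) * (t ^ (1 / 2 : ℝ)) ^ m) * (ρ' ^ (y - r) * β ^ (m - y)) := by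
            rw [e3, ← mul_pow]
        _ ≤ K * W * (X ^ (1 / 2 : ℝ) * t ^ m) * (ρ' ^ (y - r) * β ^ (m - y)) := by gcongr
    calc T m j ≤ K * ∑ y ∈ range (m + 1), ∑ r ∈ range (m + 1),
          min (K * ρ ^ (y - r) * s ^ (j - y) * L j) (Y m j y) := h1 m j hmj
      _ ≤ K * ∑ y ∈ range (m + 1), ∑ r ∈ range (m + 1),
          K * W * (X ^ (1 / 2 : ℝ) * t ^ m) * (ρ' ^ (y - r) * β ^ (m - y)) :=
          mul_le_mul' le_rfl (Finset.sum_le_sum fun y hy => Finset.sum_le_sum fun r hr => hterm y hy r hr)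
      _ = K * (K * W * (X ^ (1 / 2 : ℝ) * t ^ m) *
          ∑ y ∈ range (m + 1), ∑ r ∈ range (m + 1), ρ' ^ (y - r) * β ^ (m - y)) := by
          simp only [← Finset.mul_sum]
      _ ≤ K * (K * W * (X ^ (1 / 2 : ℝ) * t ^ m) * C1) := by gcongr; exact hsum m
      _ = (K * K * C1) * X ^ (1 / 2 : ℝ) * t ^ m * W := by ring
      _ ≤ C2 * X ^ (1 / 2 : ℝ) * t ^ m * W := by gcongr; exact le_max_right _ _
      _ = C2 * X ^ (1 / 2 : ℝ) * t ^ m * s ^ (j - m) * L j := by rw [hW]; ring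
  -- fixed `t`
  have fix : ∀ t : ℝ≥0∞, 1 < t → t ≠ ⊤ → t ≤ t₀ → ∀ m j, m ≤ j →
      T m j ≤ C2 * C2 * t ^ m * s ^ (j - m) * L j := by
    intro t ht htt ht'
    obtain ⟨Z, hZ1, hZt, hZ⟩ := clo_ap ht
    set Z' : ℝ≥0∞ := max 1 (K * Z) with hZ'
    have hZ't : Z' ≠ ⊤ := (max_lt ENNReal.one_lt_top (ENNReal.mul_lt_top hK.lt_top hZt.lt_top)).ne
    have hZ'1 : 1 ≤ Z' := le_max_left _ _
    have it : ∀ n : ℕ, ∀ m j, m ≤ j →
        T m j ≤ C2 * C2 * Z' ^ ((1 / 2 : ℝ) ^ n) * t ^ m * s ^ (j - m) * L j := by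
      intro n
      induction n with
      | zero =>
        intro m j hmj
        rw [pow_zero, ENNReal.rpow_one]
        calc T m j ≤ K * ((m : ℝ≥0∞) + 1) * s ^ (j - m) * L j := h0 m j hmj
          _ ≤ K * (Z * t ^ m) * s ^ (j - m) * L j := by gcongr; exact hZ m
          _ = 1 * 1 * (K * Z) * t ^ m * s ^ (j - m) * L j := by ring
          _ ≤ C2 * C2 * Z' * t ^ m * s ^ (j - m) * L j := by
              gcongr
              exact le_max_right _ _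
      | succ n ih =>
        intro m j hmj
        have hpow1 : 1 ≤ Z' ^ ((1 / 2 : ℝ) ^ n) := ENNReal.one_le_rpow hZ'1 (by positivity)
        have hX1 : 1 ≤ C2 * C2 * Z' ^ ((1 / 2 : ℝ) ^ n) := by
          calc (1 : ℝ≥0∞) = 1 * 1 * 1 := by ring
            _ ≤ _ := by gcongr
        have hXt : C2 * C2 * Z' ^ ((1 / 2 : ℝ) ^ n) ≠ ⊤ :=
          ENNReal.mul_ne_top (ENNReal.mul_ne_top hC2t hC2t) (ENNReal.rpow_ne_top_of_nonneg (by positivity) hZ't)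
        refine (step _ t hX1 hXt ht ht' ih m j hmj).trans (le_of_eq ?_)
        congr 3
        rw [mul_assoc C2 C2]
        rw [mul_assoc C2 C2]
        congr 1
        rw [ENNReal.mul_rpow_of_nonneg _ _ (by norm_num), ENNReal.mul_rpow_of_nonneg _ _ (by norm_num),
          ← ENNReal.rpow_mul, ← mul_assoc, ← ENNReal.rpow_add_of_nonneg _ _ (by norm_num) (by norm_num)]
        norm_num [pow_succ]
    intro m j hmj
    have hlim : Tendsto (fun n : ℕ => C2 * C2 * Z' ^ ((1 / 2 : ℝ) ^ n) * t ^ m * s ^ (j - m) * L j) atTop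
        (𝓝 (C2 * C2 * 1 * t ^ m * s ^ (j - m) * L j)) := by
      have h5 := clo_lim hZ'1 hZ't
      have h6 := ENNReal.Tendsto.const_mul (a := C2 * C2) h5 (Or.inl one_ne_zero)
      have h7 := ENNReal.Tendsto.mul_const (b := t ^ m) h6 (Or.inr (ENNReal.pow_ne_top htt))
      have h8 := ENNReal.Tendsto.mul_const (b := s ^ (j - m)) h7 (Or.inr (ENNReal.pow_ne_top hs))
      exact ENNReal.Tendsto.mul_const (b := L j) h8 (Or.inr (hL j))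
    rw [mul_one] at hlim
    exact ge_of_tendsto' hlim fun n => it n m j hmj
  refine ⟨C2 * C2, ENNReal.mul_ne_top hC2t hC2t, fun m j hmj => ?_⟩
  have hlim : Tendsto (fun n : ℕ => C2 * C2 * (1 + ((n : ℝ≥0∞))⁻¹) ^ m * s ^ (j - m) * L j) atTop
      (𝓝 (C2 * C2 * 1 * s ^ (j - m) * L j)) := by
    have h6 := ENNReal.Tendsto.const_mul (a := C2 * C2) (clo_tm m) (Or.inl one_ne_zero)
    have h8 := ENNReal.Tendsto.mul_const (b := s ^ (j - m)) h6 (Or.inr (ENNReal.pow_ne_top hs))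
    exact ENNReal.Tendsto.mul_const (b := L j) h8 (Or.inr (hL j))
  rw [mul_one] at hlim
  have hev : ∀ᶠ n : ℕ in atTop, 1 + ((n : ℝ≥0∞))⁻¹ ≤ t₀ := by
    have h1 : Tendsto (fun n : ℕ => (1 : ℝ≥0∞) + ((n : ℝ≥0∞))⁻¹) atTop (𝓝 (1 + 0)) :=
      tendsto_const_nhds.add ENNReal.tendsto_inv_nat_nhds_zero
    rw [add_zero] at h1
    exact (h1.eventually (gt_mem_nhds ht₀)).mono fun n hn => le_of_lt hn
  refine ge_of_tendsto hlim ?_
  filter_upwards [hev, eventually_ge_atTop 1] with n hn hn1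
  have hn0 : (n : ℝ≥0∞) ≠ 0 := by
    rw [Nat.cast_ne_zero]; omega
  refine fix _ ?_ ?_ hn m j hmj
  · calc (1 : ℝ≥0∞) = 1 + 0 := (add_zero 1).symm
      _ < 1 + ((n : ℝ≥0∞))⁻¹ := by
        refine ENNReal.add_lt_add_left ENNReal.one_ne_top ?_
        exact ENNReal.inv_pos.2 (ENNReal.natCast_ne_top n)
  · exact ENNReal.add_ne_top.2 ⟨ENNReal.one_ne_top, ENNReal.inv_ne_top.2 hn0⟩

end Pool.Agent.HEP
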