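import Pool.Agent.PLY.R2.Clo

/-!
Project PLY (MP_8c6f77_pr, honeycomb lattice, polynomial bound), TWO-SIDED PART, ROUTE A: THE CLOSING LEMMA with decay per class (pure analysis).

`g ≤ n ≤ m` are dyadic exponents: `g` = class of the short leg, `n` = zone, `m` = height of the giant block, `u n = 1 / U (2 ^ n)`.
`M g n m` = mass of (mirror pair of class `g`, giant block, fresh continuation which avoids it up to the level `2 ^ n`), `Y n m j` = mass of the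
blocks of height `≥ 2 ^ m` which come back below `2 ^ j` after they have reached `2 ^ n`. `ρ₁`, `ρ₂` = rates of Lemma G and of `U`,
`θ` = rate of the return estimate, `t` = weight. ONE TURN OF THE LOOP: `(X, t) → (C X ^ (1/2), t ^ (1/2))`; start `(K, t₀)`, since `1 / t₀ ≤ ρ`.
-/

namespace Pool.Agent.HEP

open scoped ENNReal Topology
open Finset Filter

/-- Interpolation of three bounds. -/
lemma clo2_min {b : ℝ} (hb : 0 ≤ b) (hb' : b ≤ 3 / 4) (v p q : ℝ≥0∞) :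
    min v (min (p * v) (q * v)) ≤ p ^ b * q ^ (1 / 4 : ℝ) * v := by
  have h1 : min 1 (min p q) ≤ p ^ b * q ^ (1 / 4 : ℝ) := by
    set z : ℝ≥0∞ := min 1 (min p q) with hz
    have hz1 : z ≤ 1 := min_le_left _ _
    have hzp : z ≤ p := (min_le_right _ _).trans (min_le_left _ _)
    have hzq : z ≤ q := (min_le_right _ _).trans (min_le_right _ _)
    calc z = z ^ (1 : ℝ) := (ENNReal.rpow_one z).symm
      _ ≤ z ^ (b + 1 / 4) := ENNReal.rpow_le_rpow_of_exponent_ge hz1 (by linarith)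
      _ = z ^ b * z ^ (1 / 4 : ℝ) := ENNReal.rpow_add_of_nonneg _ _ hb (by norm_num)
      _ ≤ p ^ b * q ^ (1 / 4 : ℝ) :=
          mul_le_mul' (ENNReal.rpow_le_rpow hzp hb) (ENNReal.rpow_le_rpow hzq (by norm_num))
  calc min v (min (p * v) (q * v)) ≤ min 1 (min p q) * v := by
        rcases le_total 1 (min p q) with h | h
        · rw [min_eq_left h, one_mul]; exact min_le_left _ _
        · rw [min_eq_right h]
          refine (min_le_right _ _).trans ?_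
          rcases le_total p q with h' | h'
          · rw [min_eq_left h']; exact min_le_left _ _
          · rw [min_eq_right h']; exact min_le_right _ _
    _ ≤ p ^ b * q ^ (1 / 4 : ℝ) * v := mul_le_mul' h1 le_rfl

lemma clo2_exp {θ : ℝ≥0∞} (hθ : θ < 1) : ∃ b : ℝ, 0 < b ∧ b ≤ 3 / 4 ∧ (2 : ℝ≥0∞) ^ b * θ ^ (1 / 4 : ℝ) < 1 := by
  have h1 : θ ^ (1 / 4 : ℝ) < 1 := ENNReal.rpow_lt_one hθ (by norm_num)
  have h2 := clo_lim (Z := 2) (by norm_num) (by norm_num)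
  have h3 := ENNReal.Tendsto.mul_const (b := θ ^ (1 / 4 : ℝ)) h2 (Or.inl one_ne_zero)
  rw [one_mul] at h3
  have h4 := (h3.eventually (gt_mem_nhds h1)).and (eventually_ge_atTop 1)
  obtain ⟨n, hn, hn1⟩ := h4.exists
  refine ⟨(1 / 2 : ℝ) ^ n, by positivity, ?_, hn⟩
  calc (1 / 2 : ℝ) ^ n ≤ (1 / 2 : ℝ) ^ 1 := pow_le_pow_of_le_one (by norm_num) (by norm_num) hn1
    _ ≤ 3 / 4 := by norm_num

lemma clo2_half (n k : ℕ) (t : ℝ≥0∞) : ((t ^ ((1 / 2 : ℝ) ^ k)) ^ (1 / 2 : ℝ)) ^ n = (t ^ ((1 / 2 : ℝ) ^ (k + 1))) ^ n := by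
  rw [← ENNReal.rpow_mul, pow_succ]

/-- THE CLOSING LEMMA, decay per class. -/
theorem clo2 {ρ₁ ρ₂ θ t₀ : ℝ≥0∞} (h₁ : ρ₁ < 1) (h₂ : ρ₂ < 1) (hθ : θ < 1) (ht₀ : 1 < t₀) (ht₀t : t₀ ≠ ⊤) :
    ∃ ρ : ℝ≥0∞, ρ < 1 ∧ ρ₂ ≤ ρ ∧ ∀ (K : ℝ≥0∞) (u : ℕ → ℝ≥0∞) (M Y : ℕ → ℕ → ℕ → ℝ≥0∞), K ≠ ⊤ → (∀ n, u n ≠ ⊤) →
      (∀ g n m, g ≤ n → n ≤ m → M g n m ≤ K * ρ₂ ^ (m - n) * u n) →
      (∀ g n m, g ≤ n → n ≤ m → M g n m ≤ K * ∑ j ∈ range (n + 1),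
        min (ρ₂ ^ (m - n) * u n) (min (ρ₁ ^ (j - g) * 2 ^ (n - j) * ρ₂ ^ (m - n) * u n) (Y n m j))) →
      (∀ X t : ℝ≥0∞, 1 ≤ X → X ≠ ⊤ → 1 ≤ t → t ≤ t₀ →
        (∀ g n m, g ≤ n → n ≤ m → M g n m ≤ X * t ^ n * ρ ^ (m - g) * u n) →
        ∀ n m j, j ≤ n → n ≤ m → Y n m j ≤ K * X ^ 2 * t ^ (2 * n) * θ ^ (n - j) * ρ₂ ^ (m - n) * u n) →
      ∃ C : ℝ≥0∞, C ≠ ⊤ ∧ ∀ g n m, g ≤ n → n ≤ m → M g n m ≤ C * ρ ^ (m - g) * u n := by
  obtain ⟨b, hb, hb', hβ1⟩ := clo2_exp hθ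
  set β : ℝ≥0∞ := (2 : ℝ≥0∞) ^ b * θ ^ (1 / 4 : ℝ) with hβ
  set r : ℝ≥0∞ := ρ₁ ^ b with hr
  have hr1 : r < 1 := ENNReal.rpow_lt_one h₁ hb
  set γ : ℝ≥0∞ := max r β with hγ
  have hγ1 : γ < 1 := max_lt hr1 hβ1
  set δ : ℝ≥0∞ := γ ^ (1 / 2 : ℝ) with hδ
  have hδ2 : δ ^ 2 = γ := by
    rw [hδ, ← ENNReal.rpow_natCast, ← ENNReal.rpow_mul]
    norm_num
  have hδ1 : δ < 1 := ENNReal.rpow_lt_one hγ1 (by norm_num)
  have hit : t₀⁻¹ < 1 := ENNReal.inv_lt_one.2 ht₀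
  refine ⟨max ρ₂ (max t₀⁻¹ δ), max_lt h₂ (max_lt hit hδ1), le_max_left _ _, ?_⟩
  set ρ : ℝ≥0∞ := max ρ₂ (max t₀⁻¹ δ) with hρ
  have hρ2 : ρ₂ ≤ ρ := le_max_left _ _
  have hρt : t₀⁻¹ ≤ ρ := (le_max_left _ _).trans (le_max_right _ _)
  have hρδ : δ ≤ ρ := (le_max_right _ _).trans (le_max_right _ _)
  have hρ1 : ρ < 1 := max_lt h₂ (max_lt hit hδ1)
  intro K u M Y hK hu H0 H1 H2
  have hG : (1 - δ)⁻¹ ≠ ⊤ := ENNReal.inv_ne_top.2 (tsub_pos_of_lt hδ1).ne'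
  set C1 : ℝ≥0∞ := K * (K ^ (1 / 4 : ℝ) * (1 - δ)⁻¹) with hC1
  have hC1t : C1 ≠ ⊤ :=
    ENNReal.mul_ne_top hK (ENNReal.mul_ne_top (ENNReal.rpow_ne_top_of_nonneg (by norm_num) hK) hG)
  set C2 : ℝ≥0∞ := max 1 C1 with hC2
  have hC2t : C2 ≠ ⊤ := (max_lt ENNReal.one_lt_top hC1t.lt_top).ne
  have hC21 : 1 ≤ C2 := le_max_left _ _
  -- one turn
  have step : ∀ X t : ℝ≥0∞, 1 ≤ X → X ≠ ⊤ → 1 ≤ t → t ≤ t₀ →
      (∀ g n m, g ≤ n → n ≤ m → M g n m ≤ X * t ^ n * ρ ^ (m - g) * u n) →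
      ∀ g n m, g ≤ n → n ≤ m → M g n m ≤ C2 * X ^ (1 / 2 : ℝ) * (t ^ (1 / 2 : ℝ)) ^ n * ρ ^ (m - g) * u n := by
    intro X t hX hXt ht ht' hM g n m hgn hnm
    have hY := H2 X t hX hXt ht ht' hM n m
    set v : ℝ≥0∞ := ρ₂ ^ (m - n) * u n with hv
    have hterm : ∀ j ∈ range (n + 1),
        min v (min (ρ₁ ^ (j - g) * 2 ^ (n - j) * ρ₂ ^ (m - n) * u n) (Y n m j)) ≤
          K ^ (1 / 4 : ℝ) * (X ^ (1 / 2 : ℝ) * (t ^ (1 / 2 : ℝ)) ^ n * (δ ^ (n - g) * v)) * δ ^ (n - j) := by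
      intro j hj
      rw [mem_range] at hj
      have e1 : ρ₁ ^ (j - g) * 2 ^ (n - j) * ρ₂ ^ (m - n) * u n = (ρ₁ ^ (j - g) * 2 ^ (n - j)) * v := by
        rw [hv]; ring
      have e2 : Y n m j ≤ (K * X ^ 2 * t ^ (2 * n) * θ ^ (n - j)) * v := by
        refine (hY j (by omega) hnm).trans (le_of_eq ?_)
        rw [hv]; ring
      rw [e1]
      refine (min_le_min le_rfl (min_le_min le_rfl e2)).trans ((clo2_min hb.le hb' _ _ _).trans ?_)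
      have e3 : (ρ₁ ^ (j - g) * 2 ^ (n - j)) ^ b = r ^ (j - g) * ((2 : ℝ≥0∞) ^ b) ^ (n - j) := by
        rw [ENNReal.mul_rpow_of_nonneg _ _ hb.le, clo_pow, clo_pow]
      have e4 : (K * X ^ 2 * t ^ (2 * n) * θ ^ (n - j)) ^ (1 / 4 : ℝ) =
          K ^ (1 / 4 : ℝ) * X ^ (1 / 2 : ℝ) * (t ^ (1 / 2 : ℝ)) ^ n * (θ ^ (1 / 4 : ℝ)) ^ (n - j) := by
        rw [ENNReal.mul_rpow_of_nonneg _ _ (by norm_num), ENNReal.mul_rpow_of_nonneg _ _ (by norm_num),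
          ENNReal.mul_rpow_of_nonneg _ _ (by norm_num), clo_pow θ]
        congr 2
        · congr 1
          rw [← ENNReal.rpow_natCast, ← ENNReal.rpow_mul]
          norm_num
        · rw [pow_mul, clo_pow]
          congr 1
          rw [← ENNReal.rpow_natCast, ← ENNReal.rpow_mul]
          norm_num
      rw [e3, e4]
      have e5 : r ^ (j - g) * β ^ (n - j) ≤ δ ^ (n - g) * δ ^ (n - j) := by
        calc r ^ (j - g) * β ^ (n - j) ≤ γ ^ (j - g) * γ ^ (n - j) :=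
              mul_le_mul' (pow_le_pow_left' (le_max_left _ _) _) (pow_le_pow_left' (le_max_right _ _) _)
          _ = δ ^ (2 * ((j - g) + (n - j))) := by rw [← pow_add, ← hδ2, ← pow_mul]
          _ ≤ δ ^ ((n - g) + (n - j)) := pow_le_pow_right_of_le_one' hδ1.le (by omega)
          _ = δ ^ (n - g) * δ ^ (n - j) := pow_add _ _ _
      calc r ^ (j - g) * ((2 : ℝ≥0∞) ^ b) ^ (n - j) *
            (K ^ (1 / 4 : ℝ) * X ^ (1 / 2 : ℝ) * (t ^ (1 / 2 : ℝ)) ^ n * (θ ^ (1 / 4 : ℝ)) ^ (n - j)) * v =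
            K ^ (1 / 4 : ℝ) * X ^ (1 / 2 : ℝ) * (t ^ (1 / 2 : ℝ)) ^ n *
              (r ^ (j - g) * (((2 : ℝ≥0∞) ^ b) ^ (n - j) * (θ ^ (1 / 4 : ℝ)) ^ (n - j))) * v := by ring
        _ = K ^ (1 / 4 : ℝ) * X ^ (1 / 2 : ℝ) * (t ^ (1 / 2 : ℝ)) ^ n * (r ^ (j - g) * β ^ (n - j)) * v := by
            rw [← mul_pow]
        _ ≤ K ^ (1 / 4 : ℝ) * X ^ (1 / 2 : ℝ) * (t ^ (1 / 2 : ℝ)) ^ n * (δ ^ (n - g) * δ ^ (n - j)) * v := by
            gcongr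
        _ = K ^ (1 / 4 : ℝ) * (X ^ (1 / 2 : ℝ) * (t ^ (1 / 2 : ℝ)) ^ n * (δ ^ (n - g) * v)) * δ ^ (n - j) := by ring
    have hgeo : ∑ j ∈ range (n + 1), δ ^ (n - j) ≤ (1 - δ)⁻¹ := by
      rw [← ENNReal.tsum_geometric]
      calc ∑ j ∈ range (n + 1), δ ^ (n - j) = ∑ j ∈ range (n + 1), δ ^ j := by
            rw [← Finset.sum_range_reflect (fun k => δ ^ k) (n + 1)]
            exact Finset.sum_congr rfl fun k _ => by congr 1
        _ ≤ ∑' k, δ ^ k := ENNReal.sum_le_tsum _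
    have hdv : δ ^ (n - g) * v ≤ ρ ^ (m - g) * u n := by
      calc δ ^ (n - g) * v ≤ ρ ^ (n - g) * (ρ ^ (m - n) * u n) := by
            rw [hv]
            exact mul_le_mul' (pow_le_pow_left' hρδ _) (mul_le_mul' (pow_le_pow_left' hρ2 _) le_rfl)
        _ = ρ ^ (m - g) * u n := by
            rw [← mul_assoc, ← pow_add]
            congr 2
            omega
    calc M g n m ≤ K * ∑ j ∈ range (n + 1),
          min v (min (ρ₁ ^ (j - g) * 2 ^ (n - j) * ρ₂ ^ (m - n) * u n) (Y n m j)) := H1 g n m hgn hnm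
      _ ≤ K * ∑ j ∈ range (n + 1),
          K ^ (1 / 4 : ℝ) * (X ^ (1 / 2 : ℝ) * (t ^ (1 / 2 : ℝ)) ^ n * (δ ^ (n - g) * v)) * δ ^ (n - j) :=
          mul_le_mul' le_rfl (Finset.sum_le_sum hterm)
      _ = K * (K ^ (1 / 4 : ℝ) * (X ^ (1 / 2 : ℝ) * (t ^ (1 / 2 : ℝ)) ^ n * (δ ^ (n - g) * v)) *
          ∑ j ∈ range (n + 1), δ ^ (n - j)) := by
          simp only [← Finset.mul_sum]
      _ ≤ K * (K ^ (1 / 4 : ℝ) * (X ^ (1 / 2 : ℝ) * (t ^ (1 / 2 : ℝ)) ^ n * (ρ ^ (m - g) * u n)) * (1 - δ)⁻¹) := by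
          gcongr
      _ = C1 * X ^ (1 / 2 : ℝ) * (t ^ (1 / 2 : ℝ)) ^ n * ρ ^ (m - g) * u n := by rw [hC1]; ring
      _ ≤ C2 * X ^ (1 / 2 : ℝ) * (t ^ (1 / 2 : ℝ)) ^ n * ρ ^ (m - g) * u n := by
          gcongr
          exact le_max_right _ _
  set Z : ℝ≥0∞ := max 1 K with hZ
  have hZ1 : 1 ≤ Z := le_max_left _ _
  have hZt : Z ≠ ⊤ := (max_lt ENNReal.one_lt_top hK.lt_top).ne
  have it : ∀ k : ℕ, ∀ g n m, g ≤ n → n ≤ m →
      M g n m ≤ C2 * C2 * Z ^ ((1 / 2 : ℝ) ^ k) * (t₀ ^ ((1 / 2 : ℝ) ^ k)) ^ n * ρ ^ (m - g) * u n := by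
    intro k
    induction k with
    | zero =>
      intro g n m hgn hnm
      rw [pow_zero, ENNReal.rpow_one, ENNReal.rpow_one]
      have h5 : ρ₂ ^ (m - n) ≤ t₀ ^ n * ρ ^ (m - g) := by
        have h6 : (1 : ℝ≥0∞) ≤ t₀ * ρ := by
          calc (1 : ℝ≥0∞) = t₀ * t₀⁻¹ := (ENNReal.mul_inv_cancel (one_pos.trans ht₀).ne' ht₀t).symm
            _ ≤ t₀ * ρ := mul_le_mul' le_rfl hρt
        have h7 : (1 : ℝ≥0∞) ≤ t₀ ^ (n - g) * ρ ^ (n - g) := by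
          rw [← mul_pow]; exact one_le_pow_of_one_le' h6 _
        calc ρ₂ ^ (m - n) ≤ ρ ^ (m - n) := pow_le_pow_left' hρ2 _
          _ ≤ (t₀ ^ (n - g) * ρ ^ (n - g)) * ρ ^ (m - n) := le_mul_of_one_le_left' h7
          _ = t₀ ^ (n - g) * ρ ^ (m - g) := by
              rw [mul_assoc, ← pow_add]
              congr 2
              omega
          _ ≤ t₀ ^ n * ρ ^ (m - g) := by
              gcongr
              · exact ht₀.le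
              · omega
      calc M g n m ≤ K * ρ₂ ^ (m - n) * u n := H0 g n m hgn hnm
        _ ≤ 1 * 1 * Z * (t₀ ^ n * ρ ^ (m - g)) * u n := by
            rw [one_mul, one_mul]
            gcongr
            exact le_max_right _ _
        _ ≤ C2 * C2 * Z * (t₀ ^ n * ρ ^ (m - g)) * u n := by gcongr
        _ = C2 * C2 * Z * t₀ ^ n * ρ ^ (m - g) * u n := by ring
    | succ k ih =>
      intro g n m hgn hnm
      have hpow1 : 1 ≤ Z ^ ((1 / 2 : ℝ) ^ k) := ENNReal.one_le_rpow hZ1 (by positivity)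
      have hX1 : 1 ≤ C2 * C2 * Z ^ ((1 / 2 : ℝ) ^ k) := by
        calc (1 : ℝ≥0∞) = 1 * 1 * 1 := by ring
          _ ≤ _ := by gcongr
      have hXt : C2 * C2 * Z ^ ((1 / 2 : ℝ) ^ k) ≠ ⊤ :=
        ENNReal.mul_ne_top (ENNReal.mul_ne_top hC2t hC2t) (ENNReal.rpow_ne_top_of_nonneg (by positivity) hZt)
      have ht1 : 1 ≤ t₀ ^ ((1 / 2 : ℝ) ^ k) := ENNReal.one_le_rpow ht₀.le (by positivity)
      have ht2 : t₀ ^ ((1 / 2 : ℝ) ^ k) ≤ t₀ := by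
        calc t₀ ^ ((1 / 2 : ℝ) ^ k) ≤ t₀ ^ (1 : ℝ) :=
              ENNReal.rpow_le_rpow_of_exponent_le ht₀.le (pow_le_one₀ (by norm_num) (by norm_num))
          _ = t₀ := ENNReal.rpow_one _
      refine (step _ _ hX1 hXt ht1 ht2 ih g n m hgn hnm).trans (le_of_eq ?_)
      rw [clo2_half]
      congr 3
      rw [mul_assoc C2 C2]
      rw [mul_assoc C2 C2]
      congr 1
      rw [ENNReal.mul_rpow_of_nonneg _ _ (by norm_num), ENNReal.mul_rpow_of_nonneg _ _ (by norm_num),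
        ← ENNReal.rpow_mul, ← mul_assoc, ← ENNReal.rpow_add_of_nonneg _ _ (by norm_num) (by norm_num)]
      norm_num [pow_succ]
  refine ⟨C2 * C2, ENNReal.mul_ne_top hC2t hC2t, fun g n m hgn hnm => ?_⟩
  have hlim : Tendsto (fun k : ℕ => C2 * C2 * Z ^ ((1 / 2 : ℝ) ^ k) * (t₀ ^ ((1 / 2 : ℝ) ^ k)) ^ n *
      ρ ^ (m - g) * u n) atTop (𝓝 (C2 * C2 * 1 * 1 * ρ ^ (m - g) * u n)) := by
    have h5 := clo_lim hZ1 hZt
    have h6 := ENNReal.Tendsto.const_mul (a := C2 * C2) h5 (Or.inl one_ne_zero)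
    have h7 : Tendsto (fun k : ℕ => (t₀ ^ ((1 / 2 : ℝ) ^ k)) ^ n) atTop (𝓝 1) := by
      have := ENNReal.Tendsto.pow (n := n) (clo_lim ht₀.le ht₀t)
      rwa [one_pow] at this
    have hCC : C2 * C2 * 1 ≠ ⊤ := by
      rw [mul_one]; exact ENNReal.mul_ne_top hC2t hC2t
    have h8 := ENNReal.Tendsto.mul h6 (Or.inr ENNReal.one_ne_top) h7 (Or.inr hCC)
    have h9 := ENNReal.Tendsto.mul_const (b := ρ ^ (m - g)) h8
      (Or.inr (ENNReal.pow_ne_top (ne_top_of_lt hρ1)))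
    exact ENNReal.Tendsto.mul_const (b := u n) h9 (Or.inr (hu n))
  rw [mul_one, mul_one] at hlim
  exact ge_of_tendsto' hlim fun k => it k g n m hgn hnm

end Pool.Agent.HEP
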