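import Pool.Agent.PLY.R2.Reg

/-!
Project PLY, RETURN ESTIMATE, module Fold: the folds in terms of first passage words, weak and strong folds, products of two folds of the same block.

PAPER PROOFS.
* `FR_iff`: `FP_snoc` (PLF/Pre): both say `l = P ++ [c]`, `h P ≤ i < h P + ht c`; a word in `FP (i + 1)` is not empty (`FP_nil`), `List.eq_nil_or_concat`.
* `fa_av`: `rg i l = ind (FP (i+1) l) * w l`, `2 ^ n - 1 + 1 = 2 ^ n`; for `σ = false` exchange the two sums (`ENNReal.tsum_comm`).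
* `sf1_eq`, `lf_eq`: `2 ^ (n+1) / 2 = 2 ^ n`, `ENNReal.tsum_comm` (twice), `tsum_mul_left`; `h s ≤ 2 ^ n - 1 ↔ h s < 2 ^ n`.
* `ap_le_wk`: `av_pre`.
* `wk_le`: `g = 0`: `s = []` (`Nat.size_eq_zero`, `h_eq_zero`), so `wk ≤ ∑' l, ind (FP ..) w l = 1 ≤ K` (`tsum_FP`). `g ≥ 1`: put `z = 2 ^ (g-1)` `= 2 ^ g / 2 ≤ 2 ^ n / 2`. `z ≤ h s < 2 ^ g` (`size_zone`, `size_lt`),
  `tsum_split z` for `s` : `s = s' ++ r`; `av σ l s` implies `av σ (pre z l) s'` (`av_pre`, `pre_spec`: `l = pre z l ++ ..`, as `z ≤ h l`); `∑' r, ind (h s' + h r < 2 ^ g) * w r ≤ U (2 ^ g)` (`small_le`);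
  `tsum_pre` (from `FP (2 ^ n / 2)` to `FP z`). So `wk σ n g ≤ U (2 ^ g) * fa (2 ^ (g-1) - 1) ≤ U (2 ^ g) K θ ^ (3 (g-1)) ≤ K κ (θ⁻¹) ^ 3` (`Rq.U_le g`). `g - 1 ≤ J` since `g ≤ n ≤ J + 1`.
* `st_le`: `n = 0`: then `g = 0`, `l = [] = s` (`FP_zero`), `ap ≤ 1`, `st ≤ Lam (2 ^ m - 1) ≤ κ θ ^ (3m) ≤ κ K τ ^ (2 m)`. `n ≥ 1`, `g ≤ n - 1`: `sf1_eq` and `Fz.str` (constant `θ⁻¹ ^ 3`).
  `g = n ≥ 1`: `ap ≤ wk ≤ C K`, `st ≤ C K Lam (2 ^ m - 1) ≤ C K κ θ ^ (3m)` and `θ ^ (3m) = θ ^ (3n) θ ^ (3(m-n)) ≤ θ ^ (3n) τ ^ (2(m-n))` (`θ ^ 3 ≤ θ ^ 2 ≤ τ ^ 2`).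
* `ll_le`: `n = 0`: as before, `≤ Lam (2 ^ m - 1)`. `n ≥ 1`: near parts with `h s < 2 ^ (n-1)`: `lf_eq` (for `n - 1`) and `Fz.lng`; near parts with `2 ^ (n-1) ≤ h s < 2 ^ n` have class `n`: drop `c` in the avoidance,
  `≤ wk σ n n * Lam (2 ^ m - 1)`, as in `st_le`.
* `Lam_pow`: `Lam (2 ^ m - 1) = ∑' c, ind (2 ^ m ≤ ht c) * wt c` (`2 ^ m - 1 < ht c ↔ 2 ^ m ≤ ht c`).
* `dbl_le`: bound one of the two factors by `ap ≤ wk ≤ C K` (pointwise), the other one gives `st ≤ ..`.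
* `size_lt`, `size_zone`: `Nat.size_le : size m ≤ n ↔ m < 2 ^ n`, `Nat.lt_size : m < size n ↔ 2 ^ m ≤ n`.
-/

namespace Pool.Agent.HEP

open scoped ENNReal
open Finset

namespace Sys

variable {S : Sys}

theorem FR_iff {i : ℕ} {l : List S.B} : S.FR i l ↔ S.FP (i + 1) l := by
  constructor
  · rintro ⟨P, c, rfl, h1, h2⟩
    rw [S.FP_snoc]
    omega
  · intro h
    rcases List.eq_nil_or_concat l with rfl | ⟨P, c, rfl⟩
    · exact absurd (S.FP_nil.1 h) (Nat.succ_ne_zero i)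
    · rw [List.concat_eq_append, S.FP_snoc] at h
      rw [List.concat_eq_append]
      exact ⟨P, c, rfl, by omega, by omega⟩

private theorem Fold_pow (n : ℕ) : 2 ^ n - 1 + 1 = 2 ^ n := by
  have := Nat.one_le_two_pow (n := n)
  omega

private theorem Fold_rg (n : ℕ) (l : List S.B) : S.rg (2 ^ n - 1) l = ind (S.FP (2 ^ n) l) * S.w l := by
  unfold Alph.rg
  rw [ind_congr FR_iff, Fold_pow]

private theorem Fold_half (n : ℕ) : 2 ^ (n + 1) / 2 = 2 ^ n := by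
  rw [pow_succ]
  omega

theorem size_lt {g x : ℕ} (h : Nat.size x = g) : x < 2 ^ g := by
  rw [← h]
  exact Nat.lt_size_self x

theorem size_zone {g x : ℕ} (h : Nat.size x = g) : 2 ^ g / 2 ≤ x := by
  rcases g with _ | g
  · simp
  · rw [Fold_half]
    exact Nat.lt_size.1 (by omega)

theorem Lam_pow (m : ℕ) : ∑' c, ind (2 ^ m ≤ S.ht c) * S.wt c = S.Lam (2 ^ m - 1) := by
  unfold Alph.Lam
  refine tsum_congr fun c => ?_
  rw [ind_congr (show 2 ^ m ≤ S.ht c ↔ 2 ^ m - 1 < S.ht c by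
    have := Nat.one_le_two_pow (n := m)
    omega)]

theorem fa_av (σ : Bool) (n : ℕ) : S.fa (2 ^ n - 1) =
    ∑' l, ∑' s, ind (S.av σ l s ∧ S.FP (2 ^ n) l ∧ S.FP (2 ^ n) s) * (S.w l * S.w s) := by
  have key : ∀ l s : List S.B, ind (S.Av l s) * (S.rg (2 ^ n - 1) l * S.rg (2 ^ n - 1) s) =
      ind (S.Av l s ∧ S.FP (2 ^ n) l ∧ S.FP (2 ^ n) s) * (S.w l * S.w s) := by
    intro l s
    rw [Fold_rg, Fold_rg, ind_and, ind_and]
    ring
  unfold Sys.fa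
  cases σ
  · rw [ENNReal.tsum_comm]
    refine tsum_congr fun l => tsum_congr fun s => ?_
    rw [key, S.av_false, ind_congr (show (S.Av s l ∧ S.FP (2 ^ n) s ∧ S.FP (2 ^ n) l) ↔
      (S.Av s l ∧ S.FP (2 ^ n) l ∧ S.FP (2 ^ n) s) by tauto), mul_comm (S.w s)]
  · refine tsum_congr fun l => tsum_congr fun s => ?_
    rw [key, S.av_true]

theorem sf1_eq (σ : Bool) (n g m : ℕ) : S.sf1 σ (2 ^ n - 1) g m = S.st σ (n + 1) g m := by
  unfold Sys.sf1 Sys.st Sys.ap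
  rw [Fold_half]
  calc ∑' l, ∑' s, ∑' c, ind (S.av σ l (s ++ [c]) ∧ S.gf (!σ) (s ++ [c]) l ∧ Nat.size (S.h s) = g ∧ 2 ^ m ≤ S.ht c) *
        (S.rg (2 ^ n - 1) l * (S.w s * S.wt c))
      = ∑' l, ∑' c, ∑' s, ind (S.av σ l (s ++ [c]) ∧ S.gf (!σ) (s ++ [c]) l ∧ Nat.size (S.h s) = g ∧ 2 ^ m ≤ S.ht c) *
        (S.rg (2 ^ n - 1) l * (S.w s * S.wt c)) := tsum_congr fun l => ENNReal.tsum_comm
    _ = ∑' c, ∑' l, ∑' s, ind (S.av σ l (s ++ [c]) ∧ S.gf (!σ) (s ++ [c]) l ∧ Nat.size (S.h s) = g ∧ 2 ^ m ≤ S.ht c) *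
        (S.rg (2 ^ n - 1) l * (S.w s * S.wt c)) := ENNReal.tsum_comm
    _ = _ := by
      refine tsum_congr fun c => ?_
      rw [← ENNReal.tsum_mul_left, ← ENNReal.tsum_mul_left]
      refine tsum_congr fun l => ?_
      rw [← ENNReal.tsum_mul_left, ← ENNReal.tsum_mul_left]
      refine tsum_congr fun s => ?_
      rw [Fold_rg, ind_and, ind_and, ind_and, ind_and, ind_and, ind_and]
      ring

theorem lf_eq (σ : Bool) (n m : ℕ) : S.lf σ (2 ^ n - 1) m =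
    ∑' l, ∑' s, ∑' c, ind (S.av σ l (s ++ [c]) ∧ S.FP (2 ^ n) l ∧ S.h s < 2 ^ n ∧ 2 ^ m ≤ S.ht c) *
      (S.w l * (S.w s * S.wt c)) := by
  unfold Sys.lf
  refine tsum_congr fun l => tsum_congr fun s => tsum_congr fun c => ?_
  rw [Fold_rg, ind_congr (show (S.av σ l (s ++ [c]) ∧ S.h s ≤ 2 ^ n - 1 ∧ 2 ^ m ≤ S.ht c) ↔
    (S.av σ l (s ++ [c]) ∧ S.h s < 2 ^ n ∧ 2 ^ m ≤ S.ht c) by
      have := Nat.one_le_two_pow (n := n)
      constructor
      · rintro ⟨h1, h2, h3⟩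
        exact ⟨h1, by omega, h3⟩
      · rintro ⟨h1, h2, h3⟩
        exact ⟨h1, by omega, h3⟩), ind_and, ind_and, ind_and, ind_and, ind_and]
  ring

theorem ap_le_wk (σ : Bool) (n g : ℕ) (c : S.B) : S.ap σ n g c ≤ S.wk σ n g := by
  unfold Sys.ap Sys.wk
  refine ENNReal.tsum_le_tsum fun l => ENNReal.tsum_le_tsum fun s => ?_
  refine mul_le_mul' (ind_mono ?_) le_rfl
  rintro ⟨h1, -, h2, h3⟩
  exact ⟨S.av_pre (l' := []) (by rwa [List.append_nil]), h2, h3⟩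

theorem wk_le {κ θ : ℝ≥0∞} (hq : S.Rq κ θ) : ∃ C : ℝ≥0∞, C ≠ ⊤ ∧ ∀ (K τ : ℝ≥0∞) (J : ℕ), S.Fz K θ τ J →
    ∀ (σ : Bool) (n g : ℕ), g ≤ n → n ≤ J + 1 → S.wk σ n g ≤ C * K := by
  refine ⟨1 + κ * θ⁻¹ ^ 3, ?_, ?_⟩
  · refine ENNReal.add_ne_top.2 ⟨ENNReal.one_ne_top, ENNReal.mul_ne_top hq.kt ?_⟩
    exact ENNReal.pow_ne_top (ENNReal.inv_ne_top.2 hq.th_ne_zero)
  intro K τ J hF σ n g hg hn
  rcases g with _ | g
  · have h1 : S.wk σ n 0 ≤ ∑' l, ind (S.FP (2 ^ n / 2) l) * S.w l := by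
      unfold Sys.wk
      refine ENNReal.tsum_le_tsum fun l => ?_
      rw [tsum_eq_single ([] : List S.B)]
      · rw [S.w_nil, mul_one]
        exact mul_le_mul' (ind_mono fun h => h.2.1) le_rfl
      · intro s hs
        rw [ind_false (fun h => hs (S.h_eq_zero.1 (Nat.size_eq_zero.1 h.2.2))), zero_mul]
    rw [S.tsum_FP] at h1
    refine h1.trans (hF.one.trans ?_)
    calc K = 1 * K := (one_mul K).symm
      _ ≤ (1 + κ * θ⁻¹ ^ 3) * K := mul_le_mul' le_self_add le_rfl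
  · have hz : 2 ^ g ≤ 2 ^ n / 2 := by
      rcases n with _ | n
      · omega
      · rw [Fold_half]
        exact Nat.pow_le_pow_right (by norm_num) (by omega)
    obtain ⟨G, hG⟩ : ∃ G : List S.B → ℝ≥0∞, G = fun l => ∑' s', ind (S.FP (2 ^ g) s') *
        (ind (S.av σ l s') * S.w s') := ⟨_, rfl⟩
    have h1 : ∀ l, ∑' s, ind (S.av σ l s ∧ S.FP (2 ^ n / 2) l ∧ Nat.size (S.h s) = g + 1) * (S.w l * S.w s) ≤
        S.U (2 ^ (g + 1)) * (ind (S.FP (2 ^ n / 2) l) * (G (S.pre (2 ^ g) l) * S.w l)) := by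
      intro l
      by_cases hl : S.FP (2 ^ n / 2) l
      · obtain ⟨hp1, r0, hp2⟩ := S.pre_spec (hz.trans hl.1)
        have h2 : ∀ s, ind (S.av σ l s ∧ S.FP (2 ^ n / 2) l ∧ Nat.size (S.h s) = g + 1) * (S.w l * S.w s) ≤
            S.w l * (ind (2 ^ g ≤ S.h s) * (ind (S.av σ (S.pre (2 ^ g) l) (S.pre (2 ^ g) s)) *
              (ind (S.h s ≤ 2 ^ (g + 1)) * S.w s))) := by
          intro s
          by_cases hs : S.av σ l s ∧ S.FP (2 ^ n / 2) l ∧ Nat.size (S.h s) = g + 1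
          · have h3 : 2 ^ g ≤ S.h s := by
              have := size_zone hs.2.2
              rwa [Fold_half] at this
            have h4 : S.h s ≤ 2 ^ (g + 1) := (size_lt hs.2.2).le
            obtain ⟨hs1, r1, hs2⟩ := S.pre_spec h3
            have h5 : S.av σ (S.pre (2 ^ g) l) (S.pre (2 ^ g) s) := by
              refine S.av_pre (l' := r0) (s' := r1) ?_
              rw [← hp2, ← hs2]
              exact hs.1
            rw [ind_true hs, ind_true h3, ind_true h4, ind_true h5]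
            simp only [one_mul]
            exact le_rfl
          · rw [ind_false hs, zero_mul]
            exact zero_le
        refine (ENNReal.tsum_le_tsum h2).trans ?_
        rw [ENNReal.tsum_mul_left, S.tsum_split (2 ^ g), ind_true hl, one_mul]
        have h6 : ∑' s', ind (S.FP (2 ^ g) s') * ∑' r, (ind (S.av σ (S.pre (2 ^ g) l) (S.pre (2 ^ g) (s' ++ r))) *
              (ind (S.h (s' ++ r) ≤ 2 ^ (g + 1)) * S.w (s' ++ r))) ≤ ∑' s', S.U (2 ^ (g + 1)) *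
                (ind (S.FP (2 ^ g) s') * (ind (S.av σ (S.pre (2 ^ g) l) s') * S.w s')) := by
          refine ENNReal.tsum_le_tsum fun s' => ?_
          by_cases hs' : S.FP (2 ^ g) s'
          · rw [ind_true hs', one_mul, one_mul]
            calc ∑' r, (ind (S.av σ (S.pre (2 ^ g) l) (S.pre (2 ^ g) (s' ++ r))) *
                  (ind (S.h (s' ++ r) ≤ 2 ^ (g + 1)) * S.w (s' ++ r)))
                ≤ ∑' r, (ind (S.av σ (S.pre (2 ^ g) l) s') * S.w s') * (ind (S.h r ≤ 2 ^ (g + 1)) * S.w r) := by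
                  refine ENNReal.tsum_le_tsum fun r => ?_
                  rw [S.pre_app hs', S.w_append]
                  have h7 : ind (S.h (s' ++ r) ≤ 2 ^ (g + 1)) ≤ ind (S.h r ≤ 2 ^ (g + 1)) :=
                    ind_mono fun h => by rw [S.h_append] at h; omega
                  calc ind (S.av σ (S.pre (2 ^ g) l) s') * (ind (S.h (s' ++ r) ≤ 2 ^ (g + 1)) * (S.w s' * S.w r))
                      ≤ ind (S.av σ (S.pre (2 ^ g) l) s') * (ind (S.h r ≤ 2 ^ (g + 1)) * (S.w s' * S.w r)) :=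
                        mul_le_mul' le_rfl (mul_le_mul' h7 le_rfl)
                    _ = _ := by ring
              _ = (ind (S.av σ (S.pre (2 ^ g) l) s') * S.w s') * ∑' r, ind (S.h r ≤ 2 ^ (g + 1)) * S.w r :=
                  ENNReal.tsum_mul_left
              _ ≤ (ind (S.av σ (S.pre (2 ^ g) l) s') * S.w s') * S.U (2 ^ (g + 1)) :=
                  mul_le_mul' le_rfl (small_le _ _ le_rfl)
              _ = _ := mul_comm _ _
          · rw [ind_false hs', zero_mul]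
            exact zero_le
        rw [ENNReal.tsum_mul_left] at h6
        calc _ ≤ S.w l * (S.U (2 ^ (g + 1)) * ∑' s', (ind (S.FP (2 ^ g) s') *
                (ind (S.av σ (S.pre (2 ^ g) l) s') * S.w s'))) := mul_le_mul' le_rfl h6
          _ = _ := by
            rw [hG]
            ring
      · refine le_of_eq_of_le ?_ zero_le
        rw [ENNReal.tsum_eq_zero]
        intro s
        rw [ind_false (fun h => hl h.2.1), zero_mul]
    have h8 : S.wk σ n (g + 1) ≤ S.U (2 ^ (g + 1)) * S.fa (2 ^ g - 1) := by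
      unfold Sys.wk
      refine (ENNReal.tsum_le_tsum h1).trans ?_
      rw [ENNReal.tsum_mul_left, S.tsum_pre hz, fa_av σ]
      refine mul_le_mul' le_rfl (le_of_eq ?_)
      refine tsum_congr fun l => ?_
      rw [hG, ← ENNReal.tsum_mul_right, ← ENNReal.tsum_mul_left]
      refine tsum_congr fun s => ?_
      rw [ind_and, ind_and]
      ring
    refine h8.trans ((mul_le_mul' le_rfl (hF.full g (by omega))).trans ?_)
    have h9 : θ ^ (3 * g) = θ ^ (3 * (g + 1)) * θ⁻¹ ^ 3 := by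
      rw [show 3 * (g + 1) = 3 * g + 3 from by ring, pow_add, mul_assoc, ← mul_pow,
        ENNReal.mul_inv_cancel hq.th_ne_zero hq.th_ne_top, one_pow, mul_one]
    rw [h9]
    calc S.U (2 ^ (g + 1)) * (K * (θ ^ (3 * (g + 1)) * θ⁻¹ ^ 3))
        = (S.U (2 ^ (g + 1)) * θ ^ (3 * (g + 1))) * θ⁻¹ ^ 3 * K := by ring
      _ ≤ κ * θ⁻¹ ^ 3 * K := mul_le_mul' (mul_le_mul' (hq.U_le (g + 1)) le_rfl) le_rfl
      _ ≤ (1 + κ * θ⁻¹ ^ 3) * K := mul_le_mul' le_add_self le_rfl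

private lemma Fold_th3 {κ θ τ : ℝ≥0∞} (hq : S.Rq κ θ) (h : θ < τ) (k : ℕ) : θ ^ (3 * k) ≤ τ ^ (2 * k) := by
  calc θ ^ (3 * k) ≤ θ ^ (2 * k) := pow_le_pow_right_of_le_one' hq.th_lt.le (by omega)
    _ ≤ τ ^ (2 * k) := pow_le_pow_left' h.le _

private lemma Fold_lam {κ θ τ : ℝ≥0∞} (hq : S.Rq κ θ) (h : θ < τ) {n m : ℕ} (hnm : n ≤ m) :
    S.Lam (2 ^ m - 1) ≤ κ * (θ ^ (3 * n) * τ ^ (2 * (m - n))) := by
  have e : 3 * m = 3 * n + 3 * (m - n) := by omega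
  calc S.Lam (2 ^ m - 1) ≤ κ * θ ^ (3 * m) := hq.Lam_le m
    _ = κ * (θ ^ (3 * n) * θ ^ (3 * (m - n))) := by rw [e, pow_add]
    _ ≤ κ * (θ ^ (3 * n) * τ ^ (2 * (m - n))) := mul_le_mul' le_rfl (mul_le_mul' le_rfl (Fold_th3 hq h _))

private lemma Fold_pred {κ θ : ℝ≥0∞} (hq : S.Rq κ θ) {n : ℕ} (hn : 1 ≤ n) :
    θ ^ (3 * (n - 1)) = θ⁻¹ ^ 3 * θ ^ (3 * n) := by
  have e : 3 * n = 3 + 3 * (n - 1) := by omega
  have h1 : θ⁻¹ * θ = 1 := ENNReal.inv_mul_cancel hq.th_ne_zero hq.th_ne_top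
  rw [e, pow_add, ← mul_assoc, ← mul_pow, h1, one_pow, one_mul]

theorem st_le {κ θ : ℝ≥0∞} (hq : S.Rq κ θ) : ∃ C : ℝ≥0∞, C ≠ ⊤ ∧ ∀ (K τ : ℝ≥0∞) (J : ℕ), θ < τ → S.Fz K θ τ J →
    ∀ (σ : Bool) (n g m : ℕ), g ≤ n → n ≤ J + 1 → n ≤ m → S.st σ n g m ≤ C * K * (θ ^ (3 * n) * τ ^ (2 * (m - g))) := by
  obtain ⟨Cw, hCw, hw⟩ := wk_le hq
  have hi : θ⁻¹ ≠ ⊤ := ENNReal.inv_ne_top.2 hq.th_ne_zero
  refine ⟨θ⁻¹ ^ 3 + Cw * κ, ENNReal.add_ne_top.2 ⟨ENNReal.pow_ne_top hi, ENNReal.mul_ne_top hCw hq.kt⟩, ?_⟩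
  intro K τ J hτ hF σ n g m hgn hnJ hnm
  rcases Nat.lt_or_ge g n with h1 | h1
  · obtain ⟨k, rfl⟩ : ∃ k, n = k + 1 := ⟨n - 1, by omega⟩
    rw [← sf1_eq]
    calc S.sf1 σ (2 ^ k - 1) g m ≤ K * θ ^ (3 * k) * τ ^ (2 * (m - g)) := hF.str σ k g m (by omega) (by omega) (by omega)
      _ = θ⁻¹ ^ 3 * K * (θ ^ (3 * (k + 1)) * τ ^ (2 * (m - g))) := by
          have h2 := Fold_pred hq (n := k + 1) (by omega)
          rw [Nat.add_sub_cancel] at h2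
          rw [h2]
          ring
      _ ≤ (θ⁻¹ ^ 3 + Cw * κ) * K * (θ ^ (3 * (k + 1)) * τ ^ (2 * (m - g))) := by
          gcongr
          exact le_self_add
  · have h2 : g = n := le_antisymm hgn h1
    subst h2
    have h3 : S.st σ g g m ≤ S.wk σ g g * S.Lam (2 ^ m - 1) := by
      unfold st
      rw [← Lam_pow, ← ENNReal.tsum_mul_left]
      refine ENNReal.tsum_le_tsum fun c => ?_
      calc ind (2 ^ m ≤ S.ht c) * (S.wt c * S.ap σ g g c) ≤ ind (2 ^ m ≤ S.ht c) * (S.wt c * S.wk σ g g) := by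
            gcongr
            exact ap_le_wk σ g g c
        _ = _ := by ring
    calc S.st σ g g m ≤ (Cw * K) * (κ * (θ ^ (3 * g) * τ ^ (2 * (m - g)))) :=
          h3.trans (mul_le_mul' (hw K τ J hF σ g g le_rfl hnJ) (Fold_lam hq hτ hnm))
      _ = Cw * κ * K * (θ ^ (3 * g) * τ ^ (2 * (m - g))) := by ring
      _ ≤ (θ⁻¹ ^ 3 + Cw * κ) * K * (θ ^ (3 * g) * τ ^ (2 * (m - g))) := by
          gcongr
          exact le_add_self

theorem ll_le {κ θ : ℝ≥0∞} (hq : S.Rq κ θ) : ∃ C : ℝ≥0∞, C ≠ ⊤ ∧ ∀ (K τ : ℝ≥0∞) (J : ℕ), θ < τ → S.Fz K θ τ J →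
    ∀ (σ : Bool) (n m : ℕ), n ≤ J + 1 → n ≤ m → S.ll σ n m ≤ C * K * (θ ^ (3 * n) * τ ^ (2 * (m - n))) := by
  obtain ⟨Cw, hCw, hw⟩ := wk_le hq
  have hi : θ⁻¹ ≠ ⊤ := ENNReal.inv_ne_top.2 hq.th_ne_zero
  refine ⟨θ⁻¹ ^ 3 + Cw * κ, ENNReal.add_ne_top.2 ⟨ENNReal.pow_ne_top hi, ENNReal.mul_ne_top hCw hq.kt⟩, ?_⟩
  intro K τ J hτ hF σ n m hnJ hnm
  -- the near parts of class `n`
  have htop : ∑' l, ∑' s, ∑' c, ind (S.av σ l s ∧ S.FP (2 ^ n / 2) l ∧ Nat.size (S.h s) = n ∧ 2 ^ m ≤ S.ht c) *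
      (S.w l * (S.w s * S.wt c)) ≤ Cw * κ * K * (θ ^ (3 * n) * τ ^ (2 * (m - n))) := by
    have h3 : ∑' l, ∑' s, ∑' c, ind (S.av σ l s ∧ S.FP (2 ^ n / 2) l ∧ Nat.size (S.h s) = n ∧ 2 ^ m ≤ S.ht c) *
        (S.w l * (S.w s * S.wt c)) = S.wk σ n n * S.Lam (2 ^ m - 1) := by
      unfold wk
      rw [← Lam_pow, ← ENNReal.tsum_mul_right]
      refine tsum_congr fun l => ?_
      rw [← ENNReal.tsum_mul_right]
      refine tsum_congr fun s => ?_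
      rw [← ENNReal.tsum_mul_left]
      refine tsum_congr fun c => ?_
      rw [ind_congr (show (S.av σ l s ∧ S.FP (2 ^ n / 2) l ∧ Nat.size (S.h s) = n ∧ 2 ^ m ≤ S.ht c) ↔
        ((S.av σ l s ∧ S.FP (2 ^ n / 2) l ∧ Nat.size (S.h s) = n) ∧ 2 ^ m ≤ S.ht c) by tauto), ind_and]
      ring
    rw [h3]
    calc S.wk σ n n * S.Lam (2 ^ m - 1) ≤ (Cw * K) * (κ * (θ ^ (3 * n) * τ ^ (2 * (m - n)))) :=
          mul_le_mul' (hw K τ J hF σ n n le_rfl hnJ) (Fold_lam hq hτ hnm)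
      _ = _ := by ring
  rcases Nat.eq_zero_or_pos n with h0 | h0
  · subst h0
    refine le_trans ?_ (htop.trans ?_)
    · unfold ll
      refine ENNReal.tsum_le_tsum fun l => ENNReal.tsum_le_tsum fun s => ENNReal.tsum_le_tsum fun c =>
        mul_le_mul' (ind_mono ?_) le_rfl
      rintro ⟨h1, h2, h3, h4⟩
      have h5 : S.h s = 0 := by
        rw [pow_zero] at h3
        omega
      have h6 : S.av σ (l ++ []) (s ++ [c]) := by rw [List.append_nil]; exact h1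
      exact ⟨S.av_pre h6, h2, by rw [h5]; exact Nat.size_zero, h4⟩
    · gcongr
      exact le_add_self
  · obtain ⟨k, rfl⟩ : ∃ k, n = k + 1 := ⟨n - 1, by omega⟩
    have hk : 2 ^ (k + 1) / 2 = 2 ^ k := by
      rw [pow_succ]
      omega
    have hlow : S.lf σ (2 ^ k - 1) m ≤ θ⁻¹ ^ 3 * K * (θ ^ (3 * (k + 1)) * τ ^ (2 * (m - (k + 1)))) := by
      have h1 : S.lf σ (2 ^ k - 1) m ≤ S.lf σ (2 ^ k - 1) (m - 1) := by
        unfold lf
        refine ENNReal.tsum_le_tsum fun l => ENNReal.tsum_le_tsum fun s => ENNReal.tsum_le_tsum fun c =>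
          mul_le_mul' (ind_mono fun h => ⟨h.1, h.2.1, le_trans ?_ h.2.2⟩) le_rfl
        exact Nat.pow_le_pow_right (by norm_num) (by omega)
      have e : m - 1 - k = m - (k + 1) := by omega
      calc S.lf σ (2 ^ k - 1) m ≤ K * θ ^ (3 * k) * τ ^ (2 * (m - 1 - k)) :=
            h1.trans (hF.lng σ k (m - 1) (by omega) (by omega))
        _ = θ⁻¹ ^ 3 * K * (θ ^ (3 * (k + 1)) * τ ^ (2 * (m - (k + 1)))) := by
            have h2 := Fold_pred hq (n := k + 1) (by omega)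
            rw [Nat.add_sub_cancel] at h2
            rw [h2, e]
            ring
    have hsplit : S.ll σ (k + 1) m ≤ S.lf σ (2 ^ k - 1) m +
        ∑' l, ∑' s, ∑' c, ind (S.av σ l s ∧ S.FP (2 ^ (k + 1) / 2) l ∧ Nat.size (S.h s) = k + 1 ∧ 2 ^ m ≤ S.ht c) *
          (S.w l * (S.w s * S.wt c)) := by
      rw [lf_eq]
      unfold ll
      rw [← ENNReal.tsum_add]
      refine ENNReal.tsum_le_tsum fun l => ?_
      rw [← ENNReal.tsum_add]
      refine ENNReal.tsum_le_tsum fun s => ?_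
      rw [← ENNReal.tsum_add]
      refine ENNReal.tsum_le_tsum fun c => ?_
      rw [← add_mul]
      refine mul_le_mul' ((ind_mono ?_).trans (ind_or_le _ _)) le_rfl
      rintro ⟨h1, h2, h3, h4⟩
      rcases Nat.lt_or_ge (S.h s) (2 ^ k) with h5 | h5
      · left
        rw [hk] at h2
        exact ⟨h1, h2, h5, h4⟩
      · right
        have h6 : S.av σ (l ++ []) (s ++ [c]) := by rw [List.append_nil]; exact h1
        refine ⟨S.av_pre h6, h2, ?_, h4⟩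
        refine le_antisymm (Nat.size_le.2 h3) (Nat.succ_le_of_lt (Nat.lt_size.2 h5))
    calc S.ll σ (k + 1) m ≤ θ⁻¹ ^ 3 * K * (θ ^ (3 * (k + 1)) * τ ^ (2 * (m - (k + 1)))) +
          Cw * κ * K * (θ ^ (3 * (k + 1)) * τ ^ (2 * (m - (k + 1)))) := hsplit.trans (add_le_add hlow htop)
      _ = _ := by ring

/-- The same block used at two folds. -/
theorem dbl_le {κ θ : ℝ≥0∞} (hq : S.Rq κ θ) : ∃ C : ℝ≥0∞, C ≠ ⊤ ∧ ∀ (K τ : ℝ≥0∞) (J : ℕ), θ < τ → S.Fz K θ τ J →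
    ∀ (σ σ' : Bool) (n g n' g' m : ℕ), g ≤ n → n ≤ J + 1 → n ≤ m → g' ≤ n' → n' ≤ J + 1 → n' ≤ m →
      ∑' c, ind (2 ^ m ≤ S.ht c) * (S.wt c * (S.ap σ n g c * S.ap σ' n' g' c)) ≤
        C * K ^ 2 * (θ ^ (3 * n) * τ ^ (2 * (m - g))) ∧
      ∑' c, ind (2 ^ m ≤ S.ht c) * (S.wt c * (S.ap σ n g c * S.ap σ' n' g' c)) ≤
        C * K ^ 2 * (θ ^ (3 * n') * τ ^ (2 * (m - g'))) := by
  obtain ⟨Cw, hCw, hw⟩ := wk_le hq
  obtain ⟨Cs, hCs, hs⟩ := st_le hq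
  refine ⟨Cw * Cs, ENNReal.mul_ne_top hCw hCs, ?_⟩
  intro K τ J hτ hF σ σ' n g n' g' m h1 h2 h3 h1' h2' h3'
  constructor
  · calc ∑' c, ind (2 ^ m ≤ S.ht c) * (S.wt c * (S.ap σ n g c * S.ap σ' n' g' c))
        ≤ ∑' c, (Cw * K) * (ind (2 ^ m ≤ S.ht c) * (S.wt c * S.ap σ n g c)) := by
          refine ENNReal.tsum_le_tsum fun c => ?_
          calc ind (2 ^ m ≤ S.ht c) * (S.wt c * (S.ap σ n g c * S.ap σ' n' g' c))
              ≤ ind (2 ^ m ≤ S.ht c) * (S.wt c * (S.ap σ n g c * (Cw * K))) := by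
                gcongr
                exact (ap_le_wk σ' n' g' c).trans (hw K τ J hF σ' n' g' h1' h2')
            _ = _ := by ring
      _ = (Cw * K) * S.st σ n g m := by rw [ENNReal.tsum_mul_left]; rfl
      _ ≤ (Cw * K) * (Cs * K * (θ ^ (3 * n) * τ ^ (2 * (m - g)))) :=
          mul_le_mul' le_rfl (hs K τ J hτ hF σ n g m h1 h2 h3)
      _ = _ := by ring
  · calc ∑' c, ind (2 ^ m ≤ S.ht c) * (S.wt c * (S.ap σ n g c * S.ap σ' n' g' c))
        ≤ ∑' c, (Cw * K) * (ind (2 ^ m ≤ S.ht c) * (S.wt c * S.ap σ' n' g' c)) := by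
          refine ENNReal.tsum_le_tsum fun c => ?_
          calc ind (2 ^ m ≤ S.ht c) * (S.wt c * (S.ap σ n g c * S.ap σ' n' g' c))
              ≤ ind (2 ^ m ≤ S.ht c) * (S.wt c * ((Cw * K) * S.ap σ' n' g' c)) := by
                gcongr
                exact (ap_le_wk σ n g c).trans (hw K τ J hF σ n g h1 h2)
            _ = _ := by ring
      _ = (Cw * K) * S.st σ' n' g' m := by rw [ENNReal.tsum_mul_left]; rfl
      _ ≤ (Cw * K) * (Cs * K * (θ ^ (3 * n') * τ ^ (2 * (m - g')))) :=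
          mul_le_mul' le_rfl (hs K τ J hτ hF σ' n' g' m h1' h2' h3')
      _ = _ := by ring

end Sys

end Pool.Agent.HEP
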