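import Pool.Agent.HEP.GFold
import Pool.Agent.HHP.StepA

/-!
Project PLY/R2 (MP_8c6f77_pr, honeycomb lattice, polynomial bound; route A, notes 3092, 3094), GEOMETRY OF THE RETURN, in words (helper72, for helper46).

`cut_w`: let `L` be a bridge (`Br n L`) which visits a column `≥ M` and afterwards a column `≤ y`, `y < M`. Let `h` be the smallest column which is visited after a
column `≥ M`, `b` = last vertex of the column `h` or below (it comes after the first visit of the columns `≥ M`, all the later vertices are in the columns `> h`),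
`a` = column of the last highest vertex before `b`. Then `L = fw W1 (fw W2 W3)`: `W1` = bridge of the columns `0, .., a`; `W2` = bridge of the columns
`a - 1, a - 2, .., h` (turned frame), `W3` = bridge of the columns `h + 1, .., n`. `k = a - 1 - h`. The renewal lines of `W3` above the column `a` are renewal lines of `L`.

PROOF. `h` = smallest `h` such that some vertex of column `≥ M` is followed by a vertex of column `≤ h`. `split_last` for `F0 z ≤ 3 h + 1`: `L = X ++ c :: Y`,
`F0 (E X) = 3 h + 1`, the step after `X` is `(1, 0)` (`cross_right`), all the later vertices are in the columns `> h`; `X` visits a column `≥ M` (otherwise no pair at all).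
`stepA` for `X` (`X` in `SS n`): the first case is excluded (`X` would end in its highest column `≥ M > h`), so `X = P ++ lt P :: Q`, `Be a P`; the vertices of `Q` come after the
vertex `E P` of column `a ≥ M`, so they are in the columns `≥ h` (minimality of `h`), `Be (a - 1 - h) Q`. `Be_drop` for `P` and `Q`; `c = lt Q` because `Dr X = - Dr Q`.
-/

namespace Pool.Agent.HEP

open Pool.Agent.Hhelper14.SAW Pool.Agent.HHP

theorem cut_w {n M y : ℕ} {L : List Bool} (hL : Br n L) (hM : y < M)
    (hr : ¬ ((V L).Pairwise fun p q => ¬ (3 * (M : ℤ) ≤ F0 p ∧ F0 q ≤ 3 * (y : ℤ) + 1))) :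
    ∃ a k W1 W2 W3, L = fw W1 (fw W2 W3) ∧ Br a W1 ∧ Br k W2 ∧ Br (n - a + k) W3 ∧ M ≤ a ∧ a ≤ n ∧
      k + 1 ≤ a ∧ a ≤ k + 1 + y ∧ ∀ i, k + 1 ≤ i → Ren i W3 → Ren (i + (a - k)) L := by
  classical
  have hex : ∃ h : ℕ, ¬ ((V L).Pairwise fun p q => ¬ (3 * (M : ℤ) ≤ F0 p ∧ F0 q ≤ 3 * (h : ℤ) + 1)) := ⟨y, hr⟩
  obtain ⟨h, hh, hmin, hy⟩ : ∃ h : ℕ,
      ¬ ((V L).Pairwise fun p q => ¬ (3 * (M : ℤ) ≤ F0 p ∧ F0 q ≤ 3 * (h : ℤ) + 1)) ∧
      (∀ m < h, (V L).Pairwise fun p q => ¬ (3 * (M : ℤ) ≤ F0 p ∧ F0 q ≤ 3 * (m : ℤ) + 1)) ∧ h ≤ y :=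
    ⟨Nat.find hex, Nat.find_spec hex, fun m hm => not_not.1 (Nat.find_min hex hm), Nat.find_min' hex hr⟩
  have hMn : ∃ z ∈ V L, F0 z ≤ 3 * (h : ℤ) + 1 := ⟨(0, 0), o_mem L, by simp only [F0]; omega⟩
  rcases split_last (fun z => F0 z ≤ 3 * (h : ℤ) + 1) hMn with h1 | ⟨X, c, Y, e, h1, h2⟩
  · -- the last vertex is too high
    exfalso
    apply hh
    have hE := hL.2
    rw [hE] at h1
    refine List.Pairwise.imp_of_mem ?_ (List.pairwise_of_forall (R := fun _ _ => True) fun _ _ => trivial)
    intro p q hp _ _ hpq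
    have := (hL.1.2 p hp).2
    omega
  · simp only [not_le] at h2
    -- the crossing after `X`
    have hc := cross_right (gd_std X) (b := c) (i := (h : ℤ) + 1) (by omega)
      (by
        have g1 := h2 _ (head_mem _ _ _)
        have g2 := ((gd_std X).step c).res
        omega)
    obtain ⟨hc1, hc2, hc3⟩ := hc
    have hEX : F0 (E X) = 3 * h + 1 := by omega
    obtain ⟨e1, e2, e3⟩ := app_right (Q := Y) hc1
    have hE3 : F0 (E X + (1, 0)) = 3 * h + 3 := by rw [← hc1]; omega
    have hN := hL.1.1
    have hin := hL.1.2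
    have hE := hL.2
    rw [e, e1] at hN hin
    rw [e, e2] at hE
    have h2' : ∀ z ∈ V Y, 3 * (h : ℤ) + 1 < F0 ((E X + (1, 0)) + z) := by
      intro z hz
      apply h2
      rw [hc1, vs_right]
      exact List.mem_map_of_mem (f := fun z => (E X + (1, 0)) + z) hz
    -- `X` visits a column `≥ M`
    have hXM : ∃ z ∈ V X, 3 * (M : ℤ) ≤ F0 z := by
      by_contra hno
      push Not at hno
      apply hh
      rw [e, e1, List.pairwise_append]
      refine ⟨?_, ?_, ?_⟩
      · refine List.Pairwise.imp_of_mem ?_ (List.pairwise_of_forall (R := fun _ _ => True) fun _ _ => trivial)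
        intro p q hp _ _ hpq
        have := hno p hp
        omega
      · refine List.Pairwise.imp_of_mem ?_ (List.pairwise_of_forall (R := fun _ _ => True) fun _ _ => trivial)
        intro p q _ hq _ hpq
        obtain ⟨w, hw, rfl⟩ := List.mem_map.1 hq
        have := h2' w hw
        omega
      · intro p hp q _ hpq
        have := hno p hp
        omega
    have hXS : SS n X := ⟨⟨(List.nodup_append.1 hN).1, fun z hz => hin z (List.mem_append_left _ hz)⟩,
      Or.inr (not_hz_of_tn (gd_std X) (Or.inl hc1))⟩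
    have hXh : ¬ hz (Dr X) := not_hz_of_tn (gd_std X) (Or.inl hc1)
    obtain ⟨z0, hz0, hz1⟩ := hXM
    rcases stepA hXS with ⟨k, hk, hF⟩ | ⟨a, P, Q, ha1, han, eX, hP, hQ⟩
    · exfalso
      have g1 := (hF.1.1.2 z0 hz0).2
      have g2 := hF.2
      omega
    · obtain ⟨f1, f2, f3⟩ := app_left (Q := Q) hP.tn_lt
      have hEP : F0 (E P + (-1, 0)) = 3 * a - 2 := by rw [F0_add, hP.2.1]; simp [F0]; ring
      have hVX : ∀ z ∈ V X, F0 z ≤ 3 * a + 1 := by
        intro z hz
        rw [eX, f1, List.mem_append] at hz
        rcases hz with hz | hz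
        · exact (hP.1.2 z hz).2
        · obtain ⟨w, hw, rfl⟩ := List.mem_map.1 hz
          have := (hQ.1.2 w hw).1
          rw [F0_sub, hEP]
          omega
      have hMa : M ≤ a := by
        have := hVX z0 hz0
        omega
      -- the vertices of `Q`
      have hQl : ∀ w ∈ V Q, 3 * (h : ℤ) ≤ F0 ((E P + (-1, 0)) - w) := by
        intro w hw
        have hmem : (E P + (-1, 0)) - w ∈ (V Q).map (fun z => (E P + (-1, 0)) - z) :=
          List.mem_map_of_mem (f := fun z => (E P + (-1, 0)) - z) hw
        have hmX : (E P + (-1, 0)) - w ∈ V X := by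
          rw [eX, f1]
          exact List.mem_append_right _ hmem
        rcases Nat.eq_zero_or_pos h with h0 | h0
        · have := (hXS.1.2 _ hmX).1
          rw [h0]
          simpa using this
        · have g1 := hmin (h - 1) (by omega)
          rw [e, e1, List.pairwise_append] at g1
          have g2 := g1.1
          rw [eX, f1, List.pairwise_append] at g2
          have g3 := g2.2.2 (E P) (E_mem P) _ hmem
          have g4 := res_std hmX
          have g5 := hP.2.1
          have g6 : ((h - 1 : ℕ) : ℤ) = (h : ℤ) - 1 := by omega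
          rw [g6, g5] at g3
          omega
      have hEQ : F0 (E Q) = 3 * ((a - 1 - h : ℕ) : ℤ) := by
        have g1 := hEX
        rw [eX, f2, F0_sub, hEP] at g1
        have : ((a - 1 - h : ℕ) : ℤ) = (a : ℤ) - 1 - h := by omega
        rw [this]
        omega
      have hBQ : Be (a - 1 - h) Q := by
        refine ⟨⟨hQ.1.1, fun w hw => ⟨(hQ.1.2 w hw).1, ?_⟩⟩, hEQ, ?_⟩
        · have g1 := hQl w hw
          rw [F0_sub, hEP] at g1
          have : ((a - 1 - h : ℕ) : ℤ) = (a : ℤ) - 1 - h := by omega
          rw [this]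
          omega
        · rw [eX, f3] at hXh
          exact fun h4 => hXh (hz_neg.2 h4)
      have hcQ : c = lt Q := by
        apply lt_unique
        rw [eX, f3, tn_neg] at hc1
        have : tn c (Dr Q) = - (1, 0) := by rw [← hc1, neg_neg]
        rw [this]
        rfl
      obtain ⟨X1, hX1, eP⟩ := Be_drop hP
      obtain ⟨X2, hX2, eQ⟩ := Be_drop hBQ
      refine ⟨a, a - 1 - h, X1, X2, Y, ?_, hX1, hX2, ⟨⟨?_, ?_⟩, ?_⟩, hMa, han, by omega, by omega, ?_⟩
      · rw [e, hcQ, eX, eP, eQ]
        unfold fw
        simp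
      · exact List.Nodup.of_map _ (List.nodup_append.1 hN).2.1
      · intro z hz
        have g1 := hin _ (List.mem_append_right _ (List.mem_map_of_mem (f := fun z => (E X + (1, 0)) + z) hz))
        have g2 := h2' z hz
        have g3 := res_std hz
        rw [F0_add, hE3] at g1 g2
        have : ((n - a + (a - 1 - h) : ℕ) : ℤ) = (n : ℤ) - 1 - h := by omega
        rw [this]
        omega
      · rw [F0_add, hE3] at hE
        have : ((n - a + (a - 1 - h) : ℕ) : ℤ) = (n : ℤ) - 1 - h := by omega
        rw [this]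
        omega
      · rintro i hi ⟨A, b, B, eY, r1, r2⟩
        have hca : ((i + (a - (a - 1 - h)) : ℕ) : ℤ) = (i : ℤ) + 1 + h := by omega
        obtain ⟨k1, k2, k3⟩ := app_right (Q := A) hc1
        refine ⟨X ++ c :: A, b, B, ?_, ?_, ?_⟩
        · rw [e, eY]
          simp
        · intro z hz
          rw [k1, List.mem_append] at hz
          rw [hca]
          rcases hz with hz | hz
          · have := hVX z hz
            omega
          · obtain ⟨w, hw, rfl⟩ := List.mem_map.1 hz
            have := r1 w hw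
            rw [F0_add, hE3]
            omega
        · intro z hz
          rw [k2, k3, add_assoc, vs_shift] at hz
          obtain ⟨w, hw, rfl⟩ := List.mem_map.1 hz
          have := r2 w hw
          rw [F0_add, hE3, hca]
          omega

end Pool.Agent.HEP
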