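import Pool.Agent.HEP.GFold
import Pool.Agent.HHP.StepA

/-!
Project PLY/R2 (MP_8c6f77_pr, polynomial bound, ROUTE A): THE CUT OF A RETURNING LEG, older leg (`σ = true`), in words.

The walk `L` in `Br n` goes TOWARDS the fold (which is beyond the column `n`) and has a vertex `q` in a column `≥ n - y`, followed by a
vertex `p` in a column `≤ n - M`, `y < M`.

PROOF. tau = last vertex in a column `≤ n - M`; `P` = part of the word up to tau. `W3` = up to the last visit of the highest column `b` of `P` (`b ≥ n - y`),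
`W2` (turned) = down to the last visit of the lowest column `b - 1 - k` of the rest (it is `≤ n - M`, so this is before tau), `W1` = the
rest, frame shifted by `b - k` columns.
-/

namespace Pool.Agent.HEP

open Pool.Agent.Hhelper14.SAW Pool.Agent.HHP

/-- The last visit of the column `k`, the walk ends to the left of it. -/
private lemma CV_fold {k : ℕ} {W : List Bool} (h1 : ∃ z ∈ V W, 3 * (k : ℤ) ≤ F0 z) (h2 : F0 (E W) < 3 * (k : ℤ)) :
    ∃ P Q, W = P ++ lt P :: Q ∧ F0 (E P) = 3 * k ∧ tn (lt P) (Dr P) = (-1, 0) ∧ ∀ z ∈ V Q, 0 ≤ F0 z := by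
  rcases split_last (fun z => 3 * (k : ℤ) ≤ F0 z) h1 with h3 | ⟨P, b, Q, rfl, h3, h4⟩
  · omega
  · have hlt : F0 (E P + tn b (Dr P)) < 3 * (k : ℤ) := not_le.1 (h4 _ (head_mem _ _ _))
    have hc := cross_left (gd_std P) (b := b) h3 hlt
    obtain rfl := lt_unique hc.1
    refine ⟨P, Q, rfl, hc.2.1, hc.1, fun z hz => ?_⟩
    have hE : F0 (E P + (-1, 0)) = 3 * k - 2 := by rw [← hc.1]; exact hc.2.2
    have g2 := h4 ((E P + (-1, 0)) - z) (by rw [hc.1, vs_left]; exact List.mem_map_of_mem hz)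
    have g3 := res_std hz
    rw [F0_sub, hE] at g2
    omega

/-- The highest column of a word. -/
private lemma CV_max {W : List Bool} (h0 : ∃ z ∈ V W, 0 ≤ F0 z) :
    ∃ k : ℕ, (∃ z ∈ V W, 3 * (k : ℤ) ≤ F0 z) ∧ ∀ z ∈ V W, F0 z ≤ 3 * k + 1 := by
  obtain ⟨z0, hz0, hmax⟩ := (V W).toFinset.exists_max_image (fun z => F0 z / 3) ⟨(0, 0), by simp [o_mem]⟩
  rw [List.mem_toFinset] at hz0
  have hmax' : ∀ z ∈ V W, F0 z / 3 ≤ F0 z0 / 3 := fun z hz => hmax z (by simpa using hz)
  obtain ⟨w, hw, hw0⟩ := h0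
  have h1 := hmax' w hw
  obtain ⟨k, hk⟩ : ∃ k : ℕ, F0 z0 / 3 = k := ⟨(F0 z0 / 3).toNat, by omega⟩
  refine ⟨k, ⟨z0, hz0, by omega⟩, fun z hz => ?_⟩
  have h2 := hmax' z hz
  have h3 := res_std hz
  omega

theorem cut_v {n M y : ℕ} {L : List Bool} (hL : Br n L) (hM : y < M)
    (hr : ¬ ((V L).Pairwise fun q p => ¬ (3 * ((n : ℤ) - y) ≤ F0 q ∧ F0 p ≤ 3 * ((n : ℤ) - M) + 1))) :
    ∃ b k W3 W2 W1, L = fw W3 (fw W2 W1) ∧ Br b W3 ∧ Br k W2 ∧ Br (n - b + k) W1 ∧ b ≤ n ∧ n ≤ b + y ∧ k + 1 ≤ b ∧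
      b + M ≤ n + k + 1 ∧ ∀ i, 1 ≤ i → i + k + 1 ≤ b → Ren i W3 → Ren i L := by
  have hex : ∃ z ∈ V L, F0 z ≤ 3 * ((n : ℤ) - M) + 1 := by
    by_contra h
    push Not at h
    refine hr (List.pairwise_of_forall_mem_list fun q _ p hp => ?_)
    have := h p hp
    omega
  obtain ⟨⟨hN, hin⟩, hE⟩ := hL
  rcases split_last (fun z => F0 z ≤ 3 * ((n : ℤ) - M) + 1) hex with h1 | ⟨P, c, Q, rfl, h1, h2⟩
  · omega
  have hPL : ∀ z ∈ V P, z ∈ V (P ++ c :: Q) := fun z hz => by
    rw [V_append]; exact List.mem_append_left _ hz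
  -- the vertex `q`
  have hq : ∃ q ∈ V P, 3 * ((n : ℤ) - y) ≤ F0 q := by
    by_contra h
    push Not at h
    apply hr
    rw [V_append]
    refine List.pairwise_append.2 ⟨?_, ?_, ?_⟩
    · refine List.pairwise_of_forall_mem_list fun q hq p _ => ?_
      have := h q hq
      omega
    · refine List.pairwise_of_forall_mem_list fun q _ p hp => ?_
      have := h2 p hp
      omega
    · intro q hq p _
      have := h q hq
      omega
  obtain ⟨q, hqP, hq⟩ := hq
  -- the end of `P`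
  have hc := cross_right (gd_std P) (b := c) (i := (n : ℤ) - M + 1) (by omega) (by
      have g1 := h2 _ (head_mem _ _ _)
      have g2 := ((gd_std P).step c).res
      omega)
  -- the tip
  obtain ⟨b, ⟨z1, hz1, hz1b⟩, hb⟩ := CV_max (W := P) ⟨(0, 0), o_mem P, by simp [F0]⟩
  have hqb := hb q hqP
  have hnb : (n : ℤ) ≤ b + y := by omega
  obtain ⟨P1, P2, hP, e1, e2, e3⟩ := CV_fold (W := P) ⟨z1, hz1, hz1b⟩ (by rw [hc.2.1]; omega)
  have hP1 : ∀ z ∈ V P1, z ∈ V P := fun z hz => by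
    rw [hP, V_append]; exact List.mem_append_left _ hz
  have hNP : (V P).Nodup := by
    rw [V_append] at hN
    exact (List.nodup_append.1 hN).1
  have hBe : Be b P1 := by
    refine ⟨⟨?_, fun z hz => ⟨(hin z (hPL z (hP1 z hz))).1, hb z (hP1 z hz)⟩⟩, e1,
      not_hz_of_tn (gd_std P1) (Or.inr e2)⟩
    rw [hP, V_append] at hNP
    exact (List.nodup_append.1 hNP).1
  obtain ⟨W3, hW3, hP1e⟩ := Be_drop hBe
  have hPf : P = fw W3 P2 := by
    rw [hP, hP1e]
    unfold fw
    simp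
  have hLf : P ++ c :: Q = fw W3 (P2 ++ c :: Q) := by
    rw [hPf]
    unfold fw
    simp
  obtain ⟨v1, v2, -, -⟩ := fw_V hW3 (P2 ++ c :: Q)
  obtain ⟨u1, u2, -, -⟩ := fw_V hW3 P2
  rw [← hLf] at v1 v2
  rw [← hPf] at u1 u2
  have hfe := fe_F0 hW3
  have hF : ∀ z, F0 (fe W3 + (-1, 0) - z) = 3 * b - 2 - F0 z := by
    intro z
    rw [F0_sub, F0_add, hfe]
    simp only [F0]
    ring
  set R := P2 ++ c :: Q with hR
  have hRL : ∀ z ∈ V R, fe W3 + (-1, 0) - z ∈ V (P ++ c :: Q) := by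
    intro z hz
    rw [v1]
    exact List.mem_append_right _ (List.mem_cons_of_mem _ (List.mem_map_of_mem hz))
  -- the part after `P2`
  have hQv : ∀ z ∈ vs (E P2 + tn c (Dr P2)) (tn c (Dr P2)) Q,
      F0 z < 3 * ((b : ℤ) - 1 - (n - M)) := by
    have h3 : vs (E P + tn c (Dr P)) (tn c (Dr P)) Q =
        (vs (E P2 + tn c (Dr P2)) (tn c (Dr P2)) Q).map (fun z => fe W3 + (-1, 0) - z) := by
      have h4 := v1
      rw [hR, V_append, V_append, u1, List.map_append, List.append_assoc, List.cons_append] at h4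
      exact List.append_cancel_left (List.cons.inj (List.append_cancel_left h4)).2
    intro z hz
    have h4 := h2 (fe W3 + (-1, 0) - z) (by rw [h3]; exact List.mem_map_of_mem hz)
    rw [hF] at h4
    have h5 : F0 z % 3 = 0 ∨ F0 z % 3 = 1 := ((gd_std P2).step c).mem hz
    omega
  have hEP2 : F0 (E P2) = 3 * ((b : ℤ) - 1 - (n - M)) := by
    have h3 := hc.2.1
    rw [u2, hF] at h3
    omega
  -- the lowest column
  obtain ⟨k, ⟨z2, hz2, hz2k⟩, hk⟩ := CV_max (W := R) ⟨(0, 0), o_mem R, by simp [F0]⟩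
  have hkM : (b : ℤ) - 1 - (n - M) ≤ k := by
    have h3 := hk (E P2) (by rw [hR, V_append]; exact List.mem_append_left _ (E_mem P2))
    omega
  obtain ⟨R1, W1, hR1, f1, f2, f3⟩ := CV_fold (W := R) ⟨z2, hz2, hz2k⟩ (by
    have h3 := hE
    rw [v2, hF] at h3
    omega)
  have hbn : b ≤ n := by
    have h3 := (hin (E W3) (by rw [v1]; exact List.mem_append_left _ (E_mem W3))).2
    rw [hW3.2] at h3
    omega
  have hR1R : ∀ z ∈ V R1, z ∈ V R := fun z hz => by
    rw [hR1, V_append]; exact List.mem_append_left _ hz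
  have hNR : (V R).Nodup := by
    rw [v1] at hN
    exact List.Nodup.of_map _ (List.nodup_cons.1 (List.nodup_append.1 hN).2.1).2
  -- the first part of `R` is a part of `P2`
  have hlow : ∀ z ∈ V R1, 0 ≤ F0 z := by
    intro z hz
    apply e3
    have h3 : P2 ++ c :: Q = R1 ++ lt R1 :: W1 := hR1
    rcases List.append_eq_append_iff.1 h3 with ⟨as, g1, g2⟩ | ⟨cs, g1, g2⟩
    · cases as with
      | nil =>
        rw [List.append_nil] at g1
        rwa [g1] at hz
      | cons a as =>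
        exfalso
        rw [List.cons_append, List.cons.injEq] at g2
        obtain ⟨rfl, g3⟩ := g2
        have h4 : E R1 ∈ vs (E P2 + tn c (Dr P2)) (tn c (Dr P2)) Q := by
          rw [g1, E_append, g3, vs_append]
          exact List.mem_append_left _ (ep_mem _ _ _)
        have h5 := hQv _ h4
        omega
    · rw [g1]
      cases cs with
      | nil => rwa [List.append_nil]
      | cons a cs => rw [V_append]; exact List.mem_append_left _ hz
  have hBe2 : Be k R1 := by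
    refine ⟨⟨?_, fun z hz => ⟨hlow z hz, hk z (hR1R z hz)⟩⟩, f1, not_hz_of_tn (gd_std R1) (Or.inr f2)⟩
    rw [hR1, V_append] at hNR
    exact (List.nodup_append.1 hNR).1
  obtain ⟨W2, hW2, hR1e⟩ := Be_drop hBe2
  have hRf : R = fw W2 W1 := by
    rw [hR1, hR1e]
    unfold fw
    simp
  obtain ⟨w1, w2, -, -⟩ := fw_V hW2 W1
  rw [← hRf] at w1 w2
  have hfe2 := fe_F0 hW2
  have hG : ∀ z, F0 (fe W2 + (-1, 0) - z) = 3 * k - 2 - F0 z := by
    intro z
    rw [F0_sub, F0_add, hfe2]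
    simp only [F0]
    ring
  have hkb : k + 1 ≤ b := by
    have h3 := (hin _ (hRL (E W2) (by rw [w1]; exact List.mem_append_left _ (E_mem W2)))).1
    rw [hF, hW2.2] at h3
    omega
  refine ⟨b, k, W3, W2, W1, by rw [hLf, hRf], hW3, hW2, ⟨⟨?_, fun z hz => ⟨f3 z hz, ?_⟩⟩, ?_⟩, hbn, by omega, hkb,
    by omega, ?_⟩
  · rw [w1] at hNR
    exact List.Nodup.of_map _ (List.nodup_cons.1 (List.nodup_append.1 hNR).2.1).2
  · have h3 := (hin _ (hRL (fe W2 + (-1, 0) - z) (by
      rw [w1]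
      exact List.mem_append_right _ (List.mem_cons_of_mem _ (List.mem_map_of_mem hz))))).2
    rw [hF, hG] at h3
    omega
  · have h3 := hE
    rw [v2, hF, w2, hG] at h3
    omega
  · rintro i hi hik ⟨A, d, B, hA, hA1, hA2⟩
    refine ⟨A, d, B ++ (!rt W3) :: lt (W3 ++ [!rt W3]) :: R, ?_, hA1, ?_⟩
    · rw [hLf]
      unfold fw
      rw [hA]
      simp
    · intro z hz
      have h3 : V (P ++ c :: Q) = V A ++ vs (E A + tn d (Dr A)) (tn d (Dr A))
          (B ++ (!rt W3) :: lt (W3 ++ [!rt W3]) :: R) := by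
        rw [← V_append, hLf]
        unfold fw
        rw [hA]
        simp
      have h4 : V W3 = V A ++ vs (E A + tn d (Dr A)) (tn d (Dr A)) B := by
        rw [hA, V_append]
      rw [v1, h4, List.append_assoc] at h3
      have h5 := List.append_cancel_left h3
      rw [← h5, List.mem_append, List.mem_cons, List.mem_map] at hz
      rcases hz with hz | rfl | ⟨w, hw, rfl⟩
      · exact hA2 z hz
      · rw [hfe]
        omega
      · have h6 := hk w hw
        rw [hF]
        omega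

end Pool.Agent.HEP
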