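import Pool.Agent.PLY.R2.Fold

/-!
Project PLY, RETURN ESTIMATE, module MqSplit: the pieces of case I when the height of `l1` is close to the height of the strand: `l1` ends with a giant too.

PAPER PROOF. `k + 4 ≤ j`. In `mq σ j k`, `l1` is in `FP (2 ^ (j-3))`, not empty: `l1 = s1 ++ [G1]`, `h s1 < 2 ^ (j-3)` (`tsum_snoc`, `FP_snoc`), and
`ht G1 = h l1 - h s1 ≥ hu - 2 ^ (k+1) - 2 ^ (j-3) ≥ 3 2 ^ (j-2) - 2 ^ (j-3) - 2 ^ (j-3) = 2 ^ (j-1)`. `ht G ≥ 3 2 ^ (j-2) - 2 2 ^ (j-3) = 2 ^ (j-1)`. Classes `a = size (h s1)`, `b = size (h s2)`, `g = size (h s3)`, all `≤ j - 3`.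
If `a ≤ b` (so `h s1 < 2 ^ b`): `av σ (s2 ++ [G]) (s1 ++ [G1])` implies `av σ s2 (s1 ++ [G1])` (`av_pre` with `s' = []`): `mA σ j k b`. If `b < a`: `gf σ (s2 ++ [G]) (s1 ++ [G1])` gives `gp σ (s2 ++ [G]) s1`: `mB σ j k a b g`.
(For a fixed `(s1, s2, s3)` exactly one term of the sum is used: `Finset.single_le_sum`.)
-/

namespace Pool.Agent.HEP

open scoped ENNReal
open Finset

namespace Sys

variable {S : Sys}

private theorem mqs_comm {ι α₁ α₂ α₃ α₄ α₅ α₆ : Type} (s : Finset ι)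
    (f : ι → α₁ → α₂ → α₃ → α₄ → α₅ → α₆ → ℝ≥0∞) :
    ∑ i ∈ s, ∑' a, ∑' b, ∑' c, ∑' d, ∑' e, ∑' g, f i a b c d e g =
      ∑' a, ∑' b, ∑' c, ∑' d, ∑' e, ∑' g, ∑ i ∈ s, f i a b c d e g := by
  rw [← Summable.tsum_finsetSum (fun i _ => ENNReal.summable)]
  refine tsum_congr fun a => ?_
  rw [← Summable.tsum_finsetSum (fun i _ => ENNReal.summable)]
  refine tsum_congr fun b => ?_
  rw [← Summable.tsum_finsetSum (fun i _ => ENNReal.summable)]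
  refine tsum_congr fun c => ?_
  rw [← Summable.tsum_finsetSum (fun i _ => ENNReal.summable)]
  refine tsum_congr fun d => ?_
  rw [← Summable.tsum_finsetSum (fun i _ => ENNReal.summable)]
  refine tsum_congr fun e => ?_
  rw [← Summable.tsum_finsetSum (fun i _ => ENNReal.summable)]

theorem mq_split (σ : Bool) {j k : ℕ} (hk : k + 4 ≤ j) :
    S.mq σ j k ≤ ∑ b ∈ range (j - 2), S.mA σ j k b +
      ∑ a ∈ range (j - 2), ∑ b ∈ range a, ∑ g ∈ range (j - 2), S.mB σ j k a b g := by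
  have hN : 0 < 2 ^ (j - 3) := by positivity
  have h2 : 2 ^ (j - 2) = 2 * 2 ^ (j - 3) := by
    rw [show j - 2 = (j - 3) + 1 by omega, pow_succ]; ring
  have h1 : 2 ^ (j - 1) = 4 * 2 ^ (j - 3) := by
    rw [show j - 1 = (j - 3) + 2 by omega, pow_add]; ring
  have hk1 : 2 ^ (k + 1) ≤ 2 ^ (j - 3) := Nat.pow_le_pow_right (by norm_num) (by omega)
  unfold Sys.mA Sys.mB
  rw [mqs_comm]
  simp_rw [mqs_comm]
  simp_rw [← ENNReal.tsum_add]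
  unfold Sys.mq
  rw [Alph.tsum_snoc]
  have h0 : (∑' s2, ∑' G, ∑' s3, ∑' t, ind (S.qI σ j [] s2 G s3 t ∧ 3 * 2 ^ (j - 2) ≤ S.h s2 + S.ht G + S.h s3 ∧
      S.h [] ≤ S.h s2 + S.ht G + S.h s3 + 2 ^ (k + 1) ∧ S.h s2 + S.ht G + S.h s3 ≤ S.h [] + 2 ^ (k + 1)) *
      (S.w [] * S.w s2 * S.wt G * S.w s3 * S.w t)) = 0 := by
    simp only [ENNReal.tsum_eq_zero]
    intro s2 G s3 t
    rw [ind_false, zero_mul]
    rintro ⟨⟨_, _, _, _, h5, _⟩, _⟩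
    have := S.FP_nil.1 h5
    omega
  rw [h0, zero_add]
  refine ENNReal.tsum_le_tsum fun s1 => ENNReal.tsum_le_tsum fun G1 => ENNReal.tsum_le_tsum fun s2 =>
    ENNReal.tsum_le_tsum fun G => ENNReal.tsum_le_tsum fun s3 => ENNReal.tsum_le_tsum fun t => ?_
  have hw : S.w (s1 ++ [G1]) = S.w s1 * S.wt G1 := by
    rw [S.w_append, S.w_cons, S.w_nil, mul_one]
  have hh : S.h (s1 ++ [G1]) = S.h s1 + S.ht G1 := by
    rw [S.h_append, S.h_cons, S.h_nil, add_zero]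
  rw [hw, hh]
  simp_rw [← Finset.sum_mul]
  rw [← add_mul]
  gcongr ?_ * _
  by_cases hQ : (S.qI σ j (s1 ++ [G1]) s2 G s3 t ∧ 3 * 2 ^ (j - 2) ≤ S.h s2 + S.ht G + S.h s3 ∧
      S.h s1 + S.ht G1 ≤ S.h s2 + S.ht G + S.h s3 + 2 ^ (k + 1) ∧
      S.h s2 + S.ht G + S.h s3 ≤ S.h s1 + S.ht G1 + 2 ^ (k + 1))
  swap
  · rw [ind_false hQ]; exact zero_le
  obtain ⟨⟨q1, q2, q3, q4, q5, q6, q7, q8⟩, q9, q10, q11⟩ := hQ
  obtain ⟨q5a, q5b⟩ := S.FP_snoc.1 q5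
  have ha : Nat.size (S.h s1) ≤ j - 3 := Nat.size_le.2 q5a
  have hb : Nat.size (S.h s2) ≤ j - 3 := Nat.size_le.2 q7
  have hg : Nat.size (S.h s3) ≤ j - 3 := Nat.size_le.2 q8
  have hG1 : 2 ^ (j - 1) ≤ S.ht G1 := by omega
  have hG : 2 ^ (j - 1) ≤ S.ht G := by omega
  refine (ind_le_one _).trans ?_
  by_cases hab : S.h s1 < 2 ^ Nat.size (S.h s2)
  · refine le_trans ?_ le_self_add
    refine le_trans (le_of_eq (ind_true ?_).symm)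
      (Finset.single_le_sum (f := fun b => ind (S.av σ s2 (s1 ++ [G1]) ∧ S.av σ t (s3 ++ [G]) ∧
        S.gf (!σ) (s3 ++ [G]) t ∧ S.h s1 < 2 ^ b ∧ Nat.size (S.h s2) = b ∧ S.h s3 < 2 ^ (j - 3) ∧ S.FP (2 ^ (j - 3)) t ∧
        2 ^ (j - 1) ≤ S.ht G1 ∧ 2 ^ (j - 1) ≤ S.ht G ∧
        S.h s1 + S.ht G1 ≤ S.h s2 + S.ht G + S.h s3 + 2 ^ (k + 1) ∧
        S.h s2 + S.ht G + S.h s3 ≤ S.h s1 + S.ht G1 + 2 ^ (k + 1))) (fun _ _ => zero_le)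
        (Finset.mem_range.2 (show Nat.size (S.h s2) < j - 2 by omega)))
    refine ⟨?_, q3, q4, hab, rfl, q8, q6, hG1, hG, q10, q11⟩
    exact S.av_pre (l := s2) (l' := [G]) (s := s1 ++ [G1]) (s' := []) (by rwa [List.append_nil])
  · refine le_trans ?_ le_add_self
    have hlt : Nat.size (S.h s2) < Nat.size (S.h s1) := by
      by_contra hc
      exact hab (Nat.size_le.1 (not_lt.1 hc))
    refine le_trans ?_ (Finset.single_le_sum (f := fun a => ∑ b ∈ range a, ∑ g ∈ range (j - 2),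
      ind (S.gp σ (s2 ++ [G]) s1 ∧ S.av σ t (s3 ++ [G]) ∧
        S.gf (!σ) (s3 ++ [G]) t ∧ Nat.size (S.h s1) = a ∧ Nat.size (S.h s2) = b ∧ Nat.size (S.h s3) = g ∧
        S.FP (2 ^ (j - 3)) t ∧ 2 ^ (j - 1) ≤ S.ht G1 ∧ 2 ^ (j - 1) ≤ S.ht G ∧
        S.h s1 + S.ht G1 ≤ S.h s2 + S.ht G + S.h s3 + 2 ^ (k + 1) ∧
        S.h s2 + S.ht G + S.h s3 ≤ S.h s1 + S.ht G1 + 2 ^ (k + 1))) (fun _ _ => zero_le)
        (Finset.mem_range.2 (show Nat.size (S.h s1) < j - 2 by omega)))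
    refine le_trans ?_ (Finset.single_le_sum (f := fun b => ∑ g ∈ range (j - 2),
      ind (S.gp σ (s2 ++ [G]) s1 ∧ S.av σ t (s3 ++ [G]) ∧
        S.gf (!σ) (s3 ++ [G]) t ∧ Nat.size (S.h s1) = Nat.size (S.h s1) ∧ Nat.size (S.h s2) = b ∧
        Nat.size (S.h s3) = g ∧
        S.FP (2 ^ (j - 3)) t ∧ 2 ^ (j - 1) ≤ S.ht G1 ∧ 2 ^ (j - 1) ≤ S.ht G ∧
        S.h s1 + S.ht G1 ≤ S.h s2 + S.ht G + S.h s3 + 2 ^ (k + 1) ∧
        S.h s2 + S.ht G + S.h s3 ≤ S.h s1 + S.ht G1 + 2 ^ (k + 1))) (fun _ _ => zero_le)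
        (Finset.mem_range.2 hlt))
    refine le_trans ?_ (Finset.single_le_sum (f := fun g =>
      ind (S.gp σ (s2 ++ [G]) s1 ∧ S.av σ t (s3 ++ [G]) ∧
        S.gf (!σ) (s3 ++ [G]) t ∧ Nat.size (S.h s1) = Nat.size (S.h s1) ∧
        Nat.size (S.h s2) = Nat.size (S.h s2) ∧ Nat.size (S.h s3) = g ∧
        S.FP (2 ^ (j - 3)) t ∧ 2 ^ (j - 1) ≤ S.ht G1 ∧ 2 ^ (j - 1) ≤ S.ht G ∧
        S.h s1 + S.ht G1 ≤ S.h s2 + S.ht G + S.h s3 + 2 ^ (k + 1) ∧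
        S.h s2 + S.ht G + S.h s3 ≤ S.h s1 + S.ht G1 + 2 ^ (k + 1))) (fun _ _ => zero_le)
        (Finset.mem_range.2 (show Nat.size (S.h s3) < j - 2 by omega)))
    refine le_of_eq (ind_true ?_).symm
    exact ⟨q2 s1 G1 rfl, q3, q4, rfl, rfl, rfl, q6, hG1, hG, q10, q11⟩

end Sys

end Pool.Agent.HEP
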