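import Pool.Agent.PLY.R2.All
import Pool.Agent.PLY.R2.MqSplit
import Pool.Agent.PLY.R2.CA
import Pool.Agent.PLY.R2.CB

/-!
Project PLY, RETURN ESTIMATE, module MqSum: sum over the classes.

PAPER PROOF. `j < k + 4`: `mq_le_all`, `θ ^ (3j) = θ ^ (3j) τ ^ (j-k) τ⁻¹ ^ (j-k)`, `j - k ≤ 3`, `τ⁻¹ ≥ 1`. `k + 4 ≤ j`: `mq_split`, `mA_le`, `mB_le`:
`τ ^ (2x) ≤ τ ^ x`, `θ ^ (3x) ≤ θ ^ x`, then `∑_(b ≤ j-3) τ ^ (j-1-b) θ ^ (b-(k+2)) ≤ C τ ^ (j-1-(k+2))` (`geo2` with `j-1`, `n = j-3`, `k+2 ≤ j-1`);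
`τ ^ (j-1-(k+2)) = τ ^ (j-k) τ⁻¹ ^ 3`. Second sum: `∑_(g ≤ j-3) τ ^ (j-1-g) ≤ (1-τ)⁻¹` (`geo1`), `∑_(b < a) τ ^ (j-1-b) ≤ (1-τ)⁻¹ τ ^ (j-1-a)` (`range a ⊆ range (a+1)`), then `geo2` again.
(`range (j-2) = range (j-3+1)`.)
-/

namespace Pool.Agent.HEP

open scoped ENNReal
open Finset

namespace Sys

variable {S : Sys}

theorem mq_le {κ θ τ : ℝ≥0∞} (hq : S.Rq κ θ) (h1 : θ < τ) (h2 : τ < 1) : ∃ C : ℝ≥0∞, C ≠ ⊤ ∧
    ∀ (K : ℝ≥0∞) (σ : Bool) (j k : ℕ), 3 ≤ j → S.Fz K θ τ (j - 3) →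
      S.mq σ j k ≤ C * K ^ 2 * (θ ^ (3 * j) * τ ^ (j - k)) := by
  obtain ⟨C1, hC1, H1⟩ := mq_le_all hq h1 h2
  obtain ⟨C2, hC2, H2⟩ := mA_le hq h1 h2
  obtain ⟨C3, hC3, H3⟩ := mB_le hq h1 h2
  obtain ⟨Cg, hCg, Hg⟩ := R2.geo2 hq.th_ne_zero h1 h2
  have hτ0 : τ ≠ 0 := (lt_of_le_of_lt zero_le h1).ne'
  have hτt : τ ≠ ⊤ := (h2.trans_le le_top).ne
  have hτ1 : τ ≤ 1 := h2.le
  have hθ1 : θ ≤ 1 := hq.th_lt.le
  set T : ℝ≥0∞ := (1 - τ)⁻¹ with hT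
  have hTt : T ≠ ⊤ := ENNReal.inv_ne_top.2 (tsub_pos_iff_lt.2 h2).ne'
  have hi : (τ⁻¹) ^ 3 * τ ^ 3 = 1 := by
    rw [← mul_pow, ENNReal.inv_mul_cancel hτ0 hτt, one_pow]
  refine ⟨(C1 + (C2 * Cg + C3 * T * T * Cg)) * (τ⁻¹) ^ 3, ?_, ?_⟩
  · refine ENNReal.mul_ne_top (ENNReal.add_ne_top.2 ⟨hC1, ENNReal.add_ne_top.2 ⟨ENNReal.mul_ne_top hC2 hCg, ?_⟩⟩)
      (ENNReal.pow_ne_top (ENNReal.inv_ne_top.2 hτ0))
    exact ENNReal.mul_ne_top (ENNReal.mul_ne_top (ENNReal.mul_ne_top hC3 hTt) hTt) hCg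
  intro K σ j k hj hF
  rcases Nat.lt_or_ge j (k + 4) with hk | hk
  · have h3 : (1 : ℝ≥0∞) ≤ (τ⁻¹) ^ 3 * τ ^ (j - k) := by
      rw [← hi]
      gcongr (τ⁻¹) ^ 3 * ?_
      exact pow_le_pow_of_le_one zero_le hτ1 (by omega)
    calc S.mq σ j k ≤ C1 * K ^ 2 * θ ^ (3 * j) := H1 K σ j k hj hF
      _ = C1 * K ^ 2 * θ ^ (3 * j) * 1 := (mul_one _).symm
      _ ≤ (C1 + (C2 * Cg + C3 * T * T * Cg)) * K ^ 2 * θ ^ (3 * j) * ((τ⁻¹) ^ 3 * τ ^ (j - k)) := by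
        gcongr
        exact le_self_add
      _ = _ := by ring
  · have hr : j - 2 = (j - 3) + 1 := by omega
    have hp : τ ^ (j - 1 - (k + 2)) = (τ⁻¹) ^ 3 * τ ^ (j - k) := by
      have e : j - k = 3 + (j - 1 - (k + 2)) := by omega
      rw [e, pow_add, ← mul_assoc, hi, one_mul]
    -- the first sum
    have hA : ∑ b ∈ range (j - 2), S.mA σ j k b ≤
        C2 * K ^ 2 * θ ^ (3 * j) * (Cg * τ ^ (j - 1 - (k + 2))) := by
      calc ∑ b ∈ range (j - 2), S.mA σ j k b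
          ≤ ∑ b ∈ range (j - 2), C2 * K ^ 2 * θ ^ (3 * j) * (τ ^ (j - 1 - b) * θ ^ (b - (k + 2))) := by
            refine sum_le_sum fun b hb => ?_
            have hb' := mem_range.1 hb
            refine (H2 K σ j k b hj (by omega) hF).trans ?_
            gcongr ?_ * (?_ * ?_)
            · exact le_rfl
            · exact pow_le_pow_of_le_one zero_le hτ1 (by omega)
            · exact pow_le_pow_of_le_one zero_le hθ1 (by omega)
        _ = C2 * K ^ 2 * θ ^ (3 * j) * ∑ b ∈ range (j - 3 + 1), (τ ^ (j - 1 - b) * θ ^ (b - (k + 2))) := by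
            rw [← mul_sum, hr]
        _ ≤ _ := by
            gcongr
            exact Hg (j - 1) (j - 3) (k + 2) (by omega) (by omega)
    -- the second sum
    have hB : ∑ a ∈ range (j - 2), ∑ b ∈ range a, ∑ g ∈ range (j - 2), S.mB σ j k a b g ≤
        C3 * K ^ 2 * θ ^ (3 * j) * (T * T * (Cg * τ ^ (j - 1 - (k + 2)))) := by
      have hg : ∑ g ∈ range (j - 2), τ ^ (j - 1 - g) ≤ T := by
        rw [hr]
        refine (R2.geo1 h2 (by omega : j - 3 ≤ j - 1)).trans ?_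
        calc (1 - τ)⁻¹ * τ ^ (j - 1 - (j - 3)) ≤ (1 - τ)⁻¹ * 1 := by
              gcongr
              exact pow_le_one₀ zero_le hτ1
          _ = T := mul_one _
      have hb : ∀ a, a ≤ j - 3 → ∑ b ∈ range a, τ ^ (j - 1 - b) ≤ T * τ ^ (j - 1 - a) := by
        intro a ha
        refine le_trans ?_ (R2.geo1 h2 (by omega : a ≤ j - 1))
        exact sum_le_sum_of_subset (range_subset_range.2 (Nat.le_succ a))
      calc ∑ a ∈ range (j - 2), ∑ b ∈ range a, ∑ g ∈ range (j - 2), S.mB σ j k a b g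
          ≤ ∑ a ∈ range (j - 2), ∑ b ∈ range a, ∑ g ∈ range (j - 2),
              C3 * K ^ 2 * θ ^ (3 * j) * (θ ^ (a - (k + 2)) * τ ^ (j - 1 - b) * τ ^ (j - 1 - g)) := by
            refine sum_le_sum fun a ha => sum_le_sum fun b hb => sum_le_sum fun g hg => ?_
            have ha' := mem_range.1 ha
            have hb' := mem_range.1 hb
            have hg' := mem_range.1 hg
            exact H3 K σ j k a b g hj hb' (by omega) (by omega) hF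
        _ = C3 * K ^ 2 * θ ^ (3 * j) * ∑ a ∈ range (j - 2), (θ ^ (a - (k + 2)) *
              ((∑ b ∈ range a, τ ^ (j - 1 - b)) * ∑ g ∈ range (j - 2), τ ^ (j - 1 - g))) := by
            simp only [mul_sum, sum_mul]
            refine sum_congr rfl fun a _ => ?_
            rw [sum_comm]
            refine sum_congr rfl fun g _ => sum_congr rfl fun b _ => ?_
            ring
        _ ≤ C3 * K ^ 2 * θ ^ (3 * j) * ∑ a ∈ range (j - 2), (θ ^ (a - (k + 2)) *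
              ((T * τ ^ (j - 1 - a)) * T)) := by
            gcongr with a ha
            have ha' := mem_range.1 ha
            exact hb a (by omega)
        _ = C3 * K ^ 2 * θ ^ (3 * j) * (T * T * ∑ a ∈ range (j - 3 + 1), (τ ^ (j - 1 - a) * θ ^ (a - (k + 2)))) := by
            rw [mul_sum (range (j - 3 + 1)), hr]
            congr 1
            refine sum_congr rfl fun a _ => ?_
            ring
        _ ≤ _ := by
            gcongr
            exact Hg (j - 1) (j - 3) (k + 2) (by omega) (by omega)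
    calc S.mq σ j k ≤ _ := mq_split σ hk
      _ ≤ C2 * K ^ 2 * θ ^ (3 * j) * (Cg * τ ^ (j - 1 - (k + 2))) +
          C3 * K ^ 2 * θ ^ (3 * j) * (T * T * (Cg * τ ^ (j - 1 - (k + 2)))) := add_le_add hA hB
      _ = (C2 * Cg + C3 * T * T * Cg) * ((τ⁻¹) ^ 3) * K ^ 2 * (θ ^ (3 * j) * τ ^ (j - k)) := by
        rw [hp]
        ring
      _ ≤ (C1 + (C2 * Cg + C3 * T * T * Cg)) * ((τ⁻¹) ^ 3) * K ^ 2 * (θ ^ (3 * j) * τ ^ (j - k)) := by
        gcongr ?_ * _ * _ * _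
        exact le_add_self

end Sys

end Pool.Agent.HEP
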