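import Pool.Agent.PLY.R2.Reg

/-!
Project PLY, RETURN ESTIMATE, module Red: case I, sum over the free end `R1` of the first strand.

PAPER PROOF. Fix `l1, s2, G, s3, t`; `hu := h s2 + ht G + h s3`. CLAIM: if the conditions of `trI` hold for some `R1` then
`∑' R1, ind (heights) * w R1 ≤ ∑ k ∈ Ico i (j + 2), ind (h l1 ≤ hu + 2 ^ (k+1) ∧ hu ≤ h l1 + 2 ^ (k+1)) * (C 2 ^ i θ ^ k)`, with `C = κ (3 θ⁻¹ + θ⁻¹ ^ 6)`:
(a) `hu < h l1 + 2 ^ (i+1)`: then `h R1 ≤ 2 ^ (i+1) + 2 ^ i ≤ 2 ^ (i+2)`, so the sum is at most `U (2 ^ (i+2)) ≤ κ θ⁻¹ ^ (3 (i+2)) = κ θ⁻¹ ^ 6 2 ^ i θ ^ i` (`small_le`, `U_inv`, `two_pow_th`); term `k = i`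
    (`h l1 ≤ h l1 + h R1 ≤ hu + 2 ^ i`).
(b) `h l1 + 2 ^ (i+1) ≤ hu`: let `2 ^ k ≤ hu - h l1 < 2 ^ (k+1)`, so `i + 1 ≤ k` and `k ≤ j + 1` (`hu ≤ h l1 + h R1 + 2 ^ i < 2 ^ (j+1) + 2 ^ i ≤ 2 ^ (j+2)`); `h R1` is in `[c, c + 2 ^ (i+1)]` with
    `c = hu - h l1 - 2 ^ i ≥ 2 ^ (k-1)`: `win_far`: at most `(2 ^ (i+1) + 1) b c ≤ 3 2 ^ i b (2 ^ (k-1)) ≤ 3 2 ^ i κ θ ^ (k-1) = 3 κ θ⁻¹ 2 ^ i θ ^ k`.
Moreover `3 2 ^ (j-2) ≤ hu` since `2 ^ j ≤ h l1 + h R1 ≤ hu + 2 ^ i` and `2 ^ i ≤ 2 ^ (j-2)`. Sum over `l1, s2, G, s3, t`.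
-/

namespace Pool.Agent.HEP

open scoped ENNReal
open Finset

namespace Sys

variable {S : Sys}

private lemma red_sum_tsum {α : Type*} (s : Finset ℕ) (c : ℕ → ℝ≥0∞) (f : α → ℕ → ℝ≥0∞) :
    ∑ k ∈ s, c k * ∑' x, f x k = ∑' x, ∑ k ∈ s, c k * f x k := by
  rw [Summable.tsum_finsetSum (fun i _ => ENNReal.summable)]
  exact Finset.sum_congr rfl fun k _ => by rw [ENNReal.tsum_mul_left]

private lemma red_win {κ θ : ℝ≥0∞} (hq : S.Rq κ θ) (a u i j : ℕ) (hij : i + 2 ≤ j) :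
    ∑' R, ind (2 ^ j ≤ a + S.h R ∧ a + S.h R < 2 ^ (j + 1) ∧ a + S.h R ≤ u + 2 ^ i ∧
        u ≤ a + S.h R + 2 ^ i) * S.w R ≤
      ∑ k ∈ Ico i (j + 2), (κ * (3 * θ⁻¹ + θ⁻¹ ^ 6) * 2 ^ i * θ ^ k) *
        ind (3 * 2 ^ (j - 2) ≤ u ∧ a ≤ u + 2 ^ (k + 1) ∧ u ≤ a + 2 ^ (k + 1)) := by
  have hθ0 : θ ≠ 0 := hq.th_ne_zero
  have hθt : θ ≠ ⊤ := hq.th_ne_top
  by_cases hex : ∃ R : List S.B, 2 ^ j ≤ a + S.h R ∧ a + S.h R < 2 ^ (j + 1) ∧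
      a + S.h R ≤ u + 2 ^ i ∧ u ≤ a + S.h R + 2 ^ i
  · obtain ⟨R0, h1, h2, h3, h4⟩ := hex
    have hi2 : 2 ^ i ≤ 2 ^ (j - 2) := Nat.pow_le_pow_right (by norm_num) (by omega)
    have hj2 : 2 ^ j = 4 * 2 ^ (j - 2) := by
      obtain ⟨e, rfl⟩ := Nat.exists_eq_add_of_le hij
      rw [show i + 2 + e - 2 = i + e from by omega, show i + 2 + e = (i + e) + 2 from by ring, pow_add]
      ring
    have hj1 : 2 ^ (j + 1) = 2 * 2 ^ j := by rw [pow_succ]; ring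
    have hu : 3 * 2 ^ (j - 2) ≤ u := by omega
    have hi1 : 2 ^ (i + 1) = 2 * 2 ^ i := by rw [pow_succ]; ring
    have hi22 : 2 ^ (i + 2) = 4 * 2 ^ i := by rw [pow_add]; ring
    have h2i : ∀ i : ℕ, (2 : ℝ≥0∞) ^ i * θ ^ i = θ⁻¹ ^ (3 * i) := by
      intro i
      have e1 : θ ^ i = θ ^ (4 * i) * θ⁻¹ ^ (3 * i) := by
        rw [show 4 * i = i + 3 * i from by ring, pow_add, mul_assoc, ← mul_pow,
          ENNReal.mul_inv_cancel hθ0 hθt, one_pow, mul_one]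
      rw [e1, ← mul_assoc, hq.two_pow_th i, one_mul]
    by_cases hc : u < a + 2 ^ (i + 1)
    · -- case (a)
      have hk : i ∈ Ico i (j + 2) := Finset.mem_Ico.2 ⟨le_rfl, by omega⟩
      have hle : (κ * (3 * θ⁻¹ + θ⁻¹ ^ 6) * 2 ^ i * θ ^ i) *
          ind (3 * 2 ^ (j - 2) ≤ u ∧ a ≤ u + 2 ^ (i + 1) ∧ u ≤ a + 2 ^ (i + 1)) ≤
          ∑ k ∈ Ico i (j + 2), (κ * (3 * θ⁻¹ + θ⁻¹ ^ 6) * 2 ^ i * θ ^ k) *
            ind (3 * 2 ^ (j - 2) ≤ u ∧ a ≤ u + 2 ^ (k + 1) ∧ u ≤ a + 2 ^ (k + 1)) :=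
        Finset.single_le_sum (f := fun k => (κ * (3 * θ⁻¹ + θ⁻¹ ^ 6) * 2 ^ i * θ ^ k) *
            ind (3 * 2 ^ (j - 2) ≤ u ∧ a ≤ u + 2 ^ (k + 1) ∧ u ≤ a + 2 ^ (k + 1))) (fun _ _ => bot_le) hk
      refine le_trans ?_ hle
      rw [ind_true ⟨hu, by omega, by omega⟩, mul_one]
      calc ∑' R, ind (2 ^ j ≤ a + S.h R ∧ a + S.h R < 2 ^ (j + 1) ∧ a + S.h R ≤ u + 2 ^ i ∧
              u ≤ a + S.h R + 2 ^ i) * S.w R
          ≤ ∑' R, ind (S.h R ≤ 2 ^ (i + 2)) * S.w R := by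
            refine ENNReal.tsum_le_tsum fun R => ?_
            gcongr
            exact ind_mono fun h => by omega
        _ ≤ S.U (2 ^ (i + 2)) := small_le _ _ le_rfl
        _ ≤ κ * θ⁻¹ ^ (3 * (i + 2)) := hq.U_inv _
        _ = κ * θ⁻¹ ^ 6 * (2 ^ i * θ ^ i) := by
            rw [h2i i, show 3 * (i + 2) = 6 + 3 * i from by ring, pow_add, mul_assoc]
        _ ≤ κ * (3 * θ⁻¹ + θ⁻¹ ^ 6) * (2 ^ i * θ ^ i) := by
            gcongr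
            exact le_add_self
        _ = κ * (3 * θ⁻¹ + θ⁻¹ ^ 6) * 2 ^ i * θ ^ i := by rw [← mul_assoc]
    · -- case (b)
      push Not at hc
      set k := Nat.log 2 (u - a) with hkdef
      have hpi : 1 ≤ 2 ^ i := Nat.one_le_two_pow
      have hua : u - a ≠ 0 := by omega
      have hk1 : 2 ^ k ≤ u - a := Nat.pow_log_le_self 2 hua
      have hk2 : u - a < 2 ^ (k + 1) := Nat.lt_pow_succ_log_self (by norm_num) _
      have hik : i + 1 ≤ k := by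
        by_contra hcon
        have : 2 ^ (k + 1) ≤ 2 ^ (i + 1) := Nat.pow_le_pow_right (by norm_num) (by omega)
        omega
      have hkj : k < j + 2 := by
        by_contra hcon
        have e1 : 2 ^ (j + 2) ≤ 2 ^ k := Nat.pow_le_pow_right (by norm_num) (by omega)
        have e2 : 2 ^ (j + 2) = 4 * 2 ^ j := by rw [pow_add]; ring
        omega
      have hk : k ∈ Ico i (j + 2) := Finset.mem_Ico.2 ⟨by omega, hkj⟩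
      have hle : (κ * (3 * θ⁻¹ + θ⁻¹ ^ 6) * 2 ^ i * θ ^ k) *
          ind (3 * 2 ^ (j - 2) ≤ u ∧ a ≤ u + 2 ^ (k + 1) ∧ u ≤ a + 2 ^ (k + 1)) ≤
          ∑ k ∈ Ico i (j + 2), (κ * (3 * θ⁻¹ + θ⁻¹ ^ 6) * 2 ^ i * θ ^ k) *
            ind (3 * 2 ^ (j - 2) ≤ u ∧ a ≤ u + 2 ^ (k + 1) ∧ u ≤ a + 2 ^ (k + 1)) :=
        Finset.single_le_sum (f := fun k => (κ * (3 * θ⁻¹ + θ⁻¹ ^ 6) * 2 ^ i * θ ^ k) *
            ind (3 * 2 ^ (j - 2) ≤ u ∧ a ≤ u + 2 ^ (k + 1) ∧ u ≤ a + 2 ^ (k + 1))) (fun _ _ => bot_le) hk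
      refine le_trans ?_ hle
      rw [ind_true ⟨hu, by omega, by omega⟩, mul_one]
      obtain ⟨m, hm⟩ : ∃ m, k = m + 1 := ⟨k - 1, by omega⟩
      have hkm : 2 ^ k = 2 * 2 ^ m := by rw [hm, pow_succ]; ring
      have him : 2 ^ i ≤ 2 ^ m := Nat.pow_le_pow_right (by norm_num) (by omega)
      calc ∑' R, ind (2 ^ j ≤ a + S.h R ∧ a + S.h R < 2 ^ (j + 1) ∧ a + S.h R ≤ u + 2 ^ i ∧
              u ≤ a + S.h R + 2 ^ i) * S.w R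
          ≤ ∑' R, ind (u - a - 2 ^ i ≤ S.h R ∧ S.h R ≤ u - a - 2 ^ i + 2 ^ (i + 1)) * S.w R := by
            refine ENNReal.tsum_le_tsum fun R => ?_
            gcongr
            exact ind_mono fun h => by omega
        _ ≤ ((2 ^ (i + 1) : ℕ) + 1) * S.b (u - a - 2 ^ i) := win_far hq.anti _ _
        _ ≤ (3 * 2 ^ i) * S.b (2 ^ m) := by
            gcongr
            · have e1 : (((2 ^ (i + 1) : ℕ) : ℝ≥0∞) + 1) = ((2 ^ (i + 1) + 1 : ℕ) : ℝ≥0∞) := by push_cast; rfl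
              have e2 : (3 * 2 ^ i : ℝ≥0∞) = ((3 * 2 ^ i : ℕ) : ℝ≥0∞) := by push_cast; rfl
              rw [e1, e2]
              have : 1 ≤ 2 ^ i := Nat.one_le_two_pow
              exact_mod_cast (by omega : 2 ^ (i + 1) + 1 ≤ 3 * 2 ^ i)
            · exact hq.anti (by omega)
        _ ≤ (3 * 2 ^ i) * (κ * θ ^ m) := by gcongr; exact hq.b_le m
        _ = κ * (3 * θ⁻¹) * 2 ^ i * θ ^ k := by
            have e : θ ^ m = θ⁻¹ * θ ^ k := by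
              rw [hm, pow_succ, mul_comm (θ ^ m) θ, ← mul_assoc, ENNReal.inv_mul_cancel hθ0 hθt, one_mul]
            rw [e]
            ring
        _ ≤ κ * (3 * θ⁻¹ + θ⁻¹ ^ 6) * 2 ^ i * θ ^ k := by
            gcongr
            exact le_self_add
  · push Not at hex
    have hz : ∑' R, ind (2 ^ j ≤ a + S.h R ∧ a + S.h R < 2 ^ (j + 1) ∧ a + S.h R ≤ u + 2 ^ i ∧
        u ≤ a + S.h R + 2 ^ i) * S.w R = 0 := by
      refine ENNReal.tsum_eq_zero.2 fun R => ?_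
      rw [ind_false, zero_mul]
      rintro ⟨h1, h2, h3, h4⟩
      exact absurd h4 (not_le.2 (hex R h1 h2 h3))
    rw [hz]
    exact bot_le

theorem trI_le {κ θ : ℝ≥0∞} (hq : S.Rq κ θ) : ∃ C : ℝ≥0∞, C ≠ ⊤ ∧ ∀ (σ : Bool) (i j : ℕ), i + 2 ≤ j →
    S.trI σ i j ≤ C * 2 ^ i * ∑ k ∈ Ico i (j + 2), θ ^ k * S.mq σ j k := by
  have hi : θ⁻¹ ≠ ⊤ := ENNReal.inv_ne_top.2 hq.th_ne_zero
  refine ⟨κ * (3 * θ⁻¹ + θ⁻¹ ^ 6), ENNReal.mul_ne_top hq.kt (ENNReal.add_ne_top.2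
    ⟨ENNReal.mul_ne_top (by norm_num) hi, ENNReal.pow_ne_top hi⟩), fun σ i j hij => ?_⟩
  have e0 : κ * (3 * θ⁻¹ + θ⁻¹ ^ 6) * 2 ^ i * ∑ k ∈ Ico i (j + 2), θ ^ k * S.mq σ j k =
      ∑ k ∈ Ico i (j + 2), (κ * (3 * θ⁻¹ + θ⁻¹ ^ 6) * 2 ^ i * θ ^ k) * S.mq σ j k := by
    rw [Finset.mul_sum]
    exact Finset.sum_congr rfl fun k _ => by rw [← mul_assoc]
  rw [e0]
  unfold trI mq
  simp only [red_sum_tsum]
  refine ENNReal.tsum_le_tsum fun l1 => ENNReal.tsum_le_tsum fun s2 => ENNReal.tsum_le_tsum fun G =>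
    ENNReal.tsum_le_tsum fun s3 => ENNReal.tsum_le_tsum fun t => ?_
  by_cases hQ : S.qI σ j l1 s2 G s3 t
  · have eL : ∀ R1 : List S.B, ind (S.qI σ j l1 s2 G s3 t ∧ 2 ^ j ≤ S.h l1 + S.h R1 ∧
        S.h l1 + S.h R1 < 2 ^ (j + 1) ∧ S.h l1 + S.h R1 ≤ S.h s2 + S.ht G + S.h s3 + 2 ^ i ∧
        S.h s2 + S.ht G + S.h s3 ≤ S.h l1 + S.h R1 + 2 ^ i) *
          (S.w l1 * S.w s2 * S.wt G * S.w s3 * S.w t * S.w R1) =
        (S.w l1 * S.w s2 * S.wt G * S.w s3 * S.w t) *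
          (ind (2 ^ j ≤ S.h l1 + S.h R1 ∧
        S.h l1 + S.h R1 < 2 ^ (j + 1) ∧ S.h l1 + S.h R1 ≤ S.h s2 + S.ht G + S.h s3 + 2 ^ i ∧
        S.h s2 + S.ht G + S.h s3 ≤ S.h l1 + S.h R1 + 2 ^ i) * S.w R1) := by
      intro R1
      rw [ind_congr (and_iff_right hQ)]
      ring
    simp only [eL]
    rw [ENNReal.tsum_mul_left]
    refine (mul_le_mul_right (red_win hq (S.h l1) (S.h s2 + S.ht G + S.h s3) i j hij) _).trans ?_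
    rw [Finset.mul_sum]
    refine Finset.sum_le_sum fun k _ => ?_
    rw [ind_congr (and_iff_right hQ)]
    exact le_of_eq (by ring)
  · have eL : ∀ R1 : List S.B, ind (S.qI σ j l1 s2 G s3 t ∧ 2 ^ j ≤ S.h l1 + S.h R1 ∧
        S.h l1 + S.h R1 < 2 ^ (j + 1) ∧ S.h l1 + S.h R1 ≤ S.h s2 + S.ht G + S.h s3 + 2 ^ i ∧
        S.h s2 + S.ht G + S.h s3 ≤ S.h l1 + S.h R1 + 2 ^ i) *
          (S.w l1 * S.w s2 * S.wt G * S.w s3 * S.w t * S.w R1) = 0 := by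
      intro R1
      rw [ind_false fun h => hQ h.1, zero_mul]
    simp only [eL, tsum_zero]
    exact bot_le

end Sys

end Pool.Agent.HEP
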