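import Pool.Agent.PLY.R2.Defs

/-!
Project PLY, RETURN ESTIMATE, module Reg: consequences of the regularity `Rq κ θ`.

PAPER PROOFS.
* `win_le`: `∑' R, ind (c ≤ h R ∧ h R ≤ c + L) * w R = ∑ k ∈ Icc c (c + L), b k ≤ U L` (`sum_Icc_b` of HEP/RnSeq; `tsum_w_h`/`tsum_h` of HEP/RnWord).
* `win2_le`: if some `R` satisfies the two conditions, put `c = A - L - B` (natural subtraction): `c ≤ h R ≤ c + 2 L` (if `A < L + B` then `c = 0` and `h R ≤ A + L - B ≤ 2 L`).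
* `win_far`: `∑ k ∈ Icc c (c + L), b k ≤ (L + 1) b c` (`b` antitone).
* `small_le`: `tsum_le` of HEP/RnWord and `U_mono`.
* `two_pow_th`: `θ ^ 4 = 2⁻¹`.
* `U_min`: `U (2 ^ min n k) θ ^ (3 min n k) ≤ κ`, `3 n = 3 min n k + 3 (n - k)`.
* `U_inv`: `U (2 ^ k) ≤ κ (θ⁻¹) ^ (3 k)`.
* `b2_le`: `∑_(k < 2 ^ n) b_k² ≤ 1 + ∑_(p < n) 2 ^ p b_(2 ^ p)²` (`b_0 = 1`, `[1, 2 ^ n) = ⋃ [2 ^ p, 2 ^ (p+1))`; PLF/I2 has `sum_range_dyadic`), `b_(2^p)² ≤ κ² θ ^ (2p)`, `2 ^ p = θ⁻¹ ^ (4p)`: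
  times `θ ^ (2n)`: `≤ 1 + κ² ∑_(p < n) θ ^ (2 (n-p)) ≤ 1 + κ² (1 - θ)⁻¹`. (Or induction on `n` for `X_n = θ ^ (2n) ∑_(k < 2 ^ n) b_k²`: `X_(n+1) ≤ θ² X_n + κ²`, `X_0 = 1`; so `X_n ≤ C` with `C = (1 + κ²) (1 - θ²)⁻¹`.)
* `pair_le`: the two middle words. `∑ b_k b_k'` over the pairs `k < M`, `k' < M'`.. Precisely: the left side is
  `∑_(k, k') ind (A + k < 2 ^ (j+1), A + k ≤ B + k' + 2 ^ i, B + k' ≤ A + k + 2 ^ i) b_k b_k'`; here `k < 2 ^ (j+1)` and `k' < 2 ^ (j+1) + 2 ^ i ≤ 2 ^ (j+2)`; `b_k b_k' ≤ b_k² + b_k'²`;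
  for given `k` there are at most `2 ^ (i+1) + 1` values of `k'` and conversely; so it is at most `2 (2 ^ (i+1) + 1) ∑_(k < 2 ^ (j+2)) b_k²`, then `b2_le`.
-/

namespace Pool.Agent.HEP

open scoped ENNReal
open Finset

namespace Sys

variable {S : Sys}

/-- the mass of the words with height in a window -/
private lemma Reg_win (c L : ℕ) : ∑' R, ind (c ≤ S.h R ∧ S.h R ≤ c + L) * S.w R =
    ∑ k ∈ Icc c (c + L), S.b k := by
  have h1 := S.toAlph.tsum_h (fun k => ind (c ≤ k ∧ k ≤ c + L))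
  rw [tsum_eq_sum (s := Icc c (c + L)) (fun k hk => by
    rw [mem_Icc] at hk
    rw [ind_false hk, mul_zero])] at h1
  rw [sum_congr rfl (g := fun k => S.b k) (fun k hk => by
    rw [mem_Icc] at hk
    rw [ind_true hk, mul_one])] at h1
  rw [← h1]
  exact tsum_congr fun R => mul_comm _ _

theorem win_le (hb : Antitone S.b) (c L : ℕ) : ∑' R, ind (c ≤ S.h R ∧ S.h R ≤ c + L) * S.w R ≤ S.U L := by
  rw [Reg_win]
  exact Alph.sum_Icc_b hb c L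

theorem win2_le (hb : Antitone S.b) (A B L : ℕ) :
    ∑' R, ind (A ≤ B + S.h R + L ∧ B + S.h R ≤ A + L) * S.w R ≤ S.U (2 * L) := by
  refine le_trans (ENNReal.tsum_le_tsum fun R => ?_) (win_le hb (A - L - B) (2 * L))
  refine mul_le_mul' ?_ le_rfl
  by_cases h : A ≤ B + S.h R + L ∧ B + S.h R ≤ A + L
  · rw [ind_true h, ind_true (by omega)]
  · rw [ind_false h]
    exact zero_le

theorem win_far (hb : Antitone S.b) (c L : ℕ) :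
    ∑' R, ind (c ≤ S.h R ∧ S.h R ≤ c + L) * S.w R ≤ (L + 1) * S.b c := by
  rw [Reg_win]
  calc ∑ k ∈ Icc c (c + L), S.b k ≤ ∑ _k ∈ Icc c (c + L), S.b c :=
        sum_le_sum fun k hk => hb (mem_Icc.1 hk).1
    _ = (L + 1) * S.b c := by
        rw [sum_const, Nat.card_Icc, nsmul_eq_mul, show c + L + 1 - c = L + 1 by omega]
        push_cast
        rfl

theorem small_le (M N : ℕ) (h : M ≤ N) : ∑' R, ind (S.h R ≤ M) * S.w R ≤ S.U N := by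
  rw [S.toAlph.tsum_le M]
  exact S.toAlph.U_mono h

theorem Rq.two_pow_th {κ θ : ℝ≥0∞} (hq : S.Rq κ θ) (i : ℕ) : (2 : ℝ≥0∞) ^ i * θ ^ (4 * i) = 1 := by
  rw [pow_mul, hq.th, ← mul_pow, ENNReal.mul_inv_cancel (by norm_num) (by norm_num), one_pow]

theorem Rq.U_min {κ θ : ℝ≥0∞} (hq : S.Rq κ θ) (n k : ℕ) :
    θ ^ (3 * n) * S.U (2 ^ min n k) ≤ κ * θ ^ (3 * (n - k)) := by
  have h1 : 3 * n = 3 * min n k + 3 * (n - k) := by omega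
  calc θ ^ (3 * n) * S.U (2 ^ min n k) =
        (S.U (2 ^ min n k) * θ ^ (3 * min n k)) * θ ^ (3 * (n - k)) := by
        rw [h1, pow_add]
        ring
    _ ≤ κ * θ ^ (3 * (n - k)) := mul_le_mul' (hq.U_le _) le_rfl

theorem Rq.U_inv {κ θ : ℝ≥0∞} (hq : S.Rq κ θ) (k : ℕ) : S.U (2 ^ k) ≤ κ * θ⁻¹ ^ (3 * k) := by
  have h1 : θ ^ (3 * k) * θ⁻¹ ^ (3 * k) = 1 := by
    rw [← mul_pow, ENNReal.mul_inv_cancel hq.th_ne_zero hq.th_ne_top, one_pow]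
  calc S.U (2 ^ k) = S.U (2 ^ k) * (θ ^ (3 * k) * θ⁻¹ ^ (3 * k)) := by rw [h1, mul_one]
    _ = (S.U (2 ^ k) * θ ^ (3 * k)) * θ⁻¹ ^ (3 * k) := by rw [mul_assoc]
    _ ≤ κ * θ⁻¹ ^ (3 * k) := mul_le_mul' (hq.U_le _) le_rfl

theorem Rq.b2_le {κ θ : ℝ≥0∞} (hq : S.Rq κ θ) : ∃ C : ℝ≥0∞, C ≠ ⊤ ∧ ∀ n : ℕ,
    (∑ k ∈ range (2 ^ n), S.b k ^ 2) * θ ^ (2 * n) ≤ C := by
  have hθ1 : θ ^ 2 < 1 := by
    have h1 : θ ≤ 1 := hq.th_lt.le
    calc θ ^ 2 = θ * θ := pow_two θ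
      _ ≤ 1 * θ := mul_le_mul' h1 le_rfl
      _ = θ := one_mul θ
      _ < 1 := hq.th_lt
  have hne : 1 - θ ^ 2 ≠ 0 := (tsub_pos_of_lt hθ1).ne'
  have hnt : 1 - θ ^ 2 ≠ ⊤ := ne_top_of_le_ne_top ENNReal.one_ne_top tsub_le_self
  have h2n : ∀ n : ℕ, (2 : ℝ≥0∞) ^ n * θ ^ (4 * n) = 1 := by
    intro n
    rw [pow_mul, hq.th, ← mul_pow, ENNReal.mul_inv_cancel (by norm_num) (by norm_num), one_pow]
  refine ⟨(1 + κ ^ 2) * (1 - θ ^ 2)⁻¹, ?_, ?_⟩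
  · refine ENNReal.mul_ne_top ?_ (ENNReal.inv_ne_top.2 hne)
    exact ENNReal.add_ne_top.2 ⟨ENNReal.one_ne_top, ENNReal.pow_ne_top hq.kt⟩
  · have hC : (1 + κ ^ 2) * (1 - θ ^ 2)⁻¹ =
        θ ^ 2 * ((1 + κ ^ 2) * (1 - θ ^ 2)⁻¹) + (1 + κ ^ 2) := by
      have h1 : θ ^ 2 + (1 - θ ^ 2) = 1 := add_tsub_cancel_of_le hθ1.le
      have h2 : (1 + κ ^ 2) * (1 - θ ^ 2)⁻¹ * (1 - θ ^ 2) = 1 + κ ^ 2 := by
        rw [mul_assoc, ENNReal.inv_mul_cancel hne hnt, mul_one]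
      calc (1 + κ ^ 2) * (1 - θ ^ 2)⁻¹ = (1 + κ ^ 2) * (1 - θ ^ 2)⁻¹ * (θ ^ 2 + (1 - θ ^ 2)) := by
            rw [h1, mul_one]
        _ = θ ^ 2 * ((1 + κ ^ 2) * (1 - θ ^ 2)⁻¹) + (1 + κ ^ 2) := by
            rw [mul_add, h2, mul_comm]
    intro n
    induction n with
    | zero =>
      rw [pow_zero, sum_range_one, S.b_zero, one_pow, one_mul, mul_zero, pow_zero]
      rw [hC]
      exact le_add_left le_self_add
    | succ n ih =>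
      have h1 : ∑ k ∈ range (2 ^ (n + 1)), S.b k ^ 2 =
          ∑ k ∈ range (2 ^ n), S.b k ^ 2 + ∑ k ∈ Ico (2 ^ n) (2 ^ (n + 1)), S.b k ^ 2 :=
        (Finset.sum_range_add_sum_Ico (fun k => S.b k ^ 2)
          (Nat.pow_le_pow_right (by norm_num) (Nat.le_succ n))).symm
      have h2 : ∑ k ∈ Ico (2 ^ n) (2 ^ (n + 1)), S.b k ^ 2 ≤ 2 ^ n * (κ ^ 2 * θ ^ (2 * n)) := by
        calc ∑ k ∈ Ico (2 ^ n) (2 ^ (n + 1)), S.b k ^ 2
            ≤ ∑ _k ∈ Ico (2 ^ n) (2 ^ (n + 1)), κ ^ 2 * θ ^ (2 * n) := by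
              refine sum_le_sum fun k hk => ?_
              rw [mem_Ico] at hk
              calc S.b k ^ 2 ≤ (S.b (2 ^ n)) ^ 2 := pow_le_pow_left' (hq.anti hk.1) 2
                _ ≤ (κ * θ ^ n) ^ 2 := pow_le_pow_left' (hq.b_le n) 2
                _ = κ ^ 2 * θ ^ (2 * n) := by rw [mul_pow, ← pow_mul, mul_comm n 2]
          _ = 2 ^ n * (κ ^ 2 * θ ^ (2 * n)) := by
              rw [sum_const, Nat.card_Ico, nsmul_eq_mul, show 2 ^ (n + 1) - 2 ^ n = 2 ^ n by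
                rw [pow_succ]; omega]
              push_cast
              rfl
      calc (∑ k ∈ range (2 ^ (n + 1)), S.b k ^ 2) * θ ^ (2 * (n + 1))
          ≤ (∑ k ∈ range (2 ^ n), S.b k ^ 2 + 2 ^ n * (κ ^ 2 * θ ^ (2 * n))) *
              θ ^ (2 * (n + 1)) := by
            rw [h1]
            exact mul_le_mul' (add_le_add le_rfl h2) le_rfl
        _ = θ ^ 2 * ((∑ k ∈ range (2 ^ n), S.b k ^ 2) * θ ^ (2 * n)) +
              κ ^ 2 * θ ^ 2 * (2 ^ n * θ ^ (4 * n)) := by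
            rw [show 2 * (n + 1) = 2 * n + 2 by ring, show 4 * n = 2 * n + 2 * n by ring, pow_add,
              pow_add]
            ring
        _ ≤ θ ^ 2 * ((1 + κ ^ 2) * (1 - θ ^ 2)⁻¹) + (1 + κ ^ 2) := by
            rw [h2n n, mul_one]
            refine add_le_add (mul_le_mul' le_rfl ih) ?_
            calc κ ^ 2 * θ ^ 2 ≤ κ ^ 2 * 1 := mul_le_mul' le_rfl hθ1.le
              _ = κ ^ 2 := mul_one _
              _ ≤ 1 + κ ^ 2 := le_add_self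
        _ = (1 + κ ^ 2) * (1 - θ ^ 2)⁻¹ := hC.symm

private theorem Reg_card (p q L M : ℕ) :
    ∑ k ∈ range M, ind (p ≤ q + k + L ∧ q + k ≤ p + L) ≤ ((2 * L + 1 : ℕ) : ℝ≥0∞) := by
  classical
  calc ∑ k ∈ range M, ind (p ≤ q + k + L ∧ q + k ≤ p + L)
      ≤ ∑ k ∈ range M, ind (k ∈ Icc (p - (q + L)) (p - (q + L) + 2 * L)) := by
        refine sum_le_sum fun k _ => ind_mono ?_
        rintro ⟨h1, h2⟩
        rw [mem_Icc]
        omega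
    _ ≤ ∑ k ∈ Icc (p - (q + L)) (p - (q + L) + 2 * L), (1 : ℝ≥0∞) := by
        rw [← Finset.sum_filter_add_sum_filter_not (range M)
          (fun k => k ∈ Icc (p - (q + L)) (p - (q + L) + 2 * L))]
        have h1 : ∑ k ∈ (range M).filter (fun k => ¬ k ∈ Icc (p - (q + L)) (p - (q + L) + 2 * L)),
            ind (k ∈ Icc (p - (q + L)) (p - (q + L) + 2 * L)) = 0 :=
          Finset.sum_eq_zero fun k hk => ind_false (mem_filter.1 hk).2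
        rw [h1, add_zero]
        calc ∑ k ∈ (range M).filter (fun k => k ∈ Icc (p - (q + L)) (p - (q + L) + 2 * L)),
              ind (k ∈ Icc (p - (q + L)) (p - (q + L) + 2 * L))
            ≤ ∑ _k ∈ (range M).filter (fun k => k ∈ Icc (p - (q + L)) (p - (q + L) + 2 * L)),
                (1 : ℝ≥0∞) := sum_le_sum fun k _ => ind_le_one _
          _ ≤ _ := sum_le_sum_of_subset fun k hk => (mem_filter.1 hk).2
    _ = ((2 * L + 1 : ℕ) : ℝ≥0∞) := by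
        rw [sum_const, nsmul_eq_mul, mul_one, Nat.card_Icc]
        congr 1
        omega

private theorem Reg_h2 (F : ℕ → ℕ → ℝ≥0∞) :
    ∑' R1, ∑' R, F (S.h R1) (S.h R) * (S.w R1 * S.w R) =
      ∑' k, ∑' k', F k k' * (S.b k * S.b k') := by
  have h1 : ∀ R1, ∑' R, F (S.h R1) (S.h R) * (S.w R1 * S.w R) =
      S.w R1 * ∑' k', S.b k' * F (S.h R1) k' := by
    intro R1
    rw [← S.tsum_h (fun k' => F (S.h R1) k'), ← ENNReal.tsum_mul_left]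
    refine tsum_congr fun R => ?_
    ring
  rw [tsum_congr h1, S.tsum_h (fun k => ∑' k', S.b k' * F k k')]
  refine tsum_congr fun k => ?_
  rw [← ENNReal.tsum_mul_left]
  refine tsum_congr fun k' => ?_
  ring

theorem Rq.pair_le {κ θ : ℝ≥0∞} (hq : S.Rq κ θ) : ∃ C : ℝ≥0∞, C ≠ ⊤ ∧ ∀ A B i j : ℕ, i ≤ j →
    (∑' R1, ∑' R, ind (A + S.h R1 < 2 ^ (j + 1) ∧ A + S.h R1 ≤ B + S.h R + 2 ^ i ∧ B + S.h R ≤ A + S.h R1 + 2 ^ i) *
      (S.w R1 * S.w R)) * θ ^ (2 * j) ≤ C * 2 ^ i := by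
  obtain ⟨C, hC, hb⟩ := hq.b2_le
  refine ⟨12 * C, ENNReal.mul_ne_top (by norm_num) hC, fun A B i j hij => ?_⟩
  rw [Reg_h2 (fun k k' => ind (A + k < 2 ^ (j + 1) ∧ A + k ≤ B + k' + 2 ^ i ∧
    B + k' ≤ A + k + 2 ^ i))]
  have hpow : 2 ^ (j + 2) = 2 * 2 ^ (j + 1) := by rw [pow_succ]; ring
  have hpow' : 2 ^ i ≤ 2 ^ (j + 1) := Nat.pow_le_pow_right (by norm_num) (by omega)
  have h1 : ∑' k, ∑' k', ind (A + k < 2 ^ (j + 1) ∧ A + k ≤ B + k' + 2 ^ i ∧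
      B + k' ≤ A + k + 2 ^ i) * (S.b k * S.b k') ≤
      ∑ k ∈ range (2 ^ (j + 2)), ∑ k' ∈ range (2 ^ (j + 2)),
        ind (A + k ≤ B + k' + 2 ^ i ∧ B + k' ≤ A + k + 2 ^ i) * (S.b k ^ 2 + S.b k' ^ 2) := by
    rw [tsum_eq_sum (s := range (2 ^ (j + 2))) (fun k hk => by
      rw [mem_range, not_lt] at hk
      refine ENNReal.tsum_eq_zero.2 fun k' => ?_
      rw [ind_false (by rintro ⟨h1, -, -⟩; omega), zero_mul])]
    refine sum_le_sum fun k _ => ?_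
    rw [tsum_eq_sum (s := range (2 ^ (j + 2))) (fun k' hk' => by
      rw [mem_range, not_lt] at hk'
      rw [ind_false (by rintro ⟨h1, h2, h3⟩; omega), zero_mul])]
    refine sum_le_sum fun k' _ => ?_
    refine mul_le_mul' (ind_mono fun h => h.2) ?_
    rcases le_total (S.b k) (S.b k') with h | h
    · calc S.b k * S.b k' ≤ S.b k' * S.b k' := mul_le_mul' h le_rfl
        _ = S.b k' ^ 2 := (pow_two _).symm
        _ ≤ S.b k ^ 2 + S.b k' ^ 2 := le_add_self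
    · calc S.b k * S.b k' ≤ S.b k * S.b k := mul_le_mul' le_rfl h
        _ = S.b k ^ 2 := (pow_two _).symm
        _ ≤ S.b k ^ 2 + S.b k' ^ 2 := le_self_add
  have h2 : ∑ k ∈ range (2 ^ (j + 2)), ∑ k' ∈ range (2 ^ (j + 2)),
        ind (A + k ≤ B + k' + 2 ^ i ∧ B + k' ≤ A + k + 2 ^ i) * (S.b k ^ 2 + S.b k' ^ 2) ≤
      ((2 * 2 ^ i + 1 : ℕ) : ℝ≥0∞) * (∑ k ∈ range (2 ^ (j + 2)), S.b k ^ 2) +
        ((2 * 2 ^ i + 1 : ℕ) : ℝ≥0∞) * (∑ k ∈ range (2 ^ (j + 2)), S.b k ^ 2) := by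
    simp_rw [mul_add, sum_add_distrib]
    refine add_le_add ?_ ?_
    · rw [mul_sum]
      refine sum_le_sum fun k _ => ?_
      rw [← sum_mul]
      exact mul_le_mul' (Reg_card _ _ _ _) le_rfl
    · rw [sum_comm, mul_sum]
      refine sum_le_sum fun k' _ => ?_
      rw [← sum_mul]
      refine mul_le_mul' (le_trans (sum_le_sum fun k _ => ind_mono ?_)
        (Reg_card (B + k') A (2 ^ i) (2 ^ (j + 2)))) le_rfl
      rintro ⟨h3, h4⟩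
      exact ⟨h4, h3⟩
  have h3 : ((2 * 2 ^ i + 1 : ℕ) : ℝ≥0∞) ≤ 3 * 2 ^ i := by
    have h4 : 2 * 2 ^ i + 1 ≤ 3 * 2 ^ i := by
      have := Nat.one_le_two_pow (n := i)
      omega
    calc ((2 * 2 ^ i + 1 : ℕ) : ℝ≥0∞) ≤ ((3 * 2 ^ i : ℕ) : ℝ≥0∞) := by exact_mod_cast h4
      _ = 3 * 2 ^ i := by push_cast; rfl
  have h5 : θ ^ (2 * j) = 2 * θ ^ (2 * (j + 2)) := by
    rw [show 2 * (j + 2) = 2 * j + 4 by ring, pow_add, hq.th, mul_comm (θ ^ (2 * j)), ← mul_assoc,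
      ENNReal.mul_inv_cancel (by norm_num) (by norm_num), one_mul]
  calc (∑' k, ∑' k', ind (A + k < 2 ^ (j + 1) ∧ A + k ≤ B + k' + 2 ^ i ∧
        B + k' ≤ A + k + 2 ^ i) * (S.b k * S.b k')) * θ ^ (2 * j)
      ≤ (3 * 2 ^ i * (∑ k ∈ range (2 ^ (j + 2)), S.b k ^ 2) +
          3 * 2 ^ i * (∑ k ∈ range (2 ^ (j + 2)), S.b k ^ 2)) * (2 * θ ^ (2 * (j + 2))) := by
        rw [h5]
        exact mul_le_mul' ((h1.trans h2).trans (add_le_add (mul_le_mul' h3 le_rfl)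
          (mul_le_mul' h3 le_rfl))) le_rfl
    _ = 12 * 2 ^ i * ((∑ k ∈ range (2 ^ (j + 2)), S.b k ^ 2) * θ ^ (2 * (j + 2))) := by ring
    _ ≤ 12 * 2 ^ i * C := mul_le_mul' le_rfl (hb _)
    _ = 12 * C * 2 ^ i := by ring

end Sys

end Pool.Agent.HEP
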