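import Pool.Agent.PLY.R2.Fold
import Pool.Agent.HEP.ChCut

/-!
Project PLY, RETURN ESTIMATE, module Split: the triples are of case R or of case I (no estimate, only words).

PAPER PROOF. `N = 2 ^ (j-3)`. In `tp σ i j`: `h v ≥ 2 ^ j ≥ N`: `tsum_split N` for `v = l1 ++ R1`. `h u ≥ 2 ^ j - 2 ^ i ≥ N`: `tsum_split N` for `u = l2 ++ r`. Split `1 ≤ ind (N ≤ h r) + ind (h r < N)`.
(R) `N ≤ h r`: sum over `r` = sum over `r.reverse` (`Ch.tsum_reverse`), `tsum_split N` again: `r.reverse = l3 ++ R`, so `u = l2 ++ (l3 ++ R).reverse`, `u.reverse = l3 ++ (R ++ l2.reverse)`.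
`av σ u v` implies `av σ l2 l1`, `av σ t u.reverse` implies `av σ t l3` (`av_pre`; with `s' = []` use `List.append_nil`). Heights: `h u = h l2 + h R + h l3`. Masses: `w u = w l2 * w l3 * w R` (`w_reverse`). This is `trR`.
(I) `h r < N`: `l2` is in `FP N`, `N ≥ 1`, so `l2 = s2 ++ [G]` with `h s2 < N ≤ h s2 + ht G` (`tsum_snoc`, `FP_nil`, `FP_snoc`); `s3 := r.reverse` (`tsum_reverse`): `u.reverse = s3 ++ ([G] ++ s2.reverse)`, so
`av σ t u.reverse` implies `av σ t (s3 ++ [G])`; `av σ u v` implies `av σ (s2 ++ [G]) l1`. `gf σ (s2 ++ [G]) l1`: let `l1 = l' ++ [c']`, so `h l' < N` (`FP_snoc`), and `ht G ≥ N + 1`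
(`h s2 + ht G + h s3 = h u ≥ 2 ^ j - 2 ^ (j-2)`, `h s2, h s3 < 2 ^ (j-3)`); for `l' = s' ++ r'`: `on1 σ u v` gives `os σ 1 u s'` (`h s' + 1 ≤ h u`), with `av σ u s'` this is `good σ 1 u s'`, and
`Gyp.res` (`u = (s2 ++ [G]) ++ s3.reverse`, `h s' ≤ h (s2 ++ [G]) - d σ`) gives `os σ 1 (s2 ++ [G]) s'`. In the same way `gf (!σ) (s3 ++ [G]) t` from `on1 (!σ) u.reverse t` (`av_not`). This is `trI`.
-/

namespace Pool.Agent.HEP

open scoped ENNReal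
open Finset

namespace Sys

variable {S : Sys}

/-- The one-sidedness is inherited by the two parts of the strand. -/
theorem gf_of_on1 {KG : ℕ} (hG : S.Gyp KG) {σ : Bool} {L L' l r : List S.B} {N : ℕ} (h1 : S.av σ (L ++ L') (l ++ r))
    (h2 : S.on1 σ (L ++ L') (l ++ r)) (h3 : S.FP N l) (h4 : N ≤ S.h L) : S.gf σ L l := by
  intro l' c' e
  subst e
  obtain ⟨h5, -⟩ := S.FP_snoc.1 h3
  have hd := d_le σ
  refine ⟨?_, by omega, ?_⟩
  · exact S.av_pre (l' := L') (s' := [c'] ++ r) (by rwa [← List.append_assoc])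
  · intro s' r' e
    subst e
    rw [S.h_append] at h5
    have h6 : S.os σ 1 (L ++ L') s' := by
      refine h2 s' (r' ++ ([c'] ++ r)) (by simp only [List.append_assoc]) ?_
      rw [S.h_append]
      omega
    have h7 : S.av σ (L ++ L') s' := by
      refine S.av_pre (l' := []) (s' := r' ++ ([c'] ++ r)) ?_
      rw [List.append_nil]
      simpa only [List.append_assoc] using h1
    have h8 : S.h s' ≤ S.h (L ++ L') - d σ := by
      rw [S.h_append]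
      omega
    exact (hG.res σ 1 L L' s' ⟨h7, h8, h6⟩ (by omega)).2.2

/-- A sum over the words of height at least `N`, cut at the first renewal. -/
private theorem spl_A (N : ℕ) (F : List S.B → ℝ≥0∞) (hF : ∀ X, S.h X < N → F X = 0) :
    ∑' X, F X = ∑' l, ∑' r, ind (S.FP N l) * F (l ++ r) := by
  calc ∑' X, F X = ∑' X, ind (N ≤ S.h X) * F X := by
        refine tsum_congr fun X => ?_
        by_cases h : N ≤ S.h X
        · rw [ind_true h, one_mul]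
        · rw [hF X (by omega), mul_zero]
    _ = ∑' l, ind (S.FP N l) * ∑' r, F (l ++ r) := S.tsum_split N F
    _ = ∑' l, ∑' r, ind (S.FP N l) * F (l ++ r) := tsum_congr fun l => ENNReal.tsum_mul_left.symm

/-- A sum over the words of height at least `N`: cut from both sides, or cut once if the rest is short. -/
private theorem spl_B (N : ℕ) (hN : 1 ≤ N) (K : List S.B → ℝ≥0∞) (hK : ∀ X, S.h X < N → K X = 0) :
    ∑' u, K u = ∑' l2, ∑' l3, ∑' R, ind (S.FP N l2 ∧ S.FP N l3) * K (l2 ++ (l3 ++ R).reverse) +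
      ∑' s2, ∑' G, ∑' s3, ind (S.FP N (s2 ++ [G]) ∧ S.h s3 < N) * K (s2 ++ [G] ++ s3.reverse) := by
  have h1 : ∀ l2 : List S.B, ∑' r, ind (S.FP N l2) * K (l2 ++ r) =
      ∑' l3, ∑' R, ind (S.FP N l2 ∧ S.FP N l3) * K (l2 ++ (l3 ++ R).reverse) +
        ∑' s3, ind (S.FP N l2 ∧ S.h s3 < N) * K (l2 ++ s3.reverse) := by
    intro l2
    have e1 : ∑' r, ind (S.FP N l2) * K (l2 ++ r) =
        ∑' r : List S.B, ind (S.FP N l2) * K (l2 ++ r.reverse) :=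
      (Ch.tsum_reverse (fun r => ind (S.FP N l2) * K (l2 ++ r))).symm
    have e2 : ∀ r : List S.B, ind (S.FP N l2) * K (l2 ++ r.reverse) =
        ind (N ≤ S.h r) * (ind (S.FP N l2) * K (l2 ++ r.reverse)) +
          ind (S.FP N l2 ∧ S.h r < N) * K (l2 ++ r.reverse) := by
      intro r
      by_cases h : N ≤ S.h r
      · rw [ind_true h, one_mul, ind_false (show ¬ (S.FP N l2 ∧ S.h r < N) from fun h' => absurd h'.2 (not_lt.2 h)),
          zero_mul, add_zero]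
      · rw [ind_false h, zero_mul, zero_add, ind_congr (show S.FP N l2 ∧ S.h r < N ↔ S.FP N l2 from
          ⟨fun h' => h'.1, fun h' => ⟨h', not_le.1 h⟩⟩)]
    rw [e1, tsum_congr e2, ENNReal.tsum_add]
    congr 1
    rw [S.tsum_split N (fun r => ind (S.FP N l2) * K (l2 ++ r.reverse))]
    refine tsum_congr fun l3 => ?_
    rw [← ENNReal.tsum_mul_left]
    refine tsum_congr fun R => ?_
    rw [ind_and]
    ring
  rw [spl_A N K hK, tsum_congr h1, ENNReal.tsum_add]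
  congr 1
  rw [Alph.tsum_snoc (fun l2 : List S.B => ∑' s3, ind (S.FP N l2 ∧ S.h s3 < N) * K (l2 ++ s3.reverse))]
  have e3 : ∑' s3 : List S.B, ind (S.FP N [] ∧ S.h s3 < N) * K ([] ++ s3.reverse) = 0 := by
    rw [ENNReal.tsum_eq_zero]
    intro s3
    rw [ind_false (fun h => by have := S.FP_nil.1 h.1; omega), zero_mul]
  rw [e3, zero_add]

/-- The summand of the triples. -/
private noncomputable def Fs (S : Sys) (σ : Bool) (i j : ℕ) (v u t : List S.B) : ℝ≥0∞ :=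
  ind (S.av σ u v ∧ S.av σ t u.reverse ∧ S.on1 σ u v ∧ S.on1 (!σ) u.reverse t ∧
    2 ^ j ≤ S.h v ∧ S.h v < 2 ^ (j + 1) ∧ S.h v ≤ S.h u + 2 ^ i ∧ S.h u ≤ S.h v + 2 ^ i ∧ S.FP (2 ^ (j - 3)) t) *
    (S.w v * S.w u * S.w t)

/-- Case R, one term. -/
private theorem term_R {σ : Bool} {i j : ℕ} (l1 R1 l2 l3 R t : List S.B) :
    ind (S.FP (2 ^ (j - 3)) l1) * (ind (S.FP (2 ^ (j - 3)) l2 ∧ S.FP (2 ^ (j - 3)) l3) *
      Fs S σ i j (l1 ++ R1) (l2 ++ (l3 ++ R).reverse) t) ≤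
    (ind (S.av σ l2 l1 ∧ S.av σ t l3 ∧ S.FP (2 ^ (j - 3)) l1 ∧ S.FP (2 ^ (j - 3)) l2 ∧
      S.FP (2 ^ (j - 3)) l3 ∧ S.FP (2 ^ (j - 3)) t) * (S.w l1 * S.w l2 * S.w l3 * S.w t)) *
    (ind (S.h l1 + S.h R1 < 2 ^ (j + 1) ∧ S.h l1 + S.h R1 ≤ S.h l2 + S.h R + S.h l3 + 2 ^ i ∧
      S.h l2 + S.h R + S.h l3 ≤ S.h l1 + S.h R1 + 2 ^ i) * (S.w R1 * S.w R)) := by
  have hw : S.w (l1 ++ R1) * S.w (l2 ++ (l3 ++ R).reverse) * S.w t =
      (S.w l1 * S.w l2 * S.w l3 * S.w t) * (S.w R1 * S.w R) := by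
    rw [S.w_append, S.w_append, S.w_reverse, S.w_append]
    ring
  have hh1 : S.h (l1 ++ R1) = S.h l1 + S.h R1 := S.h_append _ _
  have hh2 : S.h (l2 ++ (l3 ++ R).reverse) = S.h l2 + S.h R + S.h l3 := by
    rw [S.h_append, S.h_reverse, S.h_append]
    omega
  unfold Fs
  rw [hw, hh1, hh2]
  have key : ind (S.FP (2 ^ (j - 3)) l1) * (ind (S.FP (2 ^ (j - 3)) l2 ∧ S.FP (2 ^ (j - 3)) l3) *
      ind (S.av σ (l2 ++ (l3 ++ R).reverse) (l1 ++ R1) ∧ S.av σ t (l2 ++ (l3 ++ R).reverse).reverse ∧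
        S.on1 σ (l2 ++ (l3 ++ R).reverse) (l1 ++ R1) ∧ S.on1 (!σ) (l2 ++ (l3 ++ R).reverse).reverse t ∧
        2 ^ j ≤ S.h l1 + S.h R1 ∧ S.h l1 + S.h R1 < 2 ^ (j + 1) ∧
        S.h l1 + S.h R1 ≤ S.h l2 + S.h R + S.h l3 + 2 ^ i ∧
        S.h l2 + S.h R + S.h l3 ≤ S.h l1 + S.h R1 + 2 ^ i ∧ S.FP (2 ^ (j - 3)) t)) ≤
      ind (S.av σ l2 l1 ∧ S.av σ t l3 ∧ S.FP (2 ^ (j - 3)) l1 ∧ S.FP (2 ^ (j - 3)) l2 ∧
        S.FP (2 ^ (j - 3)) l3 ∧ S.FP (2 ^ (j - 3)) t) *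
      ind (S.h l1 + S.h R1 < 2 ^ (j + 1) ∧ S.h l1 + S.h R1 ≤ S.h l2 + S.h R + S.h l3 + 2 ^ i ∧
        S.h l2 + S.h R + S.h l3 ≤ S.h l1 + S.h R1 + 2 ^ i) := by
    rw [← ind_and, ← ind_and, ← ind_and]
    refine ind_mono ?_
    rintro ⟨f1, ⟨f2, f3⟩, a1, a2, -, -, -, b2, b3, b4, f4⟩
    refine ⟨⟨S.av_pre a1, ?_, f1, f2, f3, f4⟩, b2, b3, b4⟩
    have a3 : (l2 ++ (l3 ++ R).reverse).reverse = l3 ++ (R ++ l2.reverse) := by
      rw [List.reverse_append, List.reverse_reverse, List.append_assoc]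
    rw [a3] at a2
    exact S.av_pre (l' := []) (by rwa [List.append_nil])
  calc _ = (ind (S.FP (2 ^ (j - 3)) l1) * (ind (S.FP (2 ^ (j - 3)) l2 ∧ S.FP (2 ^ (j - 3)) l3) *
        ind (S.av σ (l2 ++ (l3 ++ R).reverse) (l1 ++ R1) ∧ S.av σ t (l2 ++ (l3 ++ R).reverse).reverse ∧
        S.on1 σ (l2 ++ (l3 ++ R).reverse) (l1 ++ R1) ∧ S.on1 (!σ) (l2 ++ (l3 ++ R).reverse).reverse t ∧
        2 ^ j ≤ S.h l1 + S.h R1 ∧ S.h l1 + S.h R1 < 2 ^ (j + 1) ∧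
        S.h l1 + S.h R1 ≤ S.h l2 + S.h R + S.h l3 + 2 ^ i ∧
        S.h l2 + S.h R + S.h l3 ≤ S.h l1 + S.h R1 + 2 ^ i ∧ S.FP (2 ^ (j - 3)) t))) *
        ((S.w l1 * S.w l2 * S.w l3 * S.w t) * (S.w R1 * S.w R)) := by ring
    _ ≤ _ := mul_le_mul' key le_rfl
    _ = _ := by ring

/-- Case I, one term. -/
private theorem term_I {KG : ℕ} (hG : S.Gyp KG) {σ : Bool} {i j : ℕ} (hi : i + 2 ≤ j) (hj : 3 ≤ j)
    (l1 R1 s2 : List S.B) (G : S.B) (s3 t : List S.B) :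
    ind (S.FP (2 ^ (j - 3)) l1) * (ind (S.FP (2 ^ (j - 3)) (s2 ++ [G]) ∧ S.h s3 < 2 ^ (j - 3)) *
      Fs S σ i j (l1 ++ R1) (s2 ++ [G] ++ s3.reverse) t) ≤
    ind (S.qI σ j l1 s2 G s3 t ∧ 2 ^ j ≤ S.h l1 + S.h R1 ∧
      S.h l1 + S.h R1 < 2 ^ (j + 1) ∧ S.h l1 + S.h R1 ≤ S.h s2 + S.ht G + S.h s3 + 2 ^ i ∧
      S.h s2 + S.ht G + S.h s3 ≤ S.h l1 + S.h R1 + 2 ^ i) *
      (S.w l1 * S.w s2 * S.wt G * S.w s3 * S.w t * S.w R1) := by
  have hwG : S.w [G] = S.wt G := by rw [S.w_cons, S.w_nil, mul_one]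
  have hhG : S.h [G] = S.ht G := by rw [S.h_cons, S.h_nil, add_zero]
  have hw : S.w (l1 ++ R1) * S.w (s2 ++ [G] ++ s3.reverse) * S.w t =
      S.w l1 * S.w s2 * S.wt G * S.w s3 * S.w t * S.w R1 := by
    rw [S.w_append, S.w_append, S.w_append, S.w_reverse, hwG]
    ring
  have hh1 : S.h (l1 ++ R1) = S.h l1 + S.h R1 := S.h_append _ _
  have hh2 : S.h (s2 ++ [G] ++ s3.reverse) = S.h s2 + S.ht G + S.h s3 := by
    rw [S.h_append, S.h_append, S.h_reverse, hhG]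
  unfold Fs
  rw [hw, hh1, hh2, ← mul_assoc, ← mul_assoc, mul_assoc (ind _) (ind _) (ind _), ← ind_and, ← ind_and]
  refine mul_le_mul' (ind_mono ?_) le_rfl
  rintro ⟨f1, ⟨f2, f3⟩, a1, a2, o1, o2, b1, b2, b3, b4, f4⟩
  obtain ⟨f5, f6⟩ := S.FP_snoc.1 f2
  have hp1 : 2 ^ j = 8 * 2 ^ (j - 3) := by
    obtain ⟨k, rfl⟩ : ∃ k, j = k + 3 := ⟨j - 3, by omega⟩
    rw [Nat.add_sub_cancel, pow_add]
    omega
  have hp2 : 2 ^ i ≤ 2 * 2 ^ (j - 3) := by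
    calc 2 ^ i ≤ 2 ^ (j - 3 + 1) := Nat.pow_le_pow_right (by norm_num) (by omega)
      _ = 2 * 2 ^ (j - 3) := by rw [pow_succ, mul_comm]
  have e1 : (s2 ++ [G] ++ s3.reverse).reverse = (s3 ++ [G]) ++ s2.reverse := by
    simp only [List.reverse_append, List.reverse_reverse, List.reverse_cons, List.reverse_nil, List.nil_append,
      List.append_assoc]
  rw [e1] at a2 o2
  refine ⟨⟨S.av_pre a1, ?_, ?_, ?_, f1, f4, f5, f3⟩, b1, b2, b3, b4⟩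
  · exact gf_of_on1 hG a1 o1 f1 (by rw [S.h_append, hhG]; exact f6)
  · exact S.av_pre (l' := []) (by rwa [List.append_nil])
  · refine gf_of_on1 hG (L' := s2.reverse) (r := []) (N := 2 ^ (j - 3)) ?_ ?_ f4 ?_
    · rw [List.append_nil]
      exact (av_not σ _ _).2 a2
    · rw [List.append_nil]
      exact o2
    · rw [S.h_append, hhG]
      omega

theorem tp_le_split {KG : ℕ} (hG : S.Gyp KG) (σ : Bool) {i j : ℕ} (hi : i + 2 ≤ j) (hj : 3 ≤ j) :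
    S.tp σ i j ≤ S.trR σ i j + S.trI σ i j := by
  have hN : 1 ≤ 2 ^ (j - 3) := Nat.one_le_two_pow
  have hp1 : 2 ^ j = 8 * 2 ^ (j - 3) := by
    obtain ⟨k, rfl⟩ : ∃ k, j = k + 3 := ⟨j - 3, by omega⟩
    rw [Nat.add_sub_cancel, pow_add]
    omega
  have hp2 : 2 ^ i ≤ 2 * 2 ^ (j - 3) := by
    calc 2 ^ i ≤ 2 ^ (j - 3 + 1) := Nat.pow_le_pow_right (by norm_num) (by omega)
      _ = 2 * 2 ^ (j - 3) := by rw [pow_succ, mul_comm]
  have z1 : ∀ v u t : List S.B, S.h v < 2 ^ (j - 3) → Fs S σ i j v u t = 0 := by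
    intro v u t h
    unfold Fs
    rw [ind_false, zero_mul]
    rintro ⟨-, -, -, -, b1, -⟩
    omega
  have z2 : ∀ v u t : List S.B, S.h u < 2 ^ (j - 3) → Fs S σ i j v u t = 0 := by
    intro v u t h
    unfold Fs
    rw [ind_false, zero_mul]
    rintro ⟨-, -, -, -, b1, -, b3, -⟩
    omega
  have s1 : S.tp σ i j = ∑' l1, ∑' R1, ind (S.FP (2 ^ (j - 3)) l1) * ∑' u, ∑' t, Fs S σ i j (l1 ++ R1) u t := by
    refine spl_A (2 ^ (j - 3)) (fun v => ∑' u, ∑' t, Fs S σ i j v u t) ?_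
    intro v h
    simp only [z1 v _ _ h, tsum_zero]
  have s2 : ∀ v : List S.B, ∑' u, ∑' t, Fs S σ i j v u t =
      ∑' l2, ∑' l3, ∑' R, ind (S.FP (2 ^ (j - 3)) l2 ∧ S.FP (2 ^ (j - 3)) l3) *
        (∑' t, Fs S σ i j v (l2 ++ (l3 ++ R).reverse) t) +
      ∑' s2, ∑' G, ∑' s3, ind (S.FP (2 ^ (j - 3)) (s2 ++ [G]) ∧ S.h s3 < 2 ^ (j - 3)) *
        (∑' t, Fs S σ i j v (s2 ++ [G] ++ s3.reverse) t) := by
    intro v
    refine spl_B (2 ^ (j - 3)) hN (fun u => ∑' t, Fs S σ i j v u t) ?_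
    intro u h
    simp only [z2 v u _ h, tsum_zero]
  rw [s1]
  simp only [s2, mul_add, ENNReal.tsum_add]
  refine add_le_add ?_ ?_
  · simp only [← ENNReal.tsum_mul_left]
    calc _ ≤ ∑' l1, ∑' R1, ∑' l2, ∑' l3, ∑' R, ∑' t,
          (ind (S.av σ l2 l1 ∧ S.av σ t l3 ∧ S.FP (2 ^ (j - 3)) l1 ∧ S.FP (2 ^ (j - 3)) l2 ∧
            S.FP (2 ^ (j - 3)) l3 ∧ S.FP (2 ^ (j - 3)) t) * (S.w l1 * S.w l2 * S.w l3 * S.w t)) *
          (ind (S.h l1 + S.h R1 < 2 ^ (j + 1) ∧ S.h l1 + S.h R1 ≤ S.h l2 + S.h R + S.h l3 + 2 ^ i ∧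
            S.h l2 + S.h R + S.h l3 ≤ S.h l1 + S.h R1 + 2 ^ i) * (S.w R1 * S.w R)) :=
        ENNReal.tsum_le_tsum fun l1 => ENNReal.tsum_le_tsum fun R1 => ENNReal.tsum_le_tsum fun l2 =>
          ENNReal.tsum_le_tsum fun l3 => ENNReal.tsum_le_tsum fun R => ENNReal.tsum_le_tsum fun t =>
          term_R l1 R1 l2 l3 R t
      _ = S.trR σ i j := by
        unfold trR
        refine tsum_congr fun l1 => ?_
        rw [ENNReal.tsum_comm]
        refine tsum_congr fun l2 => ?_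
        rw [ENNReal.tsum_comm]
        refine tsum_congr fun l3 => ?_
        rw [tsum_congr fun R1 => ENNReal.tsum_comm, ENNReal.tsum_comm]
        refine tsum_congr fun t => ?_
        simp only [ENNReal.tsum_mul_left]
  · simp only [← ENNReal.tsum_mul_left]
    calc _ ≤ ∑' l1, ∑' R1, ∑' s2, ∑' G, ∑' s3, ∑' t, ind (S.qI σ j l1 s2 G s3 t ∧ 2 ^ j ≤ S.h l1 + S.h R1 ∧
            S.h l1 + S.h R1 < 2 ^ (j + 1) ∧ S.h l1 + S.h R1 ≤ S.h s2 + S.ht G + S.h s3 + 2 ^ i ∧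
            S.h s2 + S.ht G + S.h s3 ≤ S.h l1 + S.h R1 + 2 ^ i) *
            (S.w l1 * S.w s2 * S.wt G * S.w s3 * S.w t * S.w R1) :=
        ENNReal.tsum_le_tsum fun l1 => ENNReal.tsum_le_tsum fun R1 => ENNReal.tsum_le_tsum fun s2 =>
          ENNReal.tsum_le_tsum fun G => ENNReal.tsum_le_tsum fun s3 => ENNReal.tsum_le_tsum fun t =>
          term_I hG hi hj l1 R1 s2 G s3 t
      _ = S.trI σ i j := by
        unfold trI
        refine tsum_congr fun l1 => ?_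
        rw [ENNReal.tsum_comm]
        refine tsum_congr fun s2 => ?_
        rw [ENNReal.tsum_comm]
        refine tsum_congr fun G => ?_
        rw [ENNReal.tsum_comm]
        refine tsum_congr fun s3 => ?_
        rw [ENNReal.tsum_comm]

end Sys

end Pool.Agent.HEP
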