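import Pool.Agent.PLY.R2.MqSum
import Pool.Agent.PLY.R2.CaseR
import Pool.Agent.PLY.R2.Split
import Pool.Agent.PLY.R2.Red

/-!
Project PLY, RETURN ESTIMATE, module TpMain: THEOREM A.

PAPER PROOF. `tp_le_split`, `trR_le`, `trI_le`, `mq_le`: `tp ≤ C K² θ ^ (4(j-i)) + C 2 ^ i ∑_(k = i .. j+1) θ ^ k C K² θ ^ (3j) τ ^ (j-k)`. `θ ^ (4(j-i)) ≤ (θ ^ 3 τ) ^ (j-i)` (`θ ≤ τ`).
`∑_k θ ^ k τ ^ (j-k) ≤ C θ ^ i τ ^ (j-i)` (`geo3`), `2 ^ i θ ^ (3j) θ ^ i = 2 ^ i θ ^ (4i) θ ^ (3(j-i)) = θ ^ (3(j-i))` (`two_pow_th`).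
-/

namespace Pool.Agent.HEP

open scoped ENNReal
open Finset

namespace Sys

variable {S : Sys}

/-- **THEOREM A.** -/
theorem tp_le {KG : ℕ} (hG : S.Gyp KG) {κ θ τ : ℝ≥0∞} (hq : S.Rq κ θ) (h1 : θ < τ) (h2 : τ < 1) : ∃ C : ℝ≥0∞, C ≠ ⊤ ∧
    ∀ (K : ℝ≥0∞) (σ : Bool) (i j : ℕ), i + 2 ≤ j → 3 ≤ j → S.Fz K θ τ (j - 3) →
      S.tp σ i j ≤ C * K ^ 2 * (θ ^ 3 * τ) ^ (j - i) := by
  obtain ⟨C1, hC1, hR⟩ := trR_le hq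
  obtain ⟨C2, hC2, hI⟩ := trI_le hq
  obtain ⟨C3, hC3, hM⟩ := mq_le hq h1 h2
  obtain ⟨C4, hC4, hG3⟩ := R2.geo3 hq.th_ne_zero h1 h2
  refine ⟨C1 + C2 * C3 * C4, ENNReal.add_ne_top.2 ⟨hC1, ENNReal.mul_ne_top (ENNReal.mul_ne_top hC2 hC3) hC4⟩, ?_⟩
  intro K σ i j hij hj hF
  have e1 : θ ^ (4 * (j - i)) ≤ (θ ^ 3 * τ) ^ (j - i) := by
    rw [pow_mul]
    refine pow_le_pow_left' ?_ _
    rw [pow_succ]
    exact mul_le_mul' le_rfl h1.le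
  have e2 : (2 : ℝ≥0∞) ^ i * θ ^ (3 * j) * θ ^ i = θ ^ (3 * (j - i)) := by
    have h3 : θ ^ (3 * j) = θ ^ (3 * i) * θ ^ (3 * (j - i)) := by
      rw [← pow_add]
      congr 1
      omega
    calc (2 : ℝ≥0∞) ^ i * θ ^ (3 * j) * θ ^ i = ((2 : ℝ≥0∞) ^ i * θ ^ (4 * i)) * θ ^ (3 * (j - i)) := by
          rw [h3]
          ring
      _ = _ := by rw [hq.two_pow_th, one_mul]
  have e3 : ∑ k ∈ Ico i (j + 2), θ ^ k * S.mq σ j k ≤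
      C3 * K ^ 2 * θ ^ (3 * j) * (C4 * (θ ^ i * τ ^ (j - i))) := by
    calc ∑ k ∈ Ico i (j + 2), θ ^ k * S.mq σ j k ≤
          ∑ k ∈ Ico i (j + 2), C3 * K ^ 2 * θ ^ (3 * j) * (θ ^ k * τ ^ (j - k)) := by
          refine Finset.sum_le_sum fun k _ => ?_
          refine (mul_le_mul' le_rfl (hM K σ j k hj hF)).trans (le_of_eq ?_)
          ring
      _ = C3 * K ^ 2 * θ ^ (3 * j) * ∑ k ∈ Ico i (j + 2), θ ^ k * τ ^ (j - k) := by rw [Finset.mul_sum]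
      _ ≤ _ := mul_le_mul' le_rfl (hG3 i j (by omega))
  calc S.tp σ i j ≤ S.trR σ i j + S.trI σ i j := tp_le_split hG σ hij hj
    _ ≤ C1 * K ^ 2 * θ ^ (4 * (j - i)) + C2 * 2 ^ i * (C3 * K ^ 2 * θ ^ (3 * j) * (C4 * (θ ^ i * τ ^ (j - i)))) :=
        add_le_add (hR K τ σ i j (by omega) hj hF) ((hI σ i j hij).trans (mul_le_mul' le_rfl e3))
    _ ≤ C1 * K ^ 2 * (θ ^ 3 * τ) ^ (j - i) + C2 * C3 * C4 * K ^ 2 * (θ ^ 3 * τ) ^ (j - i) := by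
        refine add_le_add (mul_le_mul' le_rfl e1) (le_of_eq ?_)
        calc C2 * 2 ^ i * (C3 * K ^ 2 * θ ^ (3 * j) * (C4 * (θ ^ i * τ ^ (j - i)))) =
              C2 * C3 * C4 * K ^ 2 * ((2 ^ i * θ ^ (3 * j) * θ ^ i) * τ ^ (j - i)) := by ring
          _ = _ := by
            rw [e2, mul_pow, ← pow_mul]
    _ = (C1 + C2 * C3 * C4) * K ^ 2 * (θ ^ 3 * τ) ^ (j - i) := by ring

end Sys

end Pool.Agent.HEP
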